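import Mathlib

/-! Definitions used in the statement of MP_490135_co. -/

namespace H345PK

open SimpleGraph

/-- The generalized Turan number `ex(n, P_r, P_k)`: the largest number of (unlabelled, not
necessarily induced) copies of the path on `r` vertices in an `n`-vertex graph with no copy of the
path on `k` vertices. -/
noncomputable def exPath (n r k : ℕ) : ℕ :=
  sSup {N : ℕ | ∃ G : SimpleGraph (Fin n),
    (pathGraph k).Free G ∧ N = G.copyCount (pathGraph r)}

/-- The graph `G_{n,k,m}` with `l = ⌊k/2⌋`: vertices `0,…,l-1` form a clique, `v = 0`; the `m`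
vertices `l,…,l+m-1` are adjacent only to `v`; the remaining `n-m-l` vertices are adjacent to
exactly the clique vertices `1,…,l-1`. -/
def Gnkm (n l m : ℕ) : SimpleGraph (Fin n) :=
  SimpleGraph.fromRel fun a b =>
    (a.val < l ∧ b.val < l) ∨ (a.val = 0 ∧ l ≤ b.val ∧ b.val < l + m) ∨
      (1 ≤ a.val ∧ a.val < l ∧ l + m ≤ b.val)

end H345PK
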