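import Pool.Agent.H345Z.PK.H0

/-! Tasks DER and NUM for MP_490135_co. -/

namespace H345PK

open Finset

namespace DN

/-- permutations avoiding `g` everywhere -/
def av {β : Type} [Fintype β] [DecidableEq β] (g : β → β) : Finset (Equiv.Perm β) :=
  univ.filter fun τ => ∀ t, τ t ≠ g t

theorem mem_av {β : Type} [Fintype β] [DecidableEq β] (g : β → β) (τ : Equiv.Perm β) :
    τ ∈ av g ↔ ∀ t, τ t ≠ g t := by
  simp [av]

theorem av_inj {β : Type} [Fintype β] [DecidableEq β] (g : β → β) (hg : Function.Injective g) :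
    (av g).card ≤ numDerangements (Fintype.card β) := by
  have hb : Function.Bijective g := (Finite.injective_iff_bijective).1 hg
  let γ : Equiv.Perm β := Equiv.ofBijective g hb
  rw [← card_derangements_eq_numDerangements β, ← Fintype.card_coe]
  refine Fintype.card_le_of_injective
    (fun τ => (⟨γ⁻¹ * τ.1, fun t ht => (mem_av g τ.1).1 τ.2 t ?_⟩ : derangements β)) ?_
  · have h1 : γ (γ⁻¹ (τ.1 t)) = γ t := congrArg γ ht
    have h2 : γ (γ⁻¹ (τ.1 t)) = τ.1 t := γ.apply_symm_apply _
    rw [h2] at h1
    exact h1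
  · intro a b hab
    have h1 : γ⁻¹ * a.1 = γ⁻¹ * b.1 := congrArg Subtype.val hab
    exact Subtype.ext (mul_left_cancel h1)

theorem av_step {β : Type} [Fintype β] [DecidableEq β] (g : β → β) (e : β) (c' : β)
    (hc : ∀ t, g t ≠ c') : (av g).card ≤ (av (Function.update g e c')).card := by
  refine card_le_card_of_injOn
    (fun τ => if τ e = c' then Equiv.swap (g e) c' * τ else τ) ?_ ?_
  · intro τ hτ
    have hτ' := (mem_av g τ).1 (by simpa using hτ)
    refine mem_coe.2 ((mem_av _ _).2 fun t => ?_)
    by_cases h : τ e = c'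
    · simp only [h, if_true, Equiv.Perm.mul_apply]
      by_cases hte : t = e
      · subst hte
        rw [h, Equiv.swap_apply_right, Function.update_self]
        exact hc t
      · rw [Function.update_of_ne hte]
        have h1 : τ t ≠ c' := fun h2 => hte (τ.injective (h2.trans h.symm))
        by_cases h3 : τ t = g e
        · rw [h3, Equiv.swap_apply_left]
          exact (hc t).symm
        · rw [Equiv.swap_apply_of_ne_of_ne h3 h1]
          exact hτ' t
    · simp only [h, if_false]
      by_cases hte : t = e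
      · subst hte
        rw [Function.update_self]
        exact h
      · rw [Function.update_of_ne hte]
        exact hτ' t
  · intro a ha b hb hab
    have ha' := (mem_av g a).1 (by simpa using ha)
    have hb' := (mem_av g b).1 (by simpa using hb)
    by_cases h1 : a e = c' <;> by_cases h2 : b e = c'
    · simp only [h1, h2, if_true] at hab
      exact mul_left_cancel hab
    · simp only [h1, h2, if_true, if_false] at hab
      exfalso
      apply hb' e
      rw [← hab, Equiv.Perm.mul_apply, h1, Equiv.swap_apply_right]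
    · simp only [h1, h2, if_true, if_false] at hab
      exfalso
      apply ha' e
      rw [hab, Equiv.Perm.mul_apply, h2, Equiv.swap_apply_right]
    · simpa only [h1, h2, if_false] using hab

theorem av_le {β : Type} [Fintype β] [DecidableEq β] (k : ℕ) :
    ∀ g : β → β, Fintype.card β - (univ.image g).card ≤ k →
      (av g).card ≤ numDerangements (Fintype.card β) := by
  induction k with
  | zero =>
    intro g hg
    apply av_inj
    rw [Finite.injective_iff_surjective]
    have h1 : (univ.image g) = univ := by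
      apply eq_univ_of_card
      have := card_le_univ (univ.image g)
      omega
    intro y
    have : y ∈ univ.image g := by rw [h1]; exact mem_univ y
    simpa using this
  | succ k ih =>
    intro g hg
    by_cases hi : Function.Injective g
    · exact av_inj g hi
    · have hs : ¬ Function.Surjective g := fun h => hi (Finite.injective_iff_surjective.2 h)
      obtain ⟨c', hc'⟩ : ∃ c', ∀ t, g t ≠ c' := by
        by_contra hcon
        push Not at hcon
        exact hs hcon
      obtain ⟨e1, e2, h12, hne⟩ : ∃ e1 e2, g e1 = g e2 ∧ e1 ≠ e2 := by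
        by_contra hcon
        push Not at hcon
        exact hi fun a b hab => hcon a b hab
      refine (av_step g e2 c' hc').trans (ih _ ?_)
      have hsub : insert c' (univ.image g) ⊆ univ.image (Function.update g e2 c') := by
        intro y hy
        rcases mem_insert.1 hy with rfl | hy
        · exact mem_image.2 ⟨e2, mem_univ _, Function.update_self _ _ _⟩
        · obtain ⟨t, -, rfl⟩ := mem_image.1 hy
          by_cases hte : t = e2
          · subst hte
            exact mem_image.2 ⟨e1, mem_univ _, by rw [Function.update_of_ne hne, h12]⟩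
          · exact mem_image.2 ⟨t, mem_univ _, by rw [Function.update_of_ne hte]⟩
      have hnot : c' ∉ univ.image g := by
        intro h
        obtain ⟨t, -, ht⟩ := mem_image.1 h
        exact hc' t ht
      have h1 := card_le_card hsub
      rw [card_insert_of_notMem hnot] at h1
      omega

theorem der_div (n : ℕ) : (numDerangements n : ℝ) / n.factorial =
    ∑ k ∈ Finset.range (n + 1), (-1 : ℝ) ^ k / k.factorial := by
  rw [← Int.cast_natCast, numDerangements_sum]
  push_cast
  rw [Finset.sum_div]
  refine Finset.sum_congr (refl _) ?_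
  intro k hk
  have h_le : k ≤ n := Finset.mem_range_succ_iff.mp hk
  rw [Nat.ascFactorial_eq_div, add_tsub_cancel_of_le h_le]
  push_cast [Nat.factorial_dvd_factorial h_le]
  field

theorem der_le (r : ℕ) : (numDerangements r : ℝ) / r.factorial ≤
    Real.exp (-1) + ((r : ℝ) + 2) / (((r + 1).factorial : ℝ) * (r + 1)) := by
  have h := Real.exp_bound (x := -1) (by simp) (n := r + 1) (by omega)
  rw [← der_div] at h
  have h2 := (abs_le.1 h).1
  simp only [abs_neg, abs_one, one_pow, one_mul, Nat.succ_eq_add_one] at h2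
  push_cast at h2
  have e : ((r : ℝ) + 1 + 1) = r + 2 := by ring
  rw [e] at h2
  linarith

theorem one_add_le (x : ℝ) (h0 : 0 ≤ x) (h1 : x ≤ 1) : 1 + x ≤ Real.exp (x - x ^ 2 / 4) := by
  have hy : 0 ≤ x - x ^ 2 / 4 := by nlinarith
  refine le_trans ?_ (Real.quadratic_le_exp_of_nonneg hy)
  have h2 : (3 / 4 : ℝ) ≤ 1 - x / 4 := by linarith
  have h3 : (9 / 16 : ℝ) ≤ (1 - x / 4) ^ 2 := by nlinarith
  have h4 : (x - x ^ 2 / 4) ^ 2 = x ^ 2 * (1 - x / 4) ^ 2 := by ring
  have h5 : x ^ 2 * (9 / 16) ≤ x ^ 2 * (1 - x / 4) ^ 2 :=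
    mul_le_mul_of_nonneg_left h3 (sq_nonneg x)
  nlinarith [sq_nonneg x]

theorem pow_le_exp (r : ℕ) (hr : 1 ≤ r) :
    ((r : ℝ) + 1) ^ r ≤ (r : ℝ) ^ r * Real.exp (1 - 1 / (4 * r)) := by
  have hr' : (1 : ℝ) ≤ r := by exact_mod_cast hr
  have hpos : (0 : ℝ) < r := by linarith
  have h1 := one_add_le (1 / r) (by positivity) (by rw [div_le_one hpos]; exact hr')
  have h2 : (1 + 1 / (r : ℝ)) ^ r ≤ Real.exp (1 / r - (1 / r) ^ 2 / 4) ^ r :=
    pow_le_pow_left₀ (by positivity) h1 r
  rw [← Real.exp_nat_mul] at h2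
  have e1 : (r : ℝ) * (1 / r - (1 / r) ^ 2 / 4) = 1 - 1 / (4 * r) := by field_simp
  rw [e1] at h2
  have e2 : ((r : ℝ) + 1) ^ r = (r : ℝ) ^ r * (1 + 1 / (r : ℝ)) ^ r := by
    rw [← mul_pow]
    congr 1
    field_simp
  rw [e2]
  exact mul_le_mul_of_nonneg_left h2 (by positivity)

theorem partA (r : ℕ) (hr : 5 ≤ r) : 2 * ((r : ℝ) + 1) ^ r < (r : ℝ) * (r : ℝ) ^ r := by
  rcases Nat.eq_or_lt_of_le hr with h | h
  · subst h
    norm_num
  · have hr' : (6 : ℝ) ≤ r := by exact_mod_cast h
    have h1 := pow_le_exp r (by omega)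
    have h2 : Real.exp (1 - 1 / (4 * r)) < 3 := by
      have : Real.exp (1 - 1 / (4 * r)) ≤ Real.exp 1 := by
        apply Real.exp_le_exp.2
        have : (0 : ℝ) ≤ 1 / (4 * r) := by positivity
        linarith
      have h3 := Real.exp_one_lt_d9
      linarith
    have hp : (0 : ℝ) < (r : ℝ) ^ r := by positivity
    have h4 : (r : ℝ) ^ r * Real.exp (1 - 1 / (4 * r)) < (r : ℝ) ^ r * 3 :=
      mul_lt_mul_of_pos_left h2 hp
    nlinarith

theorem partB (r : ℕ) (hr : 4 ≤ r) :
    (numDerangements r : ℝ) * ((r : ℝ) + 1) ^ r < (r.factorial : ℝ) * (r : ℝ) ^ r := by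
  have hr' : (4 : ℝ) ≤ r := by exact_mod_cast hr
  have hpos : (0 : ℝ) < r := by linarith
  have hf : (0 : ℝ) < r.factorial := by exact_mod_cast r.factorial_pos
  have h1 := pow_le_exp r (by omega)
  have h2 := der_le r
  have hfac : (24 : ℝ) ≤ r.factorial := by
    have : (4 : ℕ).factorial ≤ r.factorial := Nat.factorial_le hr
    exact_mod_cast this
  have h3 : ((r : ℝ) + 2) / (((r + 1).factorial : ℝ) * (r + 1)) ≤ 1 / (12 * r) := by
    rw [div_le_div_iff₀ (by positivity) (by positivity), Nat.factorial_succ]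
    push_cast
    have : 24 * (((r : ℝ) + 1) * (r + 1)) ≤ r.factorial * ((r + 1) * (r + 1)) :=
      mul_le_mul_of_nonneg_right hfac (by positivity)
    nlinarith
  have he : (1 / 3 : ℝ) < Real.exp (-1) := by
    rw [Real.exp_neg, one_div, inv_lt_inv₀ (by norm_num) (Real.exp_pos 1)]
    have h3 := Real.exp_one_lt_d9
    linarith
  have h4 : Real.exp (-1) + 1 / (12 * r) < Real.exp (-(1 - 1 / (4 * r))) := by
    have e : -(1 - 1 / (4 * (r : ℝ))) = -1 + 1 / (4 * r) := by ring
    rw [e, Real.exp_add]
    have h5 : 1 / (4 * (r : ℝ)) + 1 ≤ Real.exp (1 / (4 * r)) := Real.add_one_le_exp _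
    have h6 : (0 : ℝ) < 1 / (4 * r) := by positivity
    have h7 : (1 : ℝ) / (12 * r) = 1 / 3 * (1 / (4 * r)) := by field_simp; norm_num
    have h8 := mul_le_mul_of_nonneg_left h5 (Real.exp_pos (-1)).le
    have h9 := mul_lt_mul_of_pos_right he h6
    rw [h7]
    linarith
  have h5 : (numDerangements r : ℝ) < r.factorial * Real.exp (-(1 - 1 / (4 * r))) := by
    have : (numDerangements r : ℝ) / r.factorial < Real.exp (-(1 - 1 / (4 * r))) := by linarith
    rw [div_lt_iff₀ hf] at this
    linarith
  have hE : Real.exp (-(1 - 1 / (4 * (r : ℝ)))) * Real.exp (1 - 1 / (4 * r)) = 1 := by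
    rw [← Real.exp_add]
    simp
  have hq : (0 : ℝ) < ((r : ℝ) + 1) ^ r := by positivity
  calc (numDerangements r : ℝ) * ((r : ℝ) + 1) ^ r
      < r.factorial * Real.exp (-(1 - 1 / (4 * r))) * ((r : ℝ) + 1) ^ r :=
        mul_lt_mul_of_pos_right h5 hq
    _ ≤ r.factorial * Real.exp (-(1 - 1 / (4 * r))) *
          ((r : ℝ) ^ r * Real.exp (1 - 1 / (4 * r))) :=
        mul_le_mul_of_nonneg_left h1 (by positivity)
    _ = r.factorial * (r : ℝ) ^ r *
          (Real.exp (-(1 - 1 / (4 * r))) * Real.exp (1 - 1 / (4 * r))) := by ring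
    _ = r.factorial * (r : ℝ) ^ r := by rw [hE, mul_one]

theorem reduce (r : ℕ) (W : ℝ)
    (h : W * ((r : ℝ) + 1) ^ r < 2 * (r.factorial : ℝ) * (r.factorial * (r : ℝ) ^ r)) :
    W / ((r + 1).factorial : ℝ) < 2 * cc (r + 1) := by
  have hf : (0 : ℝ) < r.factorial := by exact_mod_cast r.factorial_pos
  unfold cc
  simp only [Nat.add_sub_cancel]
  rw [Nat.factorial_succ, ← mul_div_assoc, div_lt_div_iff₀ (by positivity) (by positivity)]
  push_cast
  have hp : (0 : ℝ) < (r : ℝ) + 1 := by positivity
  have := mul_lt_mul_of_pos_right h hp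
  rw [pow_succ]
  nlinarith

end DN

theorem taskDer : TaskDer := by
  classical
  intro N t0 g hg
  have hcard : Fintype.card {t : Fin N // t ≠ t0} = N - 1 := by
    simp [Fintype.card_subtype_compl]
  let g' : {t : Fin N // t ≠ t0} → {t : Fin N // t ≠ t0} := fun t => ⟨g t.1, hg t.1 t.2⟩
  have h := DN.av_le (β := {t : Fin N // t ≠ t0}) _ g' le_rfl
  rw [hcard] at h
  refine le_trans ?_ h
  rw [← Fintype.card_coe, ← Fintype.card_coe]
  have hmem : ∀ σ : Equiv.Perm (Fin N), σ t0 = t0 → ∀ t, σ t ≠ t0 ↔ t ≠ t0 := by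
    intro σ h0 t
    constructor
    · intro h1 h2
      exact h1 (h2 ▸ h0)
    · intro h1 h2
      exact h1 (σ.injective (h2.trans h0.symm))
  refine Fintype.card_le_of_injective
    (fun σ => ⟨σ.1.subtypePerm (hmem σ.1 (mem_filter.1 σ.2).2.1), (DN.mem_av _ _).2 fun t ht =>
      (mem_filter.1 σ.2).2.2 t.1 t.2 (congrArg Subtype.val ht)⟩) ?_
  intro a b hab
  have h1 := congrArg Subtype.val hab
  apply Subtype.ext
  ext t
  by_cases ht : t = t0
  · subst ht
    rw [(mem_filter.1 a.2).2.1, (mem_filter.1 b.2).2.1]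
  · have h2 := congrArg (fun τ : Equiv.Perm {t : Fin N // t ≠ t0} => (τ ⟨t, ht⟩).1) h1
    exact congrArg Fin.val h2

theorem taskNum (l : ℕ) (h : 4 ≤ l) : TaskNum l := by
  rcases Nat.eq_or_lt_of_le h with h4 | h4
  · subst h4
    refine ⟨24, by decide, by decide, by omega, by omega, ?_⟩
    unfold cc
    norm_num [Nat.factorial]
  rcases Nat.eq_or_lt_of_le h4 with h5 | h5
  · have h5' : l = 5 := by omega
    subst h5'
    refine ⟨432, by decide, by decide, by omega, by omega, ?_⟩
    unfold cc
    norm_num [Nat.factorial]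
  obtain ⟨s, rfl⟩ : ∃ s, l = s + 2 := ⟨l - 2, by omega⟩
  have hs : 4 ≤ s := by omega
  have e1 : s + 2 - 1 = s + 1 := by omega
  have e2 : s + 2 - 2 = s := by omega
  refine ⟨max (4 * (s + 1).factorial * s.factorial)
    (2 * (s + 1).factorial * numDerangements (s + 1)), ?_, ?_, ?_, by omega, ?_⟩
  · rw [e1, e2]
    refine le_trans ?_ (le_max_left _ _)
    gcongr
    norm_num
  · rw [e1]
    exact le_max_right _ _
  · intro _
    rw [e1, e2]
    exact le_max_left _ _
  · rw [if_neg (by omega), add_zero]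
    apply DN.reduce (s + 1)
    have hf : (0 : ℝ) < (s + 1).factorial := by exact_mod_cast (s + 1).factorial_pos
    have hf' : (0 : ℝ) < s.factorial := by exact_mod_cast s.factorial_pos
    rcases le_total (4 * (s + 1).factorial * s.factorial)
      (2 * (s + 1).factorial * numDerangements (s + 1)) with hle | hle
    · rw [max_eq_right hle]
      have hB := DN.partB (s + 1) (by omega)
      have := mul_lt_mul_of_pos_left hB (show (0 : ℝ) < 2 * (s + 1).factorial by positivity)
      push_cast at this ⊢
      linarith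
    · rw [max_eq_left hle]
      have hA := DN.partA (s + 1) (by omega)
      have := mul_lt_mul_of_pos_left hA
        (show (0 : ℝ) < 2 * (s + 1).factorial * s.factorial by positivity)
      have e3 : ((s + 1).factorial : ℝ) = ((s : ℝ) + 1) * s.factorial := by
        rw [Nat.factorial_succ]; push_cast; ring
      push_cast at this ⊢
      calc 4 * ((s + 1).factorial : ℝ) * s.factorial * ((s : ℝ) + 1 + 1) ^ (s + 1)
          = 2 * ((s + 1).factorial : ℝ) * s.factorial * (2 * ((s : ℝ) + 1 + 1) ^ (s + 1)) := by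
            ring
        _ < 2 * ((s + 1).factorial : ℝ) * s.factorial * (((s : ℝ) + 1) * ((s : ℝ) + 1) ^ (s + 1)) :=
            this
        _ = 2 * ((s + 1).factorial : ℝ) * ((((s : ℝ) + 1) * s.factorial) *
              ((s : ℝ) + 1) ^ (s + 1)) := by ring
        _ = _ := by rw [← e3]

end H345PK
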