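import Pool.Agent.H345Z.PK.Iface

/-! Tasks E1, E2, E5 for MP_490135_co. -/

namespace H345PK

open Finset SimpleGraph

section copies

variable {V W : Type} {G : SimpleGraph V} {H : SimpleGraph W}

/-- the copy attached to a subgraph and an isomorphism -/
def e1Copy (G' : G.Subgraph) (e : H ≃g G'.coe) : SimpleGraph.Copy H G :=
  ⟨G'.hom.comp e.toHom, SimpleGraph.Subgraph.hom_injective.comp e.injective⟩

theorem e1Copy_apply (G' : G.Subgraph) (e : H ≃g G'.coe) (x : W) :
    e1Copy G' e x = (e x : V) := rfl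

theorem e1Copy_toSubgraph (G' : G.Subgraph) (e : H ≃g G'.coe) :
    (e1Copy G' e).toSubgraph = G' := by
  simp [SimpleGraph.Copy.toSubgraph, e1Copy, SimpleGraph.Subgraph.map_comp]

theorem e1_card_copies [Finite V] [Finite W] :
    Nat.card (SimpleGraph.Copy H G)
      = Nat.card {G' : G.Subgraph // Nonempty (H ≃g G'.coe)} * Nat.card (H ≃g H) := by
  classical
  rw [← Nat.card_prod]
  symm
  apply Nat.card_congr
  refine Equiv.ofBijective
    (fun p : {G' : G.Subgraph // Nonempty (H ≃g G'.coe)} × (H ≃g H) =>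
      e1Copy p.1.1 (p.2.trans (Classical.choice p.1.2))) ⟨?_, ?_⟩
  · rintro ⟨⟨G1, h1⟩, σ1⟩ ⟨⟨G2, h2⟩, σ2⟩ h
    simp only at h
    have hG : G1 = G2 := by
      rw [← e1Copy_toSubgraph G1 (σ1.trans (Classical.choice h1)), h, e1Copy_toSubgraph]
    subst hG
    congr 1
    apply RelIso.ext
    intro x
    have hx := DFunLike.congr_fun h x
    rw [e1Copy_apply, e1Copy_apply] at hx
    have hx2 := Subtype.ext hx
    rw [RelIso.trans_apply, RelIso.trans_apply] at hx2
    exact (Classical.choice h1).injective hx2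
  · intro f
    refine ⟨(⟨f.toSubgraph, ⟨f.isoToSubgraph⟩⟩,
      f.isoToSubgraph.trans (Classical.choice ⟨f.isoToSubgraph⟩ : H ≃g f.toSubgraph.coe).symm), ?_⟩
    apply SimpleGraph.Copy.ext
    intro x
    rw [e1Copy_apply]
    simp only [RelIso.trans_apply, RelIso.apply_symm_apply]
    rfl

theorem e1_copyCount_mul [Fintype V] [Fintype W] :
    Nat.card (SimpleGraph.Copy H G) = G.copyCount H * Nat.card (H ≃g H) := by
  classical
  have h := e1_card_copies (G := G) (H := H)
  rw [SimpleGraph.copyCount, h]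
  congr 1
  rw [Nat.card_eq_fintype_card, Fintype.card_subtype]

theorem e1_aut_pos [Finite W] : 0 < Nat.card (H ≃g H) := by
  classical
  have : Nonempty (H ≃g H) := ⟨SimpleGraph.Iso.refl⟩
  have : Finite (H ≃g H) := by
    apply Finite.of_injective (fun e : H ≃g H => (e : W → W))
    intro a b hab
    exact RelIso.ext (fun x => congrFun hab x)
  exact Nat.card_pos

end copies

theorem mem_paths {V : Type} [Fintype V] (G : SimpleGraph V) (N : ℕ) (f : Fin N → V) :
    f ∈ paths G N ↔
      Function.Injective f ∧ ∀ i j : Fin N, i.val + 1 = j.val → G.Adj (f i) (f j) := by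
  classical
  unfold paths
  simp

/-- a path function gives a copy -/
def e1OfFun {V : Type} (G : SimpleGraph V) (N : ℕ) (f : Fin N → V) (h1 : Function.Injective f)
    (h2 : ∀ i j : Fin N, i.val + 1 = j.val → G.Adj (f i) (f j)) :
    SimpleGraph.Copy (pathGraph N) G :=
  ⟨⟨f, fun {a b} hab => by
      rcases pathGraph_adj.1 hab with h | h
      · exact h2 a b h
      · exact (h2 b a h).symm⟩, h1⟩

theorem e1_paths_card {V : Type} [Fintype V] (G : SimpleGraph V) (N : ℕ) :
    (paths G N).card = Nat.card (SimpleGraph.Copy (pathGraph N) G) := by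
  classical
  rw [← Nat.card_eq_finsetCard]
  apply Nat.card_congr
  refine Equiv.ofBijective
    (fun f : {x // x ∈ paths G N} =>
      e1OfFun G N f.1 ((mem_paths G N f.1).1 f.2).1 ((mem_paths G N f.1).1 f.2).2) ⟨?_, ?_⟩
  · rintro ⟨f, hf⟩ ⟨g, hg⟩ h
    apply Subtype.ext
    funext x
    exact DFunLike.congr_fun h x
  · intro c
    refine ⟨⟨fun x => c x, (mem_paths G N _).2 ⟨c.injective, fun i j hij => ?_⟩⟩, ?_⟩
    · exact c.toHom.map_adj (pathGraph_adj.2 (Or.inl hij))
    · apply SimpleGraph.Copy.ext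
      intro x
      rfl

theorem e1_free {V : Type} (G : SimpleGraph V) (N : ℕ) :
    (pathGraph (N + 1)).Free G ↔ PFree G N := by
  constructor
  · intro hfree l hnd hch
    by_contra hlen
    push Not at hlen
    apply hfree
    refine ⟨e1OfFun G (N + 1) (fun i => l[i.val]'(by omega)) ?_ ?_⟩
    · intro i j hij
      simp only at hij
      exact Fin.ext ((List.Nodup.getElem_inj_iff hnd).1 hij)
    · intro i j hij
      have := List.isChain_iff_getElem.1 hch i.val (by omega)
      simpa only [hij] using this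
  · rintro hp ⟨c⟩
    have h := hp (List.ofFn fun i => c i) (List.nodup_ofFn.2 c.injective) (by
      rw [List.isChain_iff_getElem]
      intro i hi
      simp only [List.getElem_ofFn]
      exact c.toHom.map_adj (pathGraph_adj.2 (Or.inl rfl)))
    simp at h

theorem taskE1 : TaskE1 := by
  refine ⟨fun V _ G N => ?_, fun N => e1_aut_pos, fun V G N => e1_free G N⟩
  rw [e1_paths_card, e1_copyCount_mul]

/-! ### Task E2 -/

/-- adjacency of `Gnkm` on values -/
def e2R (l m a b : ℕ) : Prop :=
  (a < l ∧ b < l) ∨ (a = 0 ∧ l ≤ b ∧ b < l + m) ∨ (1 ≤ a ∧ a < l ∧ l + m ≤ b)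

theorem e2_adj (n l m : ℕ) (a b : Fin n) :
    (Gnkm n l m).Adj a b ↔ a.val ≠ b.val ∧ (e2R l m a b ∨ e2R l m b a) := by
  unfold Gnkm e2R
  rw [SimpleGraph.fromRel_adj]
  simp only [ne_eq, Fin.ext_iff]

theorem e2_nat (l m : ℕ) (hl : 2 ≤ l) (g : ℕ → ℕ)
    (hinj : ∀ i j, i ≤ 2 * l → j ≤ 2 * l → g i = g j → i = j)
    (hadj : ∀ i, i < 2 * l → e2R l m (g i) (g (i + 1)) ∨ e2R l m (g (i + 1)) (g i)) : False := by
  classical
  have hcov : ∀ i, i < 2 * l → g i < l ∨ g (i + 1) < l := by
    intro i hi
    have := hadj i hi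
    unfold e2R at this
    omega
  let a : ℕ → ℕ := fun i => if g (2 * i) < l then 2 * i else 2 * i + 1
  have ha1 : ∀ i, a i = 2 * i ∨ a i = 2 * i + 1 := by
    intro i
    simp only [a]
    split_ifs
    · left; rfl
    · right; rfl
  have ha2 : ∀ i, i < l → g (a i) < l := by
    intro i hi
    simp only [a]
    split_ifs with h
    · exact h
    · have := hcov (2 * i) (by omega)
      omega
  let φ : Fin l → Fin l := fun i => ⟨g (a i), ha2 i i.2⟩
  have hφ : Function.Injective φ := by
    intro i j hij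
    have h1 : g (a i) = g (a j) := congrArg Fin.val hij
    have hi := ha1 i
    have hj := ha1 j
    have hi2 := i.2
    have hj2 := j.2
    have := hinj _ _ (by omega) (by omega) h1
    apply Fin.ext
    omega
  have hsurj : Function.Surjective φ := Finite.surjective_of_injective hφ
  have hall : ∀ j, j ≤ 2 * l → g j < l → ∃ i, i < l ∧ a i = j := by
    intro j hj hg
    obtain ⟨i, hi⟩ := hsurj ⟨g j, hg⟩
    have h1 : g (a i) = g j := congrArg Fin.val hi
    have hi1 := ha1 i
    have hi2 := i.2
    exact ⟨i, i.2, hinj _ _ (by omega) hj h1⟩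
  have hev : ∀ k, k ≤ l → l ≤ g (2 * (l - k)) := by
    intro k
    induction k with
    | zero =>
      intro _
      by_contra h
      push Not at h
      obtain ⟨i, hi, hai⟩ := hall (2 * (l - 0)) (by omega) h
      have := ha1 i
      omega
    | succ k ih =>
      intro hk
      have h1 := ih (by omega)
      have h2 := hcov (2 * (l - (k + 1)) + 1) (by omega)
      have e : 2 * (l - (k + 1)) + 1 + 1 = 2 * (l - k) := by omega
      rw [e] at h2
      have h3 : g (2 * (l - (k + 1)) + 1) < l := by omega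
      obtain ⟨i, hi, hai⟩ := hall _ (by omega) h3
      have h4 := ha1 i
      have h5 : i = l - (k + 1) := by omega
      by_contra h
      push Not at h
      have h6 : a i = 2 * i := by
        simp only [a]
        rw [if_pos (by rw [h5]; exact h)]
      omega
  have hev' : ∀ i, i ≤ l → l ≤ g (2 * i) := by
    intro i hi
    have := hev (l - i) (by omega)
    rwa [show l - (l - i) = i by omega] at this
  obtain ⟨i, hi⟩ := hsurj ⟨0, by omega⟩
  have h0 : g (a i) = 0 := congrArg Fin.val hi
  have hil := i.2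
  have hai : a i = 2 * i + 1 := by
    have := hev' i (by omega)
    simp only [a]
    rw [if_neg (by omega)]
  rw [hai] at h0
  by_cases hi0 : i.val = 0
  · rw [hi0] at h0
    have h0' : g 1 = 0 := h0
    have a1 := hadj 1 (by omega)
    have a2 := hadj 2 (by omega)
    have b2 : l ≤ g 2 := hev' 1 (by omega)
    have : g 3 = g 1 := by
      unfold e2R at a1 a2
      simp only [Nat.reduceAdd] at a1 a2
      omega
    have := hinj 3 1 (by omega) (by omega) this
    omega
  · have a1 := hadj (2 * i) (by omega)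
    have a2 := hadj (2 * i - 1) (by omega)
    rw [show 2 * i.val - 1 + 1 = 2 * i by omega] at a2
    have b2 : l ≤ g (2 * i) := hev' i (by omega)
    have : g (2 * i - 1) = g (2 * i + 1) := by
      unfold e2R at a1 a2
      omega
    have := hinj _ _ (by omega) (by omega) this
    omega

theorem e2_pfree (n l m : ℕ) (hl : 2 ≤ l) : PFree (Gnkm n l m) (2 * l) := by
  intro L hnd hch
  by_contra hlen
  push Not at hlen
  let g : ℕ → ℕ := fun i => if h : i < L.length then (L[i]'h).val else 0
  apply e2_nat l m hl g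
  · intro i j hi hj hij
    simp only [g] at hij
    rw [dif_pos (by omega), dif_pos (by omega)] at hij
    exact (List.Nodup.getElem_inj_iff hnd).1 (Fin.ext hij)
  · intro i hi
    have := List.isChain_iff_getElem.1 hch i (by omega)
    rw [e2_adj] at this
    simp only [g]
    rw [dif_pos (by omega), dif_pos (by omega)]
    exact this.2

/-- extension of an embedding to `ℕ` -/
def e2ext {k N : ℕ} (e : Fin k ↪ Fin N) (j : ℕ) : ℕ :=
  if h : j < k then (e ⟨j, h⟩).val else 0

theorem e2ext_lt {k N : ℕ} (e : Fin k ↪ Fin N) (j : ℕ) (h : j < k) : e2ext e j < N := by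
  unfold e2ext
  rw [dif_pos h]
  exact (e ⟨j, h⟩).2

theorem e2ext_inj {k N : ℕ} (e : Fin k ↪ Fin N) (i j : ℕ) (hi : i < k) (hj : j < k)
    (h : e2ext e i = e2ext e j) : i = j := by
  unfold e2ext at h
  rw [dif_pos hi, dif_pos hj] at h
  have := e.injective (Fin.ext h)
  exact congrArg Fin.val this

theorem e2ext_ext {k N : ℕ} (e e' : Fin k ↪ Fin N) (h : ∀ j, j < k → e2ext e j = e2ext e' j) :
    e = e' := by
  apply Function.Embedding.ext
  intro x
  have := h x.val x.2
  unfold e2ext at this
  rw [dif_pos x.2, dif_pos x.2] at this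
  exact Fin.ext this

/-- values along the standard path -/
def e2pv (l m p : ℕ) (c b : ℕ → ℕ) (i : ℕ) : ℕ :=
  if i = 0 then l + p else if i = 1 then 0 else
    if i % 2 = 0 then 1 + c ((i - 2) / 2) else l + m + b ((i - 2) / 2)

/-- index type of the standard paths -/
abbrev E2I (n l m : ℕ) : Type :=
  Fin m × (Fin (l - 1) ↪ Fin (l - 1)) × (Fin (l - 1) ↪ Fin (n - m - l))

theorem e2pv_lt (n l m : ℕ) (hl : 2 ≤ l) (hn : l ≤ n) (hm : m ≤ n - l) (x : E2I n l m) (i : ℕ)
    (hi : i < 2 * l) : e2pv l m x.1 (e2ext x.2.1) (e2ext x.2.2) i < n := by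
  unfold e2pv
  have h1 := x.1.2
  split_ifs with h0 h1' h2
  · omega
  · omega
  · have := e2ext_lt x.2.1 ((i - 2) / 2) (by omega)
    omega
  · have := e2ext_lt x.2.2 ((i - 2) / 2) (by omega)
    omega

/-- the standard path -/
def e2F (n l m : ℕ) (hl : 2 ≤ l) (hn : l ≤ n) (hm : m ≤ n - l) (x : E2I n l m) :
    Fin (2 * l) → Fin n :=
  fun i => ⟨e2pv l m x.1 (e2ext x.2.1) (e2ext x.2.2) i, e2pv_lt n l m hl hn hm x i i.2⟩

theorem e2F_mem (n l m : ℕ) (hl : 2 ≤ l) (hn : l ≤ n) (hm : m ≤ n - l) (x : E2I n l m) :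
    e2F n l m hl hn hm x ∈ paths (Gnkm n l m) (2 * l) := by
  have hinj : Function.Injective (e2F n l m hl hn hm x) := by
    intro i j hij
    have h : e2pv l m x.1 (e2ext x.2.1) (e2ext x.2.2) i
        = e2pv l m x.1 (e2ext x.2.1) (e2ext x.2.2) j := congrArg Fin.val hij
    apply Fin.ext
    have hi := i.2
    have hj := j.2
    have hp := x.1.2
    have c1 := e2ext_lt x.2.1 ((i.val - 2) / 2) (by omega)
    have c2 := e2ext_lt x.2.1 ((j.val - 2) / 2) (by omega)
    have d1 := e2ext_inj x.2.1 ((i.val - 2) / 2) ((j.val - 2) / 2) (by omega) (by omega)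
    have d2 := e2ext_inj x.2.2 ((i.val - 2) / 2) ((j.val - 2) / 2) (by omega) (by omega)
    unfold e2pv at h
    split_ifs at h <;> omega
  rw [mem_paths]
  refine ⟨hinj, fun i j hij => ?_⟩
  rw [e2_adj]
  refine ⟨fun h => ?_, ?_⟩
  · have := hinj (Fin.ext h)
    have := congrArg Fin.val this
    omega
  · show e2R l m (e2pv l m x.1 (e2ext x.2.1) (e2ext x.2.2) i)
        (e2pv l m x.1 (e2ext x.2.1) (e2ext x.2.2) j) ∨
      e2R l m (e2pv l m x.1 (e2ext x.2.1) (e2ext x.2.2) j)
        (e2pv l m x.1 (e2ext x.2.1) (e2ext x.2.2) i)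
    have hi := i.2
    have hj := j.2
    have hp := x.1.2
    have c1 := e2ext_lt x.2.1 ((i.val - 2) / 2) (by omega)
    have c2 := e2ext_lt x.2.1 ((j.val - 2) / 2) (by omega)
    unfold e2pv e2R
    split_ifs <;> omega

theorem e2F_inj (n l m : ℕ) (hl : 2 ≤ l) (hn : l ≤ n) (hm : m ≤ n - l) :
    Function.Injective (e2F n l m hl hn hm) := by
  intro x y hxy
  have h : ∀ i, i < 2 * l → e2pv l m x.1 (e2ext x.2.1) (e2ext x.2.2) i
      = e2pv l m y.1 (e2ext y.2.1) (e2ext y.2.2) i := fun i hi =>
    congrArg Fin.val (congrFun hxy ⟨i, hi⟩)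
  obtain ⟨p, c, b⟩ := x
  obtain ⟨p', c', b'⟩ := y
  simp only at h
  have h1 : p = p' := by
    have := h 0 (by omega)
    unfold e2pv at this
    simp only [if_true] at this
    apply Fin.ext
    omega
  have h2 : c = c' := by
    apply e2ext_ext
    intro j hj
    have := h (2 * j + 2) (by omega)
    unfold e2pv at this
    rw [if_neg (by omega), if_neg (by omega), if_pos (by omega), if_neg (by omega),
      if_neg (by omega), if_pos (by omega), show (2 * j + 2 - 2) / 2 = j by omega] at this
    omega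
  have h3 : b = b' := by
    apply e2ext_ext
    intro j hj
    have := h (2 * j + 3) (by omega)
    unfold e2pv at this
    rw [if_neg (by omega), if_neg (by omega), if_neg (by omega), if_neg (by omega),
      if_neg (by omega), if_neg (by omega), show (2 * j + 3 - 2) / 2 = j by omega] at this
    omega
  rw [h1, h2, h3]

theorem e2_rev_mem {V : Type} [Fintype V] (G : SimpleGraph V) (N : ℕ) (f : Fin N → V)
    (hf : f ∈ paths G N) : f ∘ Fin.rev ∈ paths G N := by
  rw [mem_paths] at hf ⊢
  refine ⟨hf.1.comp Fin.rev_injective, fun i j hij => ?_⟩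
  apply (hf.2 (Fin.rev j) (Fin.rev i) _).symm
  have hi := i.2
  have hj := j.2
  rw [Fin.val_rev, Fin.val_rev]
  omega

theorem e2_count (n l m : ℕ) (hl : 2 ≤ l) (hn : l ≤ n) (hm : m ≤ n - l) :
    2 * (m * (l - 1).factorial * (n - m - l).descFactorial (l - 1)) ≤
      (paths (Gnkm n l m) (2 * l)).card := by
  classical
  have hc : Fintype.card (E2I n l m)
      = m * (l - 1).factorial * (n - m - l).descFactorial (l - 1) := by
    simp only [E2I, Fintype.card_prod, Fintype.card_embedding_eq, Fintype.card_fin,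
      Nat.descFactorial_self]
    ring
  let S : Finset (Fin (2 * l) → Fin n) := univ.image (e2F n l m hl hn hm)
  let S' : Finset (Fin (2 * l) → Fin n) := univ.image (fun x => e2F n l m hl hn hm x ∘ Fin.rev)
  have hS : S.card = Fintype.card (E2I n l m) := by
    rw [Finset.card_image_of_injective _ (e2F_inj n l m hl hn hm), Finset.card_univ]
  have hS' : S'.card = Fintype.card (E2I n l m) := by
    rw [Finset.card_image_of_injective, Finset.card_univ]
    intro x y hxy
    apply e2F_inj n l m hl hn hm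
    funext i
    have := congrFun hxy (Fin.rev i)
    simpa using this
  have hdisj : Disjoint S S' := by
    rw [Finset.disjoint_left]
    intro f hf hf'
    obtain ⟨x, -, rfl⟩ := Finset.mem_image.1 hf
    obtain ⟨y, -, hy⟩ := Finset.mem_image.1 hf'
    have h := congrArg Fin.val (congrFun hy ⟨0, by omega⟩)
    have h' : e2pv l m y.1 (e2ext y.2.1) (e2ext y.2.2) (2 * l - (0 + 1))
        = e2pv l m x.1 (e2ext x.2.1) (e2ext x.2.2) 0 := h
    have hp := x.1.2
    unfold e2pv at h'
    rw [if_neg (by omega), if_neg (by omega), if_neg (by omega), if_pos rfl] at h'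
    omega
  have hsub : S ∪ S' ⊆ paths (Gnkm n l m) (2 * l) := by
    intro f hf
    rcases Finset.mem_union.1 hf with hf | hf
    · obtain ⟨x, -, rfl⟩ := Finset.mem_image.1 hf
      exact e2F_mem n l m hl hn hm x
    · obtain ⟨x, -, rfl⟩ := Finset.mem_image.1 hf
      exact e2_rev_mem _ _ _ (e2F_mem n l m hl hn hm x)
  have := Finset.card_le_card hsub
  rw [Finset.card_union_of_disjoint hdisj, hS, hS', hc] at this
  omega

theorem taskE2 (l : ℕ) (h : 4 ≤ l) : TaskE2 l := by
  intro n m hn hm
  exact ⟨e2_pfree n l m (by omega), e2_count n l m (by omega) hn hm⟩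

/-! ### Task E5 -/

theorem goal_of_upper (l : ℕ) (h : 4 ≤ l) : Upper l → Goal l := by
  classical
  rintro ⟨n0, hU⟩
  refine ⟨max n0 l, fun n hn => ?_⟩
  have hn0 : n0 ≤ n := le_trans (le_max_left _ _) hn
  have hnl : l ≤ n := le_trans (le_max_right _ _) hn
  obtain ⟨E1a, E1b, E1c⟩ := taskE1
  have hne : (range (n - l + 1)).Nonempty := ⟨0, by simp⟩
  unfold exPath
  apply IsGreatest.csSup_eq
  constructor
  · obtain ⟨m, hm, hme⟩ := Finset.exists_mem_eq_sup (range (n - l + 1)) hne
      (fun m => (Gnkm n l m).copyCount (pathGraph (2 * l)))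
    refine ⟨Gnkm n l m, ?_, hme⟩
    rw [E1c]
    exact e2_pfree n l m (by omega)
  · rintro N ⟨G, hG, rfl⟩
    rw [E1c] at hG
    have h1 := hU (Fin n) G (by simpa using hn0) hG
    rw [Fintype.card_fin, E1a] at h1
    obtain ⟨m, hm, hme⟩ := Finset.exists_mem_eq_sup (range (n - l + 1)) hne
      (fun m => m * (l - 1).factorial * (n - m - l).descFactorial (l - 1))
    have hm' : m ≤ n - l := by
      have := Finset.mem_range.1 hm
      omega
    have h2 := e2_count n l m (by omega) hnl hm'
    rw [E1a] at h2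
    unfold ff at h1
    rw [hme] at h1
    have h3 := Nat.le_of_mul_le_mul_right (le_trans h1 h2) (E1b (2 * l))
    exact le_trans h3 (Finset.le_sup
      (f := fun m => (Gnkm n l m).copyCount (pathGraph (2 * l))) hm)

end H345PK
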