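import Pool.Agent.H345Z.PK.E3B

/-! Task E3: counting the longest paths near the complete bipartite subgraph. -/

namespace H345PK.E3

open Finset

variable {V : Type} [Fintype V] {G : SimpleGraph V} {C : Finset V}

open Classical in
/-- injective sequences with values in `S` -/
noncomputable def injs (k : ℕ) (S : Finset V) : Finset (Fin k → V) :=
  univ.filter fun σ => Function.Injective σ ∧ ∀ j, σ j ∈ S

theorem mem_injs {k : ℕ} {S : Finset V} {σ : Fin k → V} :
    σ ∈ injs k S ↔ Function.Injective σ ∧ ∀ j, σ j ∈ S := by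
  simp [injs]

theorem card_injs (k : ℕ) (S : Finset V) : (injs k S).card ≤ S.card.descFactorial k := by
  classical
  have h : Fintype.card (injs k S) ≤ Fintype.card (Fin k ↪ S) := by
    apply Fintype.card_le_of_injective
      (fun σ => (⟨fun j => ⟨σ.1 j, (mem_injs.1 σ.2).2 j⟩,
        fun i j e => (mem_injs.1 σ.2).1 (congrArg Subtype.val e)⟩ : Fin k ↪ S))
    intro σ τ e
    apply Subtype.ext
    funext j
    exact congrArg Subtype.val (congrFun (congrArg Function.Embedding.toFun e) j)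
  rw [Fintype.card_embedding_eq] at h
  simpa using h

open Classical in
theorem card_W (r : ℕ) (hC : C.card = r + 1) (P : Finset (V × V)) (j0 : Fin (r + 1)) :
    ((univ ×ˢ injs (r + 1) C).filter fun p : V × (Fin (r + 1) → V) => (p.1, p.2 j0) ∈ P).card ≤
      r.factorial * P.card := by
  apply card_le_mul_card_image_of_maps_to (f := fun p : V × (Fin (r + 1) → V) => (p.1, p.2 j0))
  · intro p hp
    exact (mem_filter.1 hp).2
  · intro b _
    by_cases hb : b.2 ∈ C
    · have h1 := card_injs r (C.erase b.2)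
      rw [card_erase_of_mem hb, hC, Nat.add_sub_cancel, Nat.descFactorial_self] at h1
      refine le_trans ?_ h1
      apply card_le_card_of_injOn (fun p => p.2 ∘ j0.succAbove)
      · intro p hp
        rw [mem_coe, mem_filter, mem_filter, mem_product, mem_injs] at hp
        obtain ⟨⟨⟨-, hi, hm⟩, -⟩, e⟩ := hp
        rw [mem_coe, mem_injs]
        refine ⟨hi.comp Fin.succAbove_right_injective, fun j => mem_erase.2 ⟨?_, hm _⟩⟩
        rw [← e]
        intro h
        exact Fin.succAbove_ne j0 j (hi h)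
      · intro p hp q hq e
        rw [mem_coe, mem_filter] at hp hq
        have e2 := hp.2.trans hq.2.symm
        rw [Prod.mk.injEq] at e2
        refine Prod.ext e2.1 ?_
        funext j
        rcases Fin.eq_self_or_eq_succAbove j0 j with rfl | ⟨k, rfl⟩
        · exact e2.2
        · exact congrFun e k
    · rw [card_eq_zero.2]
      · exact Nat.zero_le _
      · rw [eq_empty_iff_forall_notMem]
        intro p hp
        rw [mem_filter, mem_filter, mem_product, mem_injs] at hp
        apply hb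
        rw [← hp.2]
        exact hp.1.1.2.2 j0

theorem desc_ratio (r s : ℕ) :
    ∃ z0 : ℕ, ∀ z, z0 ≤ z → z.descFactorial r ≤ 2 * (z - s).descFactorial r := by
  refine ⟨2 * (r + 1) * (s + r) + 1, fun z hz => ?_⟩
  have h1 := Nat.descFactorial_le_pow z r
  have h2 := Nat.pow_sub_le_descFactorial (z - s) r
  have hle : s + r ≤ z := by nlinarith
  have h3 : (z - (s + r)) ^ r ≤ (z - s + 1 - r) ^ r := Nat.pow_le_pow_left (by omega) r
  have h4 : z ^ r ≤ 2 * (z - (s + r)) ^ r := by
    have hz0 : (0 : ℝ) < z := by exact_mod_cast (by omega : 0 < z)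
    have hzr : (2 * (r + 1) * (s + r) + 1 : ℝ) ≤ z := by exact_mod_cast hz
    have hle' : ((s + r : ℕ) : ℝ) ≤ z := by exact_mod_cast hle
    have hb := one_add_mul_le_pow (a := -(((s + r : ℕ) : ℝ) / z))
      (by
        have : ((s + r : ℕ) : ℝ) / z ≤ 1 := (div_le_one hz0).2 hle'
        linarith) r
    have hq : (r : ℝ) * (((s + r : ℕ) : ℝ) / z) ≤ 1 / 2 := by
      rw [← mul_div_assoc, div_le_iff₀ hz0]
      push_cast
      have : (0 : ℝ) ≤ s + r := by positivity
      nlinarith
    have e : ((z - (s + r) : ℕ) : ℝ) = z * (1 + -(((s + r : ℕ) : ℝ) / z)) := by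
      rw [Nat.cast_sub hle]
      field_simp
      ring
    have : ((z ^ r : ℕ) : ℝ) ≤ ((2 * (z - (s + r)) ^ r : ℕ) : ℝ) := by
      rw [Nat.cast_mul, Nat.cast_pow, Nat.cast_pow, e, mul_pow]
      have hp : (0 : ℝ) < (z : ℝ) ^ r := by positivity
      push_cast at hb hq ⊢
      nlinarith
    exact_mod_cast this
  omega

open Classical in
/-- the closed set -/
noncomputable def ZZ (G : SimpleGraph V) (C : Finset V) : Finset V := univ.filter (InZ G C)

open Classical in
/-- vertices of `Z` on an edge outside `C` -/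
noncomputable def DD (G : SimpleGraph V) (C : Finset V) : Finset V :=
  univ.filter fun x => InZ G C x ∧ x ∉ C ∧ ∃ y, y ∉ C ∧ G.Adj x y

open Classical in
/-- the other vertices of `Z` outside `C` -/
noncomputable def SS (G : SimpleGraph V) (C : Finset V) : Finset V :=
  univ.filter fun x => InZ G C x ∧ x ∉ C ∧ ¬ ∃ y, y ∉ C ∧ G.Adj x y

open Classical in
/-- possible end vertices with the first vertex of `C` -/
noncomputable def PP (G : SimpleGraph V) (C : Finset V) : Finset (V × V) :=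
  univ.filter fun p => p.2 ∈ C ∧ p.1 ∉ C ∧ ∃ w, w ∉ C ∧ G.Adj p.2 w ∧ G.Adj w p.1

theorem mem_ZZ {x : V} : x ∈ ZZ G C ↔ InZ G C x := by simp [ZZ]

theorem mem_DD {x : V} : x ∈ DD G C ↔ InZ G C x ∧ x ∉ C ∧ ∃ y, y ∉ C ∧ G.Adj x y := by
  simp [DD]

theorem mem_SS {x : V} : x ∈ SS G C ↔ InZ G C x ∧ x ∉ C ∧ ¬ ∃ y, y ∉ C ∧ G.Adj x y := by
  simp only [SS, mem_filter, mem_univ, true_and]

theorem mem_PP {p : V × V} :
    p ∈ PP G C ↔ p.2 ∈ C ∧ p.1 ∉ C ∧ ∃ w, w ∉ C ∧ G.Adj p.2 w ∧ G.Adj w p.1 := by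
  simp [PP]

theorem card_ZZ : C.card + (DD G C).card + (SS G C).card ≤ (ZZ G C).card := by
  classical
  have d1 : Disjoint C (DD G C) := disjoint_left.2 fun x hx h => (mem_DD.1 h).2.1 hx
  have d2 : Disjoint (C ∪ DD G C) (SS G C) := by
    rw [disjoint_left]
    intro x hx h
    rw [mem_SS] at h
    rcases mem_union.1 hx with hx | hx
    · exact h.2.1 hx
    · exact h.2.2 (mem_DD.1 hx).2.2
  rw [← card_union_of_disjoint d1, ← card_union_of_disjoint d2]
  apply card_le_card
  intro x hx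
  rw [mem_ZZ]
  rcases mem_union.1 hx with hx | hx
  · rcases mem_union.1 hx with hx | hx
    · exact Or.inl hx
    · exact (mem_DD.1 hx).1
  · exact (mem_SS.1 hx).1

theorem card_PP (h1 : F1 G C) (h2 : F2 G C) (hC : 2 ≤ C.card) (hD : 3 ≤ (DD G C).card) :
    (PP G C).card ≤ ((DD G C).card - 1) * C.card := by
  classical
  have hPD : ∀ p ∈ PP G C, p.1 ∈ DD G C := by
    intro p hp
    obtain ⟨hc, hu, w, hw, e1, e2⟩ := mem_PP.1 hp
    exact mem_DD.2 ⟨Or.inr (Or.inr ⟨w, ⟨_, hc, e1⟩, e2⟩), hu, w, hw, e2.symm⟩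
  by_cases hall : ∀ v ∈ DD G C, ∃ c, (v, c) ∈ PP G C
  · have hinj : Set.InjOn Prod.fst (PP G C : Set (V × V)) := by
      intro p hp q hq e
      obtain ⟨hc, hu, w, hw, e1, e2⟩ := mem_PP.1 (mem_coe.1 hp)
      obtain ⟨hc', -, w', hw', e1', e2'⟩ := mem_PP.1 (mem_coe.1 hq)
      rw [← e] at e2'
      have hww : w = w' := h1 _ _ _ _ hc hw hu hw' e1 e2 e2'.symm
      subst hww
      refine Prod.ext e ?_
      obtain ⟨x, hxD, hx⟩ : ∃ x ∈ DD G C, x ∉ ({p.1, w} : Finset V) :=
        exists_mem_notMem_of_card_lt_card (lt_of_le_of_lt card_le_two (by omega))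
      rw [mem_insert, mem_singleton, not_or] at hx
      obtain ⟨c0, h0⟩ := hall x hxD
      obtain ⟨hc0, hxC, y, hy, f1, f2⟩ := mem_PP.1 h0
      have hwD : w ∈ DD G C := mem_DD.2 ⟨Or.inr (Or.inl ⟨_, hc, e1⟩), hw, _, hu, e2⟩
      obtain ⟨c1, hw1⟩ := hall w hwD
      obtain ⟨hc1, -, v, hv, g1, g2⟩ := mem_PP.1 hw1
      have hyu : y ≠ p.1 := by
        rintro rfl
        exact hx.2 (h1 _ _ _ _ hc hw hu hxC e1 e2 f2).symm
      have hyw : y ≠ w := by
        rintro rfl
        exact hx.1 ((h1 _ _ _ _ hc1 hv hw hxC g1 g2 f2).symm.trans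
          (h1 _ _ _ _ hc1 hv hw hu g1 g2 e2))
      exact (h2 _ _ _ _ _ _ hc0 hc hy hxC hw hu f1 f2 e1 e2 hyw hyu hx.2 hx.1).symm.trans
        (h2 _ _ _ _ _ _ hc0 hc' hy hxC hw hu f1 f2 e1' e2 hyw hyu hx.2 hx.1)
    have h3 : (PP G C).card ≤ (DD G C).card :=
      card_le_card_of_injOn Prod.fst (fun p hp => hPD p hp) hinj
    obtain ⟨m, hm⟩ : ∃ m, (DD G C).card = m + 1 := ⟨(DD G C).card - 1, by omega⟩
    rw [hm] at h3 hD ⊢
    rw [Nat.add_sub_cancel]
    nlinarith
  · push Not at hall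
    obtain ⟨v, hv, hno⟩ := hall
    rw [← card_erase_of_mem hv, ← card_product]
    apply card_le_card
    intro p hp
    rw [mem_product, mem_erase]
    refine ⟨⟨?_, hPD p hp⟩, (mem_PP.1 hp).1⟩
    rintro rfl
    exact hno p.2 hp

/-- extension of a finite sequence -/
def ex {n : ℕ} (d : V) (f : Fin n → V) (i : ℕ) : V := if h : i < n then f ⟨i, h⟩ else d

omit [Fintype V] in
theorem ex_lt {n : ℕ} (d : V) (f : Fin n → V) {i : ℕ} (h : i < n) : ex d f i = f ⟨i, h⟩ :=
  dif_pos h

/-- the vertices of `C` along the path -/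
def cseq (r a : ℕ) (g : ℕ → V) : Fin r → V :=
  fun j => g (if j.val < a then 2 * j.val + 1 else 2 * j.val + 2)

/-- the vertices outside `C` along the path, except the two consecutive ones -/
def rseq (r a : ℕ) (g : ℕ → V) : Fin r → V :=
  fun j => g (if j.val < a then 2 * j.val else 2 * j.val + 3)

variable {r a : ℕ} {g g' : ℕ → V}

theorem cseq_mem (hg : IsP G C (r + 1) g) (hs : Shape C (r + 1) a g) :
    cseq r a g ∈ injs r C := by
  rw [mem_injs]
  constructor
  · intro i j e
    have hi := i.2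
    have hj := j.2
    have := hg.inj _ _ (by split_ifs <;> omega) (by split_ifs <;> omega) e
    apply Fin.ext
    split_ifs at this <;> omega
  · intro j
    have hj := j.2
    unfold cseq
    split_ifs with h
    · exact hs.s2 _ h
    · exact hs.s4 (j.val + 1) (by omega) (by omega)

theorem rseq_mem (h1 : F1 G C) (h2 : F2 G C) (hr : 2 ≤ r) (hg : IsP G C (r + 1) g)
    (hs : Shape C (r + 1) a g) : rseq r a g ∈ injs r (SS G C) := by
  rw [mem_injs]
  constructor
  · intro i j e
    have hi := i.2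
    have hj := j.2
    have := hg.inj _ _ (by split_ifs <;> omega) (by split_ifs <;> omega) e
    apply Fin.ext
    split_ifs at this <;> omega
  · intro j
    have hj := j.2
    have hlt : (if j.val < a then 2 * j.val else 2 * j.val + 3) < 2 * (r + 1) := by
      split_ifs <;> omega
    have hC : rseq r a g j ∉ C := by
      unfold rseq
      split_ifs with h
      · exact hs.s1 _ (by omega)
      · exact hs.s3 (j.val + 1) (by omega) (by omega)
    refine mem_SS.2 ⟨hg.inz _ hlt, hC, ?_⟩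
    rintro ⟨y, hy, hadj⟩
    exact others h1 h2 (by omega) hg hs hlt hC (by split_ifs <;> omega) (by split_ifs <;> omega)
      hy hadj

omit [Fintype V] in
theorem determined (e1 : g (2 * a) = g' (2 * a))
    (e2 : g (2 * a + 1) = g' (2 * a + 1)) (e3 : cseq r a g = cseq r a g')
    (e4 : rseq r a g = rseq r a g') (ha : a < r + 1) (i : ℕ) (hi : i < 2 * (r + 1)) :
    g i = g' i := by
  rcases Nat.even_or_odd' i with ⟨j, rfl | rfl⟩
  · rcases lt_trichotomy j a with h | rfl | h
    · have := congrFun e4 ⟨j, by omega⟩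
      simpa [rseq, h] using this
    · exact e1
    · obtain ⟨k, rfl⟩ : ∃ k, j = k + 1 := ⟨j - 1, by omega⟩
      have := congrFun e3 ⟨k, by omega⟩
      have hk : ¬ k < a := by omega
      simp only [cseq, if_neg hk] at this
      exact this
  · rcases lt_trichotomy j a with h | rfl | h
    · have := congrFun e3 ⟨j, by omega⟩
      simpa [cseq, h] using this
    · exact e2
    · obtain ⟨k, rfl⟩ : ∃ k, j = k + 1 := ⟨j - 1, by omega⟩
      have := congrFun e4 ⟨k, by omega⟩
      have hk : ¬ k < a := by omega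
      simp only [rseq, if_neg hk] at this
      exact this

open Classical in
/-- the paths inside `Z` with the step outside `C` at position `2 a` -/
noncomputable def QQ (G : SimpleGraph V) (C : Finset V) (l a : ℕ) (d : V) :
    Finset (Fin (2 * l) → V) :=
  univ.filter fun f => IsP G C l (ex d f) ∧ Shape C l a (ex d f)

theorem mem_QQ {l : ℕ} {d : V} {f : Fin (2 * l) → V} :
    f ∈ QQ G C l a d ↔ IsP G C l (ex d f) ∧ Shape C l a (ex d f) := by
  simp [QQ]

omit [Fintype V] in
theorem eq_of_ex {n : ℕ} {d : V} {f f' : Fin n → V} (h : ∀ i, i < n → ex d f i = ex d f' i) :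
    f = f' := by
  funext i
  have := h i.val i.2
  rwa [ex_lt d f i.2, ex_lt d f' i.2] at this

theorem card_QQ (h1 : F1 G C) (h2 : F2 G C) (hr : 2 ≤ r) (hC : C.card = r) (d : V) :
    (QQ G C (r + 1) a d).card ≤
      (DD G C).card * (DD G C).card * (r.factorial * (SS G C).card.descFactorial r) := by
  classical
  have k1 := card_injs r C
  rw [hC, Nat.descFactorial_self] at k1
  have k2 := card_injs r (SS G C)
  refine le_trans ?_ (Nat.mul_le_mul_left _ (Nat.mul_le_mul k1 k2))
  rw [← card_product, ← card_product, ← card_product]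
  apply card_le_card_of_injOn
    (fun f => ((ex d f (2 * a), ex d f (2 * a + 1)), (cseq r a (ex d f), rseq r a (ex d f))))
  · intro f hf
    obtain ⟨hg, hs⟩ := mem_QQ.1 (mem_coe.1 hf)
    have hlt := hs.lt
    have hu := hs.s1 a le_rfl
    have hw := hs.s3 a le_rfl hlt
    have huw := hg.adj (2 * a) (by omega)
    rw [mem_coe, mem_product, mem_product, mem_product]
    exact ⟨⟨mem_DD.2 ⟨hg.inz _ (by omega), hu, _, hw, huw⟩,
      mem_DD.2 ⟨hg.inz _ (by omega), hw, _, hu, huw.symm⟩⟩, cseq_mem hg hs,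
      rseq_mem h1 h2 hr hg hs⟩
  · intro f hf f' _ e
    simp only [Prod.mk.injEq] at e
    exact eq_of_ex (determined e.1.1 e.1.2 e.2.1 e.2.2 (mem_QQ.1 (mem_coe.1 hf)).2.lt)

theorem card_QQ_zero (h1 : F1 G C) (h2 : F2 G C) (hr : 1 ≤ r) (hC : C.card = r + 1) (d : V) :
    (QQ G C (r + 1 + 1) 0 d).card ≤
      r.factorial * (PP G C).card * (SS G C).card.descFactorial (r + 1) := by
  classical
  refine le_trans ?_ (Nat.mul_le_mul (card_W r hC (PP G C) 0) (card_injs (r + 1) (SS G C)))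
  rw [← card_product]
  have key : ∀ f ∈ QQ G C (r + 1 + 1) 0 d, ex d f 2 ∈ C ∧ ex d f 0 ∉ C ∧ ex d f 1 ∉ C ∧
      G.Adj (ex d f 2) (ex d f 1) ∧ G.Adj (ex d f 1) (ex d f 0) := by
    intro f hf
    obtain ⟨hg, hs⟩ := mem_QQ.1 hf
    exact ⟨hs.s4 1 (by omega) (by omega), hs.s1 0 le_rfl, hs.s3 0 le_rfl (by omega),
      (hg.adj 1 (by omega)).symm, (hg.adj 0 (by omega)).symm⟩
  apply card_le_card_of_injOn
    (fun f => ((ex d f 0, cseq (r + 1) 0 (ex d f)), rseq (r + 1) 0 (ex d f)))
  · intro f hf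
    obtain ⟨hg, hs⟩ := mem_QQ.1 (mem_coe.1 hf)
    obtain ⟨k1, k2, k3, k4, k5⟩ := key f hf
    rw [mem_coe, mem_product, mem_filter, mem_product]
    exact ⟨⟨⟨mem_univ _, cseq_mem hg hs⟩, mem_PP.2 ⟨k1, k2, _, k3, k4, k5⟩⟩,
      rseq_mem h1 h2 (by omega) hg hs⟩
  · intro f hf f' hf' e
    simp only [Prod.mk.injEq] at e
    obtain ⟨k1, k2, k3, k4, k5⟩ := key f hf
    obtain ⟨-, -, k3', -, k5'⟩ := key f' hf'
    rw [← e.1.1] at k5'
    exact eq_of_ex (determined (a := 0) e.1.1 (h1 _ _ _ _ k1 k3 k2 k3' k4 k5 k5'.symm) e.1.2 e.2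
      (by omega))

theorem card_QQ_last (h1 : F1 G C) (h2 : F2 G C) (hr : 1 ≤ r) (hC : C.card = r + 1) (d : V) :
    (QQ G C (r + 1 + 1) (r + 1) d).card ≤
      r.factorial * (PP G C).card * (SS G C).card.descFactorial (r + 1) := by
  classical
  refine le_trans ?_
    (Nat.mul_le_mul (card_W r hC (PP G C) (Fin.last r)) (card_injs (r + 1) (SS G C)))
  rw [← card_product]
  have key : ∀ f ∈ QQ G C (r + 1 + 1) (r + 1) d, ex d f (2 * r + 1) ∈ C ∧
      ex d f (2 * (r + 1) + 1) ∉ C ∧ ex d f (2 * (r + 1)) ∉ C ∧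
      G.Adj (ex d f (2 * r + 1)) (ex d f (2 * (r + 1))) ∧
      G.Adj (ex d f (2 * (r + 1))) (ex d f (2 * (r + 1) + 1)) := by
    intro f hf
    obtain ⟨hg, hs⟩ := mem_QQ.1 hf
    exact ⟨hs.s2 r (by omega), hs.s3 _ le_rfl (by omega), hs.s1 _ le_rfl,
      hg.adj (2 * r + 1) (by omega), hg.adj _ (by omega)⟩
  apply card_le_card_of_injOn
    (fun f => ((ex d f (2 * (r + 1) + 1), cseq (r + 1) (r + 1) (ex d f)),
      rseq (r + 1) (r + 1) (ex d f)))
  · intro f hf
    obtain ⟨hg, hs⟩ := mem_QQ.1 (mem_coe.1 hf)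
    obtain ⟨k1, k2, k3, k4, k5⟩ := key f hf
    have e : cseq (r + 1) (r + 1) (ex d f) (Fin.last r) = ex d f (2 * r + 1) := by
      simp [cseq]
    rw [mem_coe, mem_product, mem_filter, mem_product]
    refine ⟨⟨⟨mem_univ _, cseq_mem hg hs⟩, ?_⟩, rseq_mem h1 h2 (by omega) hg hs⟩
    show (_, cseq (r + 1) (r + 1) (ex d f) (Fin.last r)) ∈ _
    rw [e]
    exact mem_PP.2 ⟨k1, k2, _, k3, k4, k5⟩
  · intro f hf f' hf' e
    simp only [Prod.mk.injEq] at e
    obtain ⟨k1, k2, k3, k4, k5⟩ := key f hf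
    obtain ⟨-, -, k3', -, k5'⟩ := key f' hf'
    rw [← e.1.1] at k5'
    exact eq_of_ex (determined (a := r + 1) (h1 _ _ _ _ k1 k3 k2 k3' k4 k5 k5'.symm) e.1.1 e.1.2
      e.2 (by omega))

open Classical in
theorem isP_of_mem {l : ℕ} (d : V) {f : Fin (2 * l) → V}
    (hf : f ∈ (paths G (2 * l)).filter fun f => ∀ i, f i ∈ ZZ G C) : IsP G C l (ex d f) := by
  rw [mem_filter, paths, mem_filter] at hf
  obtain ⟨⟨-, hi, ha⟩, hz⟩ := hf
  refine ⟨fun i j h h' e => ?_, fun i h => ?_, fun i h => ?_⟩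
  · rw [ex_lt d f h, ex_lt d f h'] at e
    exact congrArg Fin.val (hi e)
  · rw [ex_lt d f h, ex_lt d f (show i < 2 * l by omega)]
    exact ha _ _ rfl
  · rw [ex_lt d f h]
    exact mem_ZZ.1 (hz _)

theorem le_ff {l z m : ℕ} (h : m ≤ z - l) :
    m * (l - 1).factorial * (z - m - l).descFactorial (l - 1) ≤ ff l z :=
  le_sup (f := fun m => m * (l - 1).factorial * (z - m - l).descFactorial (l - 1))
    (mem_range.2 (by omega))

end H345PK.E3

namespace H345PK

open Finset E3

theorem taskE3 (l : ℕ) (h : 4 ≤ l) : TaskE3 l := by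
  classical
  obtain ⟨r, rfl⟩ : ∃ r, l = r + 1 + 1 := ⟨l - 2, by omega⟩
  obtain ⟨z0, hz0⟩ := desc_ratio (r + 1) (4 * (r + 1 + 1) + (r + 1 + 1))
  refine ⟨z0 + 5 * (r + 1 + 1) + 4, fun V _ G hP hK => ?_⟩
  obtain ⟨C, B, hC, hB, hd, hadj⟩ := hK
  rw [Nat.add_sub_cancel] at hC
  have h1 : F1 G C := f1 hP hd hadj (by omega) (by omega) (by omega)
  have h2 : F2 G C := f2 hP hd hadj (by omega) (by omega)
  obtain ⟨d, hdC⟩ : C.Nonempty := card_pos.1 (by omega)
  refine ⟨ZZ G C, ⟨d, mem_ZZ.2 (Or.inl hdC)⟩,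
    fun a ha b hab => mem_ZZ.2 (closed h1 (mem_ZZ.1 ha) hab), ?_⟩
  have hBZ : B.card ≤ (ZZ G C).card :=
    card_le_card fun b hb => mem_ZZ.2 (Or.inr (Or.inl ⟨d, hdC, hadj d hdC b hb⟩))
  have hZ := card_ZZ (G := G) (C := C)
  set z := (ZZ G C).card with hz
  set m := (DD G C).card with hm
  set s := (SS G C).card with hs
  by_cases hD : 3 ≤ m
  · have hsub : ((paths G (2 * (r + 1 + 1))).filter fun f => ∀ i, f i ∈ ZZ G C) ⊆
        QQ G C (r + 1 + 1) 0 d ∪ QQ G C (r + 1 + 1) (r + 1) d := by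
      intro f hf
      have hg := isP_of_mem d (by convert hf)
      obtain ⟨a, ha⟩ := shape h1 h2 (by omega) (by omega) hg
      have hlt := ha.lt
      rw [mem_union, mem_QQ, mem_QQ]
      by_cases a0 : a = 0
      · subst a0; exact Or.inl ⟨hg, ha⟩
      by_cases a1 : a = r + 1
      · subst a1; exact Or.inr ⟨hg, ha⟩
      exfalso
      have : DD G C ⊆ {ex d f (2 * a), ex d f (2 * a + 1)} := by
        intro x hx
        obtain ⟨x1, x2, y, y1, y2⟩ := mem_DD.1 hx
        rw [mem_insert, mem_singleton]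
        exact interior h1 h2 hg ha (by omega) (by omega) x2 x1 y1 y2
      have := (card_le_card this).trans card_le_two
      omega
    have k0 := card_QQ_zero h1 h2 (by omega) hC d
    have k1 := card_QQ_last h1 h2 (by omega) hC d
    have k2 := card_PP h1 h2 (by omega) hD
    have k3 := le_ff (l := r + 1 + 1) (z := z) (m := m - 1) (by omega)
    rw [Nat.add_sub_cancel] at k3
    have k4 : s.descFactorial (r + 1) ≤ (z - (m - 1) - (r + 1 + 1)).descFactorial (r + 1) :=
      Nat.descFactorial_le _ (by omega)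
    have k5 : r.factorial * (PP G C).card * s.descFactorial (r + 1) ≤ ff (r + 1 + 1) z := by
      refine le_trans ?_ k3
      apply Nat.mul_le_mul _ k4
      rw [hC, ← hm] at k2
      rw [Nat.factorial_succ]
      calc r.factorial * (PP G C).card ≤ r.factorial * ((m - 1) * (r + 1)) :=
            Nat.mul_le_mul_left _ k2
        _ = (m - 1) * ((r + 1) * r.factorial) := by ring
    have k6 := (card_le_card hsub).trans (card_union_le _ _)
    rw [← hs] at k0 k1
    have k7 : ((paths G (2 * (r + 1 + 1))).filter fun f => ∀ i, f i ∈ ZZ G C).card ≤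
        2 * ff (r + 1 + 1) z := by omega
    convert k7
  · have hsub : ((paths G (2 * (r + 1 + 1))).filter fun f => ∀ i, f i ∈ ZZ G C) ⊆
        (range (r + 1 + 1)).biUnion fun a => QQ G C (r + 1 + 1) a d := by
      intro f hf
      have hg := isP_of_mem d (by convert hf)
      obtain ⟨a, ha⟩ := shape h1 h2 (by omega) (by omega) hg
      exact mem_biUnion.2 ⟨a, mem_range.2 ha.lt, mem_QQ.2 ⟨hg, ha⟩⟩
    have k1 := hz0 z (by omega)
    have k2 : s.descFactorial (r + 1) ≤ z.descFactorial (r + 1) :=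
      Nat.descFactorial_le _ (by omega)
    have k3 := le_ff (l := r + 1 + 1) (z := z) (m := 4 * (r + 1 + 1)) (by omega)
    rw [Nat.add_sub_cancel, Nat.sub_sub] at k3
    have k4 : ∀ a ∈ range (r + 1 + 1), (QQ G C (r + 1 + 1) a d).card ≤
        4 * ((r + 1).factorial *
          (2 * (z - (4 * (r + 1 + 1) + (r + 1 + 1))).descFactorial (r + 1))) := by
      intro a _
      refine (card_QQ h1 h2 (by omega) hC d).trans ?_
      apply Nat.mul_le_mul
      · rw [← hm]
        have : m ≤ 2 := by omega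
        nlinarith
      · exact Nat.mul_le_mul_left _ (k2.trans k1)
    have k6 := (card_le_card hsub).trans (card_biUnion_le_card_mul _ _ _ k4)
    rw [card_range] at k6
    have k7 : ((paths G (2 * (r + 1 + 1))).filter fun f => ∀ i, f i ∈ ZZ G C).card ≤
        2 * ff (r + 1 + 1) z := by
      refine k6.trans (le_trans (le_of_eq ?_) (Nat.mul_le_mul_left 2 k3))
      ring
    convert k7

end H345PK
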