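import Pool.Agent.H345Z.PK.Iface

/-! Task E3, part A: forbidden configurations next to a large complete bipartite subgraph. -/

namespace H345PK.E3

open Finset

variable {V : Type} {G : SimpleGraph V} {l : ℕ} {C B : Finset V}

theorem ext_path (hP : PFree G (2 * l)) (hd : Disjoint C B)
    (hadj : ∀ c ∈ C, ∀ b ∈ B, G.Adj c b) (T : Finset V) (hB : 2 * l + T.card < B.card)
    (h0 : V) (tail : List V) (h0C : h0 ∈ C) (hnd : (h0 :: tail).Nodup)
    (hch : (h0 :: tail).IsChain G.Adj) :
    ∀ cs : List V, cs.Nodup → (∀ c ∈ cs, c ∈ C) → (∀ c ∈ cs, c ∉ h0 :: tail) →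
      ∃ L : List V, cs.headD h0 ∈ C ∧ (cs.headD h0 :: L).Nodup ∧
        (cs.headD h0 :: L).IsChain G.Adj ∧ L.length = tail.length + 2 * cs.length ∧
        ∀ x ∈ cs.headD h0 :: L, x ∈ cs ∨ x ∈ h0 :: tail ∨ (x ∈ B ∧ x ∉ T) := by
  classical
  intro cs
  induction cs with
  | nil =>
    intro _ _ _
    exact ⟨tail, h0C, hnd, hch, by simp, fun x hx => Or.inr (Or.inl hx)⟩
  | cons c cs ih =>
    intro hn hC hdis
    rw [List.nodup_cons] at hn
    obtain ⟨L, hLC, hLn, hLc, hLl, hLm⟩ := ih hn.2 (fun x hx => hC x (List.mem_cons_of_mem _ hx))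
      (fun x hx => hdis x (List.mem_cons_of_mem _ hx))
    have hlen := hP _ hLn hLc
    have hcC : c ∈ C := hC c List.mem_cons_self
    obtain ⟨b, hbB, hb⟩ : ∃ b ∈ B, b ∉ (cs.headD h0 :: L).toFinset ∪ T := by
      apply exists_mem_notMem_of_card_lt_card
      have h1 := card_union_le (cs.headD h0 :: L).toFinset T
      have h2 := List.toFinset_card_le (cs.headD h0 :: L)
      omega
    rw [mem_union, not_or, List.mem_toFinset] at hb
    have hcb : c ≠ b := fun h => (disjoint_left.1 hd hcC) (h ▸ hbB)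
    have hcL : c ∉ cs.headD h0 :: L := by
      intro h
      rcases hLm c h with h | h | h
      · exact hn.1 h
      · exact hdis c List.mem_cons_self h
      · exact disjoint_left.1 hd hcC h.1
    refine ⟨b :: cs.headD h0 :: L, hcC, ?_, ?_, ?_, ?_⟩
    · show (c :: b :: cs.headD h0 :: L).Nodup
      rw [List.nodup_cons, List.nodup_cons]
      refine ⟨?_, hb.1, hLn⟩
      rw [List.mem_cons, not_or]
      exact ⟨hcb, hcL⟩
    · show (c :: b :: cs.headD h0 :: L).IsChain G.Adj
      rw [List.isChain_cons_cons, List.isChain_cons_cons]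
      exact ⟨hadj c hcC b hbB, (hadj _ hLC b hbB).symm, hLc⟩
    · simp only [List.length_cons, hLl]; ring
    · intro x hx
      change x ∈ c :: b :: cs.headD h0 :: L at hx
      rw [List.mem_cons, List.mem_cons] at hx
      rcases hx with rfl | rfl | hx
      · exact Or.inl List.mem_cons_self
      · exact Or.inr (Or.inr ⟨hbB, hb.2⟩)
      · rcases hLm x hx with h | h
        · exact Or.inl (List.mem_cons_of_mem _ h)
        · exact Or.inr h

/-- a path through all of `C` from `c` to `c'`, followed by `tail` -/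
theorem through (hP : PFree G (2 * l)) (hd : Disjoint C B)
    (hadj : ∀ c ∈ C, ∀ b ∈ B, G.Adj c b) (T : Finset V) (hB : 2 * l + T.card < B.card)
    (c c' : V) (hc : c ∈ C) (hc' : c' ∈ C) (hne : c ≠ c') (tail : List V)
    (ht : ∀ x ∈ tail, x ∉ C) (hnd : tail.Nodup) (hch : (c' :: tail).IsChain G.Adj) :
    ∃ L : List V, (c :: L).Nodup ∧ (c :: L).IsChain G.Adj ∧
      L.length + 2 = tail.length + 2 * C.card ∧
      ∀ x ∈ c :: L, x ∈ C ∨ x ∈ tail ∨ x ∉ T := by
  classical
  have hn0 : (c' :: tail).Nodup := List.nodup_cons.2 ⟨fun h => ht _ h hc', hnd⟩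
  obtain ⟨L, -, h1, h2, h3, h4⟩ := ext_path hP hd hadj T hB c' tail hc' hn0 hch
    (c :: ((C.erase c).erase c').toList)
    (List.nodup_cons.2 ⟨by simp, nodup_toList _⟩)
    (by
      intro x hx
      rw [List.mem_cons, mem_toList] at hx
      rcases hx with rfl | hx
      · exact hc
      · exact mem_of_mem_erase (mem_of_mem_erase hx))
    (by
      intro x hx h
      rw [List.mem_cons, mem_toList] at hx
      rw [List.mem_cons] at h
      rcases hx with rfl | hx
      · rcases h with h | h
        · exact hne h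
        · exact ht _ h hc
      · rcases h with h | h
        · exact (ne_of_mem_erase hx) h
        · exact ht _ h (mem_of_mem_erase (mem_of_mem_erase hx)))
  refine ⟨L, h1, h2, ?_, ?_⟩
  · rw [h3, List.length_cons, length_toList,
      card_erase_of_mem (mem_erase.2 ⟨hne.symm, hc'⟩), card_erase_of_mem hc]
    have : 1 < C.card := one_lt_card.2 ⟨c, hc, c', hc', hne⟩
    omega
  · intro x hx
    rcases h4 x hx with h | h | h
    · left
      rw [List.mem_cons, mem_toList] at h
      rcases h with rfl | h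
      · exact hc
      · exact mem_of_mem_erase (mem_of_mem_erase h)
    · rw [List.mem_cons] at h
      rcases h with rfl | h
      · exact Or.inl hc'
      · exact Or.inr (Or.inl h)
    · exact Or.inr (Or.inr h.2)

/-- no path on three vertices outside `C` hangs at `C` -/
def F1 (G : SimpleGraph V) (C : Finset V) : Prop :=
  ∀ c u w x : V, c ∈ C → u ∉ C → w ∉ C → x ∉ C → G.Adj c u → G.Adj u w → G.Adj w x → u = x

/-- no two disjoint edges outside `C` hang at different vertices of `C` -/
def F2 (G : SimpleGraph V) (C : Finset V) : Prop :=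
  ∀ c c' u w u' w' : V, c ∈ C → c' ∈ C → u ∉ C → w ∉ C → u' ∉ C → w' ∉ C →
    G.Adj c u → G.Adj u w → G.Adj c' u' → G.Adj u' w' →
    u ≠ u' → u ≠ w' → w ≠ u' → w ≠ w' → c = c'

theorem f1 (hP : PFree G (2 * l)) (hd : Disjoint C B)
    (hadj : ∀ c ∈ C, ∀ b ∈ B, G.Adj c b) (hB : 2 * l + 3 < B.card) (hC : C.card + 1 = l)
    (hl : 3 ≤ l) : F1 G C := by
  classical
  intro c u w x hc hu hw hx hcu huw hwx
  by_contra hux
  have hT : ({u, w, x} : Finset V).card ≤ 3 := card_le_three
  obtain ⟨c', hc', hne⟩ : ∃ c' ∈ C, c' ≠ c := exists_mem_ne (by omega) c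
  obtain ⟨b, hbB, hb⟩ : ∃ b ∈ B, b ∉ ({u, w, x} : Finset V) :=
    exists_mem_notMem_of_card_lt_card (by omega)
  have hbC : b ∉ C := fun h => disjoint_left.1 hd h hbB
  obtain ⟨L, h1, h2, h3, h4⟩ := through hP hd hadj {u, w, x} (by omega) c c' hc hc' hne.symm [b]
    (by simpa using hbC) (by simp) (by simpa using hadj c' hc' b hbB)
  have hno : ∀ y, y ∈ ({u, w, x} : Finset V) → y ∉ C → y ∉ c :: L := by
    intro y hy hyC h
    rcases h4 y h with h | h | h
    · exact hyC h
    · rw [List.mem_singleton] at h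
      exact hb (h ▸ hy)
    · exact h hy
  have key := hP (x :: w :: u :: c :: L) (by
      rw [List.nodup_cons, List.nodup_cons, List.nodup_cons]
      refine ⟨?_, ?_, hno u (by simp) hu, h1⟩
      · rw [List.mem_cons, List.mem_cons, not_or, not_or]
        exact ⟨hwx.ne.symm, fun h => hux h.symm, hno x (by simp) hx⟩
      · rw [List.mem_cons, not_or]
        exact ⟨huw.ne.symm, hno w (by simp) hw⟩)
    (by
      rw [List.isChain_cons_cons, List.isChain_cons_cons, List.isChain_cons_cons]
      exact ⟨hwx.symm, huw.symm, hcu.symm, h2⟩)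
  simp only [List.length_cons, List.length_nil] at key h3
  omega

theorem f2 (hP : PFree G (2 * l)) (hd : Disjoint C B)
    (hadj : ∀ c ∈ C, ∀ b ∈ B, G.Adj c b) (hB : 2 * l + 3 < B.card) (hC : C.card + 1 = l) :
    F2 G C := by
  classical
  intro c c' u w u' w' hc hc' hu hw hu' hw' hcu huw hcu' huw' h1' h2' h3' h4'
  by_contra hne
  have hT : ({u, w} : Finset V).card ≤ 2 := card_le_two
  obtain ⟨L, h1, h2, h3, h4⟩ := through hP hd hadj {u, w} (by omega) c c' hc hc' hne [u', w']
    (by simp [hu', hw']) (by simpa using huw'.ne) (by simp [hcu', huw'])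
  have hno : ∀ y, y ∈ ({u, w} : Finset V) → y ∉ C → y ≠ u' → y ≠ w' → y ∉ c :: L := by
    intro y hy hyC a b h
    rcases h4 y h with h | h | h
    · exact hyC h
    · simp [a, b] at h
    · exact h hy
  have key := hP (w :: u :: c :: L) (by
      rw [List.nodup_cons, List.nodup_cons]
      refine ⟨?_, hno u (by simp) hu h1' h2', h1⟩
      rw [List.mem_cons, not_or]
      exact ⟨huw.ne.symm, hno w (by simp) hw h3' h4'⟩)
    (by
      rw [List.isChain_cons_cons, List.isChain_cons_cons]
      exact ⟨huw.symm, hcu.symm, h2⟩)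
  simp only [List.length_cons, List.length_nil] at key h3
  omega

end H345PK.E3
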