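import Pool.Agent.H345Z.PK.E3A

/-! Task E3, part B: the shape of a longest path near the complete bipartite subgraph. -/

namespace H345PK.E3

open Finset

variable {V : Type} {G : SimpleGraph V} {l : ℕ} {C : Finset V}

/-- vertices at distance at most two from `C` -/
def InZ (G : SimpleGraph V) (C : Finset V) (x : V) : Prop :=
  x ∈ C ∨ (∃ c ∈ C, G.Adj c x) ∨ ∃ u, (∃ c ∈ C, G.Adj c u) ∧ G.Adj u x

theorem uniq (h1 : F1 G C) {x : V} (hx : x ∉ C) (hz : InZ G C x) (hn : ¬ ∃ c ∈ C, G.Adj c x) :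
    ∃ u, u ∉ C ∧ (∃ c ∈ C, G.Adj c u) ∧ ∀ y, G.Adj x y → y = u := by
  rcases hz with h | h | ⟨u, ⟨c, hc, hcu⟩, hux⟩
  · exact absurd h hx
  · exact absurd h hn
  · have hu : u ∉ C := fun h => hn ⟨u, h, hux⟩
    refine ⟨u, hu, ⟨c, hc, hcu⟩, fun y hy => ?_⟩
    have hyC : y ∉ C := fun h => hn ⟨y, h, hy.symm⟩
    exact (h1 c u x y hc hu hx hyC hcu hux hy).symm

theorem closed (h1 : F1 G C) {a b : V} (ha : InZ G C a) (hab : G.Adj a b) : InZ G C b := by
  by_cases haC : a ∈ C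
  · exact Or.inr (Or.inl ⟨a, haC, hab⟩)
  by_cases hn : ∃ c ∈ C, G.Adj c a
  · exact Or.inr (Or.inr ⟨a, hn, hab⟩)
  obtain ⟨u, -, hu, h⟩ := uniq h1 haC ha hn
  rw [h b hab]
  exact Or.inr (Or.inl hu)

/-- a path with `2 l` vertices inside `Z`, as a function on the natural numbers -/
structure IsP (G : SimpleGraph V) (C : Finset V) (l : ℕ) (g : ℕ → V) : Prop where
  inj : ∀ i j, i < 2 * l → j < 2 * l → g i = g j → i = j
  adj : ∀ i, i + 1 < 2 * l → G.Adj (g i) (g (i + 1))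
  inz : ∀ i, i < 2 * l → InZ G C (g i)

variable {g : ℕ → V}

theorem no3 (h1 : F1 G C) (hl : 3 ≤ l) (hg : IsP G C l g) (i : ℕ) (hi : i + 2 < 2 * l)
    (a : g i ∉ C) (b : g (i + 1) ∉ C) : g (i + 2) ∈ C := by
  by_contra c
  have e1 := hg.adj i (by omega)
  have e2 := hg.adj (i + 1) (by omega)
  by_cases hA : ∃ c ∈ C, G.Adj c (g i)
  · obtain ⟨c0, hc0, h⟩ := hA
    have := hg.inj _ _ (by omega) (by omega) (h1 c0 _ _ _ hc0 a b c h e1 e2)
    omega
  by_cases hB : ∃ c ∈ C, G.Adj c (g (i + 2))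
  · obtain ⟨c0, hc0, h⟩ := hB
    have := hg.inj _ _ (by omega) (by omega) (h1 c0 _ _ _ hc0 c b a h e2.symm e1.symm)
    omega
  obtain ⟨u, -, -, hu⟩ := uniq h1 a (hg.inz i (by omega)) hA
  obtain ⟨w, -, -, hw⟩ := uniq h1 c (hg.inz (i + 2) (by omega)) hB
  rcases Nat.eq_zero_or_pos i with rfl | hpos
  · have e3 := hg.adj (0 + 2) (by omega)
    have := hg.inj _ _ (by omega) (by omega) ((hw _ e3).trans (hw _ e2.symm).symm)
    omega
  · obtain ⟨k, rfl⟩ : ∃ k, i = k + 1 := ⟨i - 1, by omega⟩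
    have e0 := hg.adj k (by omega)
    have := hg.inj _ _ (by omega) (by omega) ((hu _ e0.symm).trans (hu _ e1).symm)
    omega

theorem no3' (h1 : F1 G C) (hl : 3 ≤ l) (hg : IsP G C l g) (i : ℕ) (hi : i + 2 < 2 * l)
    (b : g (i + 1) ∉ C) (c : g (i + 2) ∉ C) : g i ∈ C := by
  by_contra a
  exact c (no3 h1 hl hg i hi a b)

theorem ne_of (hg : IsP G C l g) {i j : ℕ} (hi : i < 2 * l) (hj : j < 2 * l) (h : i ≠ j) :
    g i ≠ g j := fun e => h (hg.inj i j hi hj e)

theorem oneRR_lt (h1 : F1 G C) (h2 : F2 G C) (hl : 3 ≤ l) (hg : IsP G C l g) (i j : ℕ)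
    (hij : i < j) (hj : j + 1 < 2 * l) (a : g i ∉ C) (b : g (i + 1) ∉ C) (c : g j ∉ C)
    (d : g (j + 1) ∉ C) : False := by
  have p1 : g (i + 2) ∈ C := no3 h1 hl hg i (by omega) a b
  have n1 : j ≠ i + 1 := by rintro rfl; exact d p1
  have n2 : j ≠ i + 2 := by rintro rfl; exact c p1
  obtain ⟨k, rfl⟩ : ∃ k, j = k + 1 := ⟨j - 1, by omega⟩
  have p2 : g k ∈ C := no3' h1 hl hg k (by omega) c d
  have e1 := hg.adj i (by omega)
  have e2 := hg.adj (i + 1) (by omega)
  have e3 := hg.adj k (by omega)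
  have e4 := hg.adj (k + 1) (by omega)
  have q1 := hg.inj _ _ (by omega) (by omega) (h2 _ _ _ _ _ _ p1 p2 b a c d e2.symm e1.symm e3 e4
    (ne_of hg (by omega) (by omega) (by omega)) (ne_of hg (by omega) (by omega) (by omega))
    (ne_of hg (by omega) (by omega) (by omega)) (ne_of hg (by omega) (by omega) (by omega)))
  rcases Nat.eq_zero_or_pos i with rfl | hpos
  · have p3 : g (k + 1 + 2) ∈ C := no3 h1 hl hg (k + 1) (by omega) c d
    have e5 := hg.adj (k + 1 + 1) (by omega)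
    have := hg.inj _ _ (by omega) (by omega) (h2 _ _ _ _ _ _ p1 p3 b a d c e2.symm e1.symm
      e5.symm e4.symm
      (ne_of hg (by omega) (by omega) (by omega)) (ne_of hg (by omega) (by omega) (by omega))
      (ne_of hg (by omega) (by omega) (by omega)) (ne_of hg (by omega) (by omega) (by omega)))
    omega
  · obtain ⟨m, rfl⟩ : ∃ m, i = m + 1 := ⟨i - 1, by omega⟩
    have p3 : g m ∈ C := no3' h1 hl hg m (by omega) a b
    have e0 := hg.adj m (by omega)
    have := hg.inj _ _ (by omega) (by omega) (h2 _ _ _ _ _ _ p3 p2 a b c d e0 e1 e3 e4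
      (ne_of hg (by omega) (by omega) (by omega)) (ne_of hg (by omega) (by omega) (by omega))
      (ne_of hg (by omega) (by omega) (by omega)) (ne_of hg (by omega) (by omega) (by omega)))
    omega

theorem oneRR (h1 : F1 G C) (h2 : F2 G C) (hl : 3 ≤ l) (hg : IsP G C l g) (i j : ℕ)
    (hi : i + 1 < 2 * l) (hj : j + 1 < 2 * l) (a : g i ∉ C) (b : g (i + 1) ∉ C) (c : g j ∉ C)
    (d : g (j + 1) ∉ C) : i = j := by
  rcases lt_trichotomy i j with h | h | h
  · exact (oneRR_lt h1 h2 hl hg i j h hj a b c d).elim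
  · exact h
  · exact (oneRR_lt h1 h2 hl hg j i h hi c d a b).elim

theorem sum_pairs (x : ℕ → ℕ) (n : ℕ) :
    ∑ i ∈ range (2 * n), x i = ∑ k ∈ range n, (x (2 * k) + x (2 * k + 1)) := by
  induction n with
  | zero => simp
  | succ n ih =>
    rw [show 2 * (n + 1) = 2 * n + 1 + 1 by ring, sum_range_succ, sum_range_succ, ih,
      sum_range_succ]
    ring

/-- the shape of a path: the only step outside `C` is from `2 a` to `2 a + 1` -/
structure Shape (C : Finset V) (l a : ℕ) (g : ℕ → V) : Prop where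
  lt : a < l
  s1 : ∀ j, j ≤ a → g (2 * j) ∉ C
  s2 : ∀ j, j < a → g (2 * j + 1) ∈ C
  s3 : ∀ j, a ≤ j → j < l → g (2 * j + 1) ∉ C
  s4 : ∀ j, a < j → j < l → g (2 * j) ∈ C

theorem shape (h1 : F1 G C) (h2 : F2 G C) (hl : 3 ≤ l) (hC : C.card + 1 = l)
    (hg : IsP G C l g) : ∃ a, Shape C l a g := by
  classical
  set x : ℕ → ℕ := fun i => if g i ∈ C then 1 else 0 with hx
  have hsum : ∑ k ∈ range l, (x (2 * k) + x (2 * k + 1)) ≤ C.card := by
    rw [← sum_pairs, hx, ← card_filter]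
    apply card_le_card_of_injOn g
    · intro i hi
      exact (mem_filter.1 (mem_coe.1 hi)).2
    · intro i hi j hj e
      exact hg.inj i j (mem_range.1 (mem_filter.1 (mem_coe.1 hi)).1)
        (mem_range.1 (mem_filter.1 (mem_coe.1 hj)).1) e
  obtain ⟨a, ha, ha0⟩ : ∃ a, a < l ∧ x (2 * a) + x (2 * a + 1) = 0 := by
    by_contra hno
    push Not at hno
    have : ∑ k ∈ range l, 1 ≤ ∑ k ∈ range l, (x (2 * k) + x (2 * k + 1)) :=
      sum_le_sum fun k hk => Nat.one_le_iff_ne_zero.2 (hno k (mem_range.1 hk))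
    rw [sum_const, card_range, smul_eq_mul] at this
    omega
  have ha1 : g (2 * a) ∉ C := by
    intro h; simp [hx, h] at ha0
  have ha2 : g (2 * a + 1) ∉ C := by
    intro h; simp [hx, h] at ha0
  have hone : ∀ k, k < l → k ≠ a → 1 ≤ x (2 * k) + x (2 * k + 1) := by
    intro k hk hka
    by_contra hno
    have b1 : g (2 * k) ∉ C := by
      intro h; simp [hx, h] at hno
    have b2 : g (2 * k + 1) ∉ C := by
      intro h; simp [hx, h] at hno
    have := oneRR h1 h2 hl hg _ _ (by omega) (by omega) b1 b2 ha1 ha2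
    omega
  have hnot2 : ∀ j, j < l → g (2 * j) ∈ C → g (2 * j + 1) ∈ C → False := by
    intro j hj c1 c2
    have hja : j ≠ a := by rintro rfl; exact ha1 c1
    have hm : j ∈ (range l).erase a := mem_erase.2 ⟨hja, mem_range.2 hj⟩
    rw [← add_sum_erase _ _ (mem_range.2 ha), ← add_sum_erase _ _ hm] at hsum
    have h3 : ∑ k ∈ ((range l).erase a).erase j, 1 ≤
        ∑ k ∈ ((range l).erase a).erase j, (x (2 * k) + x (2 * k + 1)) :=
      sum_le_sum fun k hk => hone k (mem_range.1 (mem_of_mem_erase (mem_of_mem_erase hk)))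
        (ne_of_mem_erase (mem_of_mem_erase hk))
    rw [sum_const, card_erase_of_mem hm, card_erase_of_mem (mem_range.2 ha), card_range,
      smul_eq_mul] at h3
    have h4 : x (2 * j) + x (2 * j + 1) = 2 := by simp [hx, c1, c2]
    omega
  have hRR : ∀ i, i + 1 < 2 * l → i ≠ 2 * a → g i ∉ C → g (i + 1) ∉ C → False :=
    fun i hi hne c1 c2 => hne (oneRR h1 h2 hl hg _ _ hi (by omega) c1 c2 ha1 ha2)
  have down : ∀ t, t ≤ a → g (2 * (a - t)) ∉ C := by
    intro t
    induction t with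
    | zero => intro _; simpa using ha1
    | succ t ih =>
      intro ht c1
      have c3 := ih (by omega)
      have e : 2 * (a - t) = 2 * (a - (t + 1)) + 1 + 1 := by omega
      rw [e] at c3
      have c2 : g (2 * (a - (t + 1)) + 1) ∈ C := by
        by_contra c2
        exact hRR _ (by omega) (by omega) c2 c3
      exact hnot2 _ (by omega) c1 c2
  have s1 : ∀ j, j ≤ a → g (2 * j) ∉ C := by
    intro j hj
    have := down (a - j) (by omega)
    rwa [show a - (a - j) = j by omega] at this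
  have s3 : ∀ j, a ≤ j → j < l → g (2 * j + 1) ∉ C := by
    intro j hj
    induction j, hj using Nat.le_induction with
    | base => intro _; exact ha2
    | succ j hj ih =>
      intro hjl c2
      have c0 := ih (by omega)
      have c1 : g (2 * (j + 1)) ∈ C := by
        by_contra c1
        exact hRR (2 * j + 1) (by omega) (by omega) c0 c1
      exact hnot2 _ hjl c1 c2
  refine ⟨a, ha, s1, fun j hj => ?_, s3, fun j hj hjl => ?_⟩
  · by_contra c
    exact hRR (2 * j) (by omega) (by omega) (s1 j (by omega)) c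
  · by_contra c
    exact hRR (2 * j) (by omega) (by omega) c (s3 j (by omega) hjl)

theorem Shape.nbr {a : ℕ} (hs : Shape C l a g) {i p : ℕ} (hi : i < 2 * l) (hp : p < 2 * l)
    (hiC : g i ∉ C) (h1 : i ≠ 2 * a) (h2 : i ≠ 2 * a + 1) (hpi : p + 1 = i ∨ p = i + 1) :
    g p ∈ C := by
  have hlt := hs.lt
  rcases Nat.even_or_odd' i with ⟨j, rfl | rfl⟩
  · have hja : j < a := by
      by_contra h
      exact hiC (hs.s4 j (by omega) (by omega))
    rcases hpi with h | rfl
    · have : p = 2 * (j - 1) + 1 := by omega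
      rw [this]; exact hs.s2 _ (by omega)
    · exact hs.s2 j hja
  · have hja : a < j := by
      by_contra h
      exact hiC (hs.s2 j (by omega))
    rcases hpi with h | rfl
    · have : p = 2 * j := by omega
      rw [this]; exact hs.s4 _ hja (by omega)
    · have : 2 * j + 1 + 1 = 2 * (j + 1) := by ring
      rw [this]; exact hs.s4 _ (by omega) (by omega)

theorem IsP.adj' (hg : IsP G C l g) {i p : ℕ} (hi : i < 2 * l) (hp : p < 2 * l)
    (hpi : p + 1 = i ∨ p = i + 1) : G.Adj (g p) (g i) := by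
  rcases hpi with rfl | rfl
  · exact hg.adj p hi
  · exact (hg.adj i hp).symm

/-- the other vertices outside `C` have no neighbour outside `C` -/
theorem others (h1 : F1 G C) (h2 : F2 G C) (hl : 3 ≤ l) (hg : IsP G C l g) {a : ℕ}
    (hs : Shape C l a g) {i : ℕ} (hi : i < 2 * l) (hiC : g i ∉ C) (n1 : i ≠ 2 * a)
    (n2 : i ≠ 2 * a + 1) {y : V} (hy : y ∉ C) (hadj : G.Adj (g i) y) : False := by
  have hlt := hs.lt
  have hu := hs.s1 a le_rfl
  have hw := hs.s3 a le_rfl hlt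
  have huw := hg.adj (2 * a) (by omega)
  obtain ⟨p0, hp0, hp0i⟩ : ∃ p, p < 2 * l ∧ (p + 1 = i ∨ p = i + 1) := by
    rcases Nat.eq_zero_or_pos i with rfl | h
    · exact ⟨1, by omega, Or.inr rfl⟩
    · exact ⟨i - 1, by omega, Or.inl (by omega)⟩
  have hyu : y ≠ g (2 * a) := by
    rintro rfl
    exact n2 (hg.inj _ _ hi (by omega) (h1 _ _ _ _ (hs.nbr hi hp0 hiC n1 n2 hp0i) hiC hu hw
      (hg.adj' hi hp0 hp0i) hadj huw))
  have hyw : y ≠ g (2 * a + 1) := by
    rintro rfl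
    exact n1 (hg.inj _ _ hi (by omega) (h1 _ _ _ _ (hs.nbr hi hp0 hiC n1 n2 hp0i) hiC hw hu
      (hg.adj' hi hp0 hp0i) hadj huw.symm))
  have hiu := ne_of hg hi (show 2 * a < 2 * l by omega) n1
  have hiw := ne_of hg hi (show 2 * a + 1 < 2 * l by omega) n2
  have hpq : ∀ p q, (p + 1 = i ∨ p = i + 1) → p < 2 * l → (q + 1 = 2 * a ∨ q = 2 * a + 2) →
      q < 2 * l → p = q := by
    intro p q hpi hp hq hql
    apply hg.inj _ _ hp hql
    rcases hq with hq | rfl
    · have hqC : g q ∈ C := by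
        have : q = 2 * (a - 1) + 1 := by omega
        rw [this]; exact hs.s2 _ (by omega)
      exact h2 _ _ _ _ _ _ (hs.nbr hi hp hiC n1 n2 hpi) hqC hiC hy hu hw (hg.adj' hi hp hpi) hadj
        (hg.adj' (by omega) hql (Or.inl hq)) huw hiu hiw hyu hyw
    · have hqC : g (2 * a + 2) ∈ C := by
        have : 2 * a + 2 = 2 * (a + 1) := by ring
        rw [this]; exact hs.s4 _ (by omega) (by omega)
      exact h2 _ _ _ _ _ _ (hs.nbr hi hp hiC n1 n2 hpi) hqC hiC hy hw hu (hg.adj' hi hp hpi) hadj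
        (hg.adj' (by omega) hql (Or.inr rfl)) huw.symm hiw hiu hyw hyu
  have A := hpq (i - 1) (2 * a - 1)
  have B := hpq (i - 1) (2 * a + 2)
  have D := hpq (i + 1) (2 * a - 1)
  have E := hpq (i + 1) (2 * a + 2)
  omega

/-- if the step outside `C` is in the interior of the path, it is the only edge outside `C` -/
theorem interior (h1 : F1 G C) (h2 : F2 G C) (hg : IsP G C l g) {a : ℕ}
    (hs : Shape C l a g) (ha0 : 0 < a) (ha1 : a + 1 < l) {x y : V} (hx : x ∉ C) (hz : InZ G C x)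
    (hy : y ∉ C) (hxy : G.Adj x y) : x = g (2 * a) ∨ x = g (2 * a + 1) := by
  have hu := hs.s1 a le_rfl
  have hw := hs.s3 a le_rfl hs.lt
  have huw := hg.adj (2 * a) (by omega)
  have c1 : g (2 * (a - 1) + 1) ∈ C := hs.s2 _ (by omega)
  have c2 : g (2 * (a + 1)) ∈ C := hs.s4 _ (by omega) ha1
  have e1 : G.Adj (g (2 * (a - 1) + 1)) (g (2 * a)) := hg.adj' (by omega) (by omega) (by omega)
  have e2 : G.Adj (g (2 * (a + 1))) (g (2 * a + 1)) := hg.adj' (by omega) (by omega) (by omega)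
  have hne : g (2 * (a - 1) + 1) ≠ g (2 * (a + 1)) := ne_of hg (by omega) (by omega) (by omega)
  by_contra hno
  rw [not_or] at hno
  have hyu : y ≠ g (2 * a) := by
    rintro rfl
    exact hno.2 (h1 _ _ _ _ c2 hw hu hx e2 huw.symm hxy.symm).symm
  have hyw : y ≠ g (2 * a + 1) := by
    rintro rfl
    exact hno.1 (h1 _ _ _ _ c1 hu hw hx e1 huw hxy.symm).symm
  by_cases hA : ∃ c ∈ C, G.Adj c x
  · obtain ⟨c, hc, hcx⟩ := hA
    exact hne ((h2 _ _ _ _ _ _ hc c1 hx hy hu hw hcx hxy e1 huw hno.1 hno.2 hyu hyw).symm.trans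
      (h2 _ _ _ _ _ _ hc c2 hx hy hw hu hcx hxy e2 huw.symm hno.2 hno.1 hyw hyu))
  · obtain ⟨u, -, ⟨c, hc, hcu⟩, hall⟩ := uniq h1 hx hz hA
    rw [← hall y hxy] at hcu
    exact hne ((h2 _ _ _ _ _ _ hc c1 hy hx hu hw hcu hxy.symm e1 huw hyu hyw hno.1 hno.2).symm.trans
      (h2 _ _ _ _ _ _ hc c2 hy hx hw hu hcu hxy.symm e2 huw.symm hyw hyu hno.2 hno.1))

end H345PK.E3
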