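import Pool.Agent.H345Z.PK.Iface

/-! Task E4: the upper bound from `HardHalf` and `TaskE3` (written by helper922). -/

namespace H345PK

open Finset SimpleGraph Filter Topology

lemma mem_paths {V : Type} [Fintype V] {G : SimpleGraph V} {N : ℕ} {f : Fin N → V} :
    f ∈ paths G N ↔
      Function.Injective f ∧ ∀ i j : Fin N, i.val + 1 = j.val → G.Adj (f i) (f j) := by
  simp [paths]

lemma le_ff {l n m : ℕ} (hm : m ≤ n - l) :
    m * (l - 1).factorial * (n - m - l).descFactorial (l - 1) ≤ ff l n := by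
  unfold ff
  exact Finset.le_sup
    (f := fun m => m * (l - 1).factorial * (n - m - l).descFactorial (l - 1))
    (Finset.mem_range.2 (Nat.lt_succ_of_le hm))

lemma exists_ff (l n : ℕ) : ∃ m, m ≤ n - l ∧
    ff l n = m * (l - 1).factorial * (n - m - l).descFactorial (l - 1) := by
  obtain ⟨m, hm, h⟩ := Finset.exists_mem_eq_sup (range (n - l + 1))
    ⟨0, Finset.mem_range.2 (Nat.succ_pos _)⟩
    (fun m => m * (l - 1).factorial * (n - m - l).descFactorial (l - 1))
  exact ⟨m, Nat.le_of_lt_succ (Finset.mem_range.1 hm), h⟩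

lemma ff_eq_zero {l n : ℕ} (h : n ≤ l) : ff l n = 0 := by
  obtain ⟨m, hm, e⟩ := exists_ff l n
  have : m = 0 := by omega
  simp [e, this]

lemma ff_key {l a b : ℕ} (hl : 1 ≤ l) (ha : l ≤ a) (hb : 1 ≤ b) : ∃ c x : ℕ, x ≤ a ∧
    ff l a = c * x.descFactorial (l - 1) ∧
    c * (x + 1).descFactorial (l - 1) + ff l b ≤ ff l (a + b) := by
  obtain ⟨ma, hma, ea⟩ := exists_ff l a
  obtain ⟨mb, hmb, eb⟩ := exists_ff l b
  refine ⟨ma * (l - 1).factorial, a - ma - l, by omega, ea, ?_⟩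
  have h1 : ma + mb ≤ a + b - l := by omega
  have h2 := le_ff h1
  have h3 : (a - ma - l + 1).descFactorial (l - 1) ≤
      (a + b - (ma + mb) - l).descFactorial (l - 1) :=
    Nat.descFactorial_le _ (by omega)
  have h4 : (b - mb - l).descFactorial (l - 1) ≤
      (a + b - (ma + mb) - l).descFactorial (l - 1) :=
    Nat.descFactorial_le _ (by omega)
  rw [eb]
  refine le_trans ?_ h2
  calc ma * (l - 1).factorial * (a - ma - l + 1).descFactorial (l - 1) +
        mb * (l - 1).factorial * (b - mb - l).descFactorial (l - 1)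
      ≤ ma * (l - 1).factorial * (a + b - (ma + mb) - l).descFactorial (l - 1) +
        mb * (l - 1).factorial * (a + b - (ma + mb) - l).descFactorial (l - 1) :=
        Nat.add_le_add (Nat.mul_le_mul_left _ h3) (Nat.mul_le_mul_left _ h4)
    _ = (ma + mb) * (l - 1).factorial * (a + b - (ma + mb) - l).descFactorial (l - 1) := by ring

lemma ff_superadd_aux {l a b : ℕ} (hl : 1 ≤ l) (ha : l ≤ a) (hb : 1 ≤ b) :
    ff l a + ff l b ≤ ff l (a + b) := by
  obtain ⟨c, x, -, e, h⟩ := ff_key hl ha hb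
  refine le_trans (Nat.add_le_add_right ?_ _) h
  rw [e]
  exact Nat.mul_le_mul_left _ (Nat.descFactorial_le _ (Nat.le_succ x))

lemma ff_superadd {l : ℕ} (hl : 1 ≤ l) (a b : ℕ) : ff l a + ff l b ≤ ff l (a + b) := by
  rcases Nat.eq_zero_or_pos b with rfl | hb
  · simp [ff_eq_zero (Nat.zero_le l)]
  rcases Nat.eq_zero_or_pos a with rfl | ha
  · simp [ff_eq_zero (Nat.zero_le l)]
  by_cases h1 : l ≤ a
  · exact ff_superadd_aux hl h1 hb
  by_cases h2 : l ≤ b
  · have := ff_superadd_aux hl h2 ha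
    rw [add_comm b a] at this
    omega
  rw [ff_eq_zero (by omega : a ≤ l), ff_eq_zero (by omega : b ≤ l)]
  exact Nat.zero_le _

/-- asymptotic lower bound for `ff` -/
lemma ff_lower {l : ℕ} (hl : 2 ≤ l) {θ : ℝ} (hθ : θ < 2 * cc l) :
    ∃ n1 : ℕ, ∀ n, n1 ≤ n → θ * (n : ℝ) ^ l ≤ 2 * (ff l n : ℝ) := by
  obtain ⟨r, rfl⟩ : ∃ r, l = r + 1 := ⟨l - 1, by omega⟩
  have hr : 1 ≤ r := by omega
  have hL : (0 : ℝ) < (r : ℝ) + 1 := by positivity
  have hrp : (0 : ℝ) < r := by exact_mod_cast hr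
  have hinv : Tendsto (fun n : ℕ => ((n : ℝ))⁻¹) atTop (𝓝 0) := tendsto_inv_atTop_nhds_zero_nat
  have hlim : Tendsto (fun n : ℕ => 2 * ((r.factorial : ℝ) * (1 / ((r : ℝ) + 1) - (n : ℝ)⁻¹) *
      ((r : ℝ) / (r + 1) - 2 * (r + 1) * (n : ℝ)⁻¹) ^ r)) atTop
      (𝓝 (2 * ((r.factorial : ℝ) * (1 / ((r : ℝ) + 1) - 0) *
        ((r : ℝ) / (r + 1) - 2 * (r + 1) * 0) ^ r))) := by
    refine Tendsto.const_mul _ (Tendsto.mul (Tendsto.const_mul _ ?_) (Tendsto.pow ?_ _))
    · exact tendsto_const_nhds.sub hinv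
    · exact tendsto_const_nhds.sub (hinv.const_mul _)
  have hc : 2 * ((r.factorial : ℝ) * (1 / ((r : ℝ) + 1) - 0) *
        ((r : ℝ) / (r + 1) - 2 * (r + 1) * 0) ^ r) = 2 * cc (r + 1) := by
    simp only [cc, Nat.add_sub_cancel, sub_zero, mul_zero, div_pow]
    push_cast
    field_simp
    ring
  rw [hc] at hlim
  have hlim2 : Tendsto (fun n : ℕ => (r : ℝ) / (r + 1) - 2 * (r + 1) * (n : ℝ)⁻¹) atTop
      (𝓝 ((r : ℝ) / (r + 1) - 2 * (r + 1) * 0)) := tendsto_const_nhds.sub (hinv.const_mul _)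
  have hpos : (0 : ℝ) < (r : ℝ) / (r + 1) - 2 * (r + 1) * 0 := by
    simp only [mul_zero, sub_zero]; positivity
  have e1 := hlim.eventually (lt_mem_nhds hθ)
  have e2 := hlim2.eventually (lt_mem_nhds hpos)
  have e3 : ∀ᶠ n : ℕ in atTop, 2 * (r + 1) ≤ n := eventually_ge_atTop _
  obtain ⟨n1, hn1⟩ := eventually_atTop.1 (e1.and (e2.and e3))
  refine ⟨n1, fun n hn => ?_⟩
  obtain ⟨h1, h2, h3⟩ := hn1 n hn
  have hn0 : (0 : ℝ) < n := by exact_mod_cast (by omega : 0 < n)
  set m := n / (r + 1) with hm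
  have hm1 : m * (r + 1) ≤ n := Nat.div_mul_le_self _ _
  have hm2 : n < (m + 1) * (r + 1) := by
    have := Nat.lt_div_mul_add (a := n) (Nat.succ_pos r)
    rw [add_mul, one_mul]; exact this
  have hm3 : 2 * m ≤ n := by nlinarith
  have hm4 : m ≤ n - (r + 1) := by omega
  have hff := le_ff hm4
  simp only [Nat.add_sub_cancel] at hff
  have hd := Nat.pow_sub_le_descFactorial (n - m - (r + 1)) r
  have hm1' : (m : ℝ) * (r + 1) ≤ n := by exact_mod_cast hm1
  have hm2' : (n : ℝ) < (m + 1) * (r + 1) := by exact_mod_cast hm2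
  have hA : (1 / ((r : ℝ) + 1) - (n : ℝ)⁻¹) * n ≤ m := by
    have : (1 / ((r : ℝ) + 1) - (n : ℝ)⁻¹) * n = n / (r + 1) - 1 := by field_simp
    rw [this, sub_le_iff_le_add, div_le_iff₀ hL]
    exact hm2'.le
  have hB : ((r : ℝ) / (r + 1) - 2 * (r + 1) * (n : ℝ)⁻¹) * n ≤
      ((n - m - (r + 1) + 1 - r : ℕ) : ℝ) := by
    have e : ((r : ℝ) / (r + 1) - 2 * (r + 1) * (n : ℝ)⁻¹) * n =
        n - n / (r + 1) - 2 * (r + 1) := by field_simp; ring
    have hmle : (m : ℝ) ≤ n / (r + 1) := by rw [le_div_iff₀ hL]; exact hm1'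
    have hmge : (n : ℝ) / (r + 1) ≤ m + 1 := by rw [div_le_iff₀ hL]; exact hm2'.le
    have hnat : n ≤ (n - m - (r + 1) + 1 - r) + m + 2 * (r + 1) := by omega
    have hnat' : (n : ℝ) ≤ ((n - m - (r + 1) + 1 - r : ℕ) : ℝ) + m + 2 * (r + 1) := by
      exact_mod_cast hnat
    rw [e]; linarith
  have hB0 : 0 ≤ ((r : ℝ) / (r + 1) - 2 * (r + 1) * (n : ℝ)⁻¹) * n := by positivity
  have hC : (((r : ℝ) / (r + 1) - 2 * (r + 1) * (n : ℝ)⁻¹) * n) ^ r ≤
      ((n - m - (r + 1)).descFactorial r : ℝ) := by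
    refine le_trans (pow_le_pow_left₀ hB0 hB r) ?_
    exact_mod_cast hd
  have hff' : (m : ℝ) * r.factorial * ((n - m - (r + 1)).descFactorial r : ℝ) ≤
      (ff (r + 1) n : ℝ) := by exact_mod_cast hff
  have hfac : (0 : ℝ) < r.factorial := by exact_mod_cast r.factorial_pos
  calc θ * (n : ℝ) ^ (r + 1)
      ≤ 2 * ((r.factorial : ℝ) * (1 / ((r : ℝ) + 1) - (n : ℝ)⁻¹) *
        ((r : ℝ) / (r + 1) - 2 * (r + 1) * (n : ℝ)⁻¹) ^ r) * (n : ℝ) ^ (r + 1) :=
        mul_le_mul_of_nonneg_right h1.le (by positivity)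
    _ = 2 * (((1 / ((r : ℝ) + 1) - (n : ℝ)⁻¹) * n) * r.factorial *
        (((r : ℝ) / (r + 1) - 2 * (r + 1) * (n : ℝ)⁻¹) * n) ^ r) := by
        rw [mul_pow]; ring
    _ ≤ 2 * ((m : ℝ) * r.factorial * ((n - m - (r + 1)).descFactorial r : ℝ)) := by
        refine mul_le_mul_of_nonneg_left ?_ (by norm_num)
        refine mul_le_mul (mul_le_mul_of_nonneg_right hA hfac.le) hC (by positivity)
          (by positivity)
    _ ≤ 2 * (ff (r + 1) n : ℝ) := by linarith

lemma cc_pos {l : ℕ} (hl : 2 ≤ l) : 0 < cc l := by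
  unfold cc
  have h1 : (0 : ℝ) < ((l - 1).factorial : ℝ) := by exact_mod_cast (l - 1).factorial_pos
  have h2 : (0 : ℝ) < ((l - 1 : ℕ) : ℝ) := by exact_mod_cast (by omega : 0 < l - 1)
  have h3 : (0 : ℝ) < (l : ℝ) := by exact_mod_cast (by omega : 0 < l)
  positivity

/-- `ff a ≥ C a` for large `a` -/
lemma ff_superlinear {l : ℕ} (hl : 2 ≤ l) (C : ℕ) :
    ∃ a0 : ℕ, ∀ a, a0 ≤ a → C * a ≤ ff l a := by
  have hc := cc_pos hl
  obtain ⟨n1, hn1⟩ := ff_lower hl (θ := cc l) (by linarith)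
  obtain ⟨N, hN⟩ := exists_nat_ge (2 * (C : ℝ) / cc l)
  refine ⟨max (max n1 N) 1, fun a ha => ?_⟩
  have ha1 : 1 ≤ a := le_trans (le_max_right _ _) ha
  have haN : N ≤ a := le_trans (le_trans (le_max_right _ _) (le_max_left _ _)) ha
  have han : n1 ≤ a := le_trans (le_trans (le_max_left _ _) (le_max_left _ _)) ha
  have h1 := hn1 a han
  have ha1' : (1 : ℝ) ≤ a := by exact_mod_cast ha1
  have haN' : (N : ℝ) ≤ a := by exact_mod_cast haN
  have h2 : (a : ℝ) ^ 2 ≤ (a : ℝ) ^ l := pow_le_pow_right₀ ha1' hl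
  have h3 : 2 * (C : ℝ) ≤ cc l * a := by
    have := (div_le_iff₀ hc).1 (le_trans hN haN')
    linarith
  have h4 : (C : ℝ) * a ≤ ff l a := by nlinarith
  exact_mod_cast h4

lemma ff_strict {l : ℕ} (hl : 2 ≤ l) (C : ℕ) :
    ∃ a0 : ℕ, ∀ a b, a0 ≤ a → 1 ≤ b → ff l a + ff l b + C ≤ ff l (a + b) := by
  obtain ⟨a0, h0⟩ := ff_superlinear hl C
  refine ⟨max a0 l, fun a b ha hb => ?_⟩
  have hal : l ≤ a := le_trans (le_max_right _ _) ha
  obtain ⟨c, x, hx, e, h⟩ := ff_key (by omega : 1 ≤ l) hal hb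
  have h1 := h0 a (le_trans (le_max_left _ _) ha)
  have h2 := Nat.succ_descFactorial x (l - 1)
  have h3 : x.descFactorial (l - 1) ≤ (x + 1).descFactorial (l - 1) :=
    Nat.descFactorial_le _ (Nat.le_succ x)
  obtain ⟨d, hd⟩ := Nat.exists_eq_add_of_le h3
  have h4 : (x + 1) * x.descFactorial (l - 1) ≤ x * (x + 1).descFactorial (l - 1) := by
    rw [← h2]
    exact Nat.mul_le_mul_right _ (by omega)
  rw [hd] at h4 h
  have h5 : x.descFactorial (l - 1) ≤ x * d := by nlinarith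
  have h6 : C * a ≤ (c * d) * a := by
    calc C * a ≤ c * x.descFactorial (l - 1) := by rw [← e]; exact h1
      _ ≤ c * (x * d) := Nat.mul_le_mul_left _ h5
      _ ≤ c * (a * d) := Nat.mul_le_mul_left _ (Nat.mul_le_mul_right _ hx)
      _ = (c * d) * a := by ring
  have h7 : C ≤ c * d := Nat.le_of_mul_le_mul_right h6 (by omega)
  rw [e]
  rw [mul_add] at h
  omega

lemma pfree_comap {V W : Type} {G : SimpleGraph V} {N : ℕ} (hG : PFree G N) (φ : W → V)
    (hφ : Function.Injective φ) : PFree (G.comap φ) N := by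
  intro L hL hc
  have := hG (L.map φ) (hL.map hφ) (by rw [List.isChain_map]; exact hc)
  simpa using this

open Classical in
lemma paths_split {V : Type} [Fintype V] (G : SimpleGraph V) (N : ℕ) (Z : Finset V)
    (hZ : ∀ a ∈ Z, ∀ b, G.Adj a b → b ∈ Z) :
    (paths G N).card ≤ ((paths G N).filter fun f => ∀ i, f i ∈ Z).card +
      (paths (G.comap (Subtype.val : {v // v ∉ Z} → V)) N).card := by
  rw [← Finset.card_filter_add_card_filter_not (s := paths G N) (fun f => ∀ i, f i ∈ Z)]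
  refine Nat.add_le_add_left ?_ _
  refine le_trans (Finset.card_le_card ?_) (Finset.card_image_le
    (s := paths (G.comap (Subtype.val : {v // v ∉ Z} → V)) N)
    (f := fun g : Fin N → {v // v ∉ Z} => fun i => (g i).val))
  intro f hf
  rw [Finset.mem_filter, mem_paths] at hf
  obtain ⟨⟨hinj, hadj⟩, hn⟩ := hf
  have step : ∀ k (hk : k < N), f ⟨k, hk⟩ ∈ Z ↔ f ⟨0, by omega⟩ ∈ Z := by
    intro k
    induction k with
    | zero => intro hk; rfl
    | succ k ih =>
      intro hk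
      rw [← ih (by omega)]
      have ha := hadj ⟨k, by omega⟩ ⟨k + 1, hk⟩ rfl
      exact ⟨fun h => hZ _ h _ ha.symm, fun h => hZ _ h _ ha⟩
  have hall : ∀ i, f i ∉ Z := by
    intro i hi
    apply hn
    intro j
    exact (step j.val j.isLt).2 ((step i.val i.isLt).1 hi)
  rw [Finset.mem_image]
  refine ⟨fun i => ⟨f i, hall i⟩, ?_, rfl⟩
  rw [mem_paths]
  exact ⟨fun i j hij => hinj (congrArg Subtype.val hij), fun i j hij => hadj i j hij⟩

lemma paths_card_le {V : Type} [Fintype V] (G : SimpleGraph V) (N : ℕ) :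
    (paths G N).card ≤ Fintype.card V ^ N := by
  classical
  have := Finset.card_le_univ (paths G N)
  simpa using this

open Classical in
lemma card_compl_subtype {V : Type} [Fintype V] (Z : Finset V) :
    Z.card + Fintype.card {v // v ∉ Z} = Fintype.card V := by
  have h := Fintype.card_subtype_compl (fun v => v ∈ Z)
  have h2 : Fintype.card {v // v ∈ Z} = Z.card := by simp
  have h3 : Z.card ≤ Fintype.card V := Finset.card_le_univ Z
  have h4 : Fintype.card {v // v ∉ Z} = Fintype.card V - Fintype.card {v // v ∈ Z} := by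
    convert h
  omega

theorem upper_of (l : ℕ) (h : 4 ≤ l) : HardHalf l → TaskE3 l → Upper l := by
  classical
  rintro ⟨θ, hθ, hH⟩ ⟨M, hM⟩
  obtain ⟨n0, hn0⟩ := hH M
  obtain ⟨n1, hn1⟩ := ff_lower (by omega : 2 ≤ l) hθ
  have noK : ∀ (V : Type) [Fintype V] (G : SimpleGraph V), max n0 n1 ≤ Fintype.card V →
      PFree G (2 * l) → ¬ HasK G (l - 1) M →
      (paths G (2 * l)).card ≤ 2 * ff l (Fintype.card V) := by
    intro V _ G hV hG hK
    have h1 := hn0 V G (le_trans (le_max_left _ _) hV) hG hK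
    have h2 := hn1 _ (le_trans (le_max_right _ _) hV)
    exact_mod_cast le_trans h1 h2
  have withK : ∀ (V : Type) [Fintype V] (G : SimpleGraph V), PFree G (2 * l) →
      HasK G (l - 1) M → ∃ (z : ℕ) (W : Type) (_ : Fintype W) (H : SimpleGraph W), 1 ≤ z ∧
        z + Fintype.card W = Fintype.card V ∧ PFree H (2 * l) ∧
        (paths G (2 * l)).card ≤ 2 * ff l z + (paths H (2 * l)).card := by
    intro V _ G hG hK
    obtain ⟨Z, hne, hZ, hc⟩ := hM V G hG hK
    refine ⟨Z.card, {v // v ∉ Z}, inferInstance, G.comap Subtype.val, hne.card_pos,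
      card_compl_subtype Z, pfree_comap hG _ Subtype.val_injective, ?_⟩
    exact le_trans (paths_split G (2 * l) Z hZ) (Nat.add_le_add_right hc _)
  have rough : ∀ (n : ℕ) (V : Type) [Fintype V] (G : SimpleGraph V), Fintype.card V = n →
      PFree G (2 * l) → (paths G (2 * l)).card ≤ 2 * ff l n + (max n0 n1) ^ (2 * l) := by
    intro n
    induction n using Nat.strong_induction_on with
    | _ n ih =>
      intro V _ G hV hG
      by_cases hs : max n0 n1 ≤ Fintype.card V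
      · by_cases hK : HasK G (l - 1) M
        · obtain ⟨z, W, _, H, hz, hzW, hH, hle⟩ := withK V G hG hK
          have h1 := ih (Fintype.card W) (by omega) W H rfl hH
          have h2 := ff_superadd (by omega : 1 ≤ l) z (Fintype.card W)
          rw [hzW, hV] at h2
          omega
        · have := noK V G hs hG hK
          rw [hV] at this
          omega
      · have h1 := paths_card_le G (2 * l)
        have h2 : Fintype.card V ^ (2 * l) ≤ (max n0 n1) ^ (2 * l) :=
          Nat.pow_le_pow_left (by omega) _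
        omega
  obtain ⟨a0, ha0⟩ := ff_strict (by omega : 2 ≤ l) ((max n0 n1) ^ (2 * l))
  refine ⟨max (max n0 n1) (2 * a0), fun V _ G hV hG => ?_⟩
  by_cases hK : HasK G (l - 1) M
  · obtain ⟨z, W, _, H, hz, hzW, hH, hle⟩ := withK V G hG hK
    have hV2 : 2 * a0 ≤ Fintype.card V := le_trans (le_max_right _ _) hV
    rcases Nat.eq_zero_or_pos (Fintype.card W) with h0 | hpos
    · have h1 := paths_card_le H (2 * l)
      rw [h0, zero_pow (by omega)] at h1
      have h2 : z = Fintype.card V := by omega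
      rw [← h2]
      omega
    · have h1 := rough _ W H rfl hH
      by_cases hz0 : a0 ≤ z
      · have h2 := ha0 z (Fintype.card W) hz0 hpos
        rw [hzW] at h2
        omega
      · have h2 := ha0 (Fintype.card W) z (by omega) hz
        rw [add_comm (Fintype.card W) z, hzW] at h2
        omega
  · exact noK V G (le_trans (le_max_left _ _) hV) hG hK

end H345PK
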