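import Pool.Agent.H345Z.PK.H0

/-! Task GLUE: good paths inject into templates with assignments. -/

namespace H345PK

open Finset SimpleGraph

namespace Glue

variable {V : Type} {G : SimpleGraph V}

theorem pfree_fun {N K : ℕ} (h : PFree G N) {v : ℕ → V} (hi : Inj v K) (hc : Ch G.Adj v K) :
    K ≤ N := by
  have := h ((List.range K).map v) ?_ ?_
  · simpa using this
  · refine List.Nodup.map_on ?_ List.nodup_range
    intro a ha b hb hab
    exact hi a (List.mem_range.1 ha) b (List.mem_range.1 hb) hab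
  · rw [List.isChain_map]
    cases K with
    | zero => simp
    | succ K =>
      rw [List.isChain_range]
      intro m hm
      exact hc m (by omega)

theorem splice {N K : ℕ} (h : PFree G N) {v : ℕ → V} (hi : Inj v K) (hc : Ch G.Adj v K)
    (a b r : ℕ) (hab : a ≤ b) (hb : b ≤ K) (hr : 0 < r) (m : ℕ → V) (hmi : Inj m r)
    (hmc : Ch G.Adj m r) (hnew : ∀ i, i < r → ∀ k, k < K → (k < a ∨ b ≤ k) → m i ≠ v k)
    (hl : 0 < a → G.Adj (v (a - 1)) (m 0)) (hrt : b < K → G.Adj (m (r - 1)) (v b)) :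
    a + r + (K - b) ≤ N := by
  refine pfree_fun h (v := fun k => if k < a then v k else if k < a + r then m (k - a)
    else v (k - (a + r) + b)) ?_ ?_
  · intro k hk k' hk' e
    dsimp only at e
    split_ifs at e with h1 h2 h3 h4 h5 h6 h7 h8
    · exact hi k (by omega) k' (by omega) e
    · exact absurd e.symm (hnew _ (by omega) k (by omega) (by omega))
    · have := hi k (by omega) _ (by omega) e
      omega
    · exact absurd e (hnew _ (by omega) k' (by omega) (by omega))
    · have := hmi _ (by omega) _ (by omega) e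
      omega
    · exact absurd e (hnew _ (by omega) _ (by omega) (by omega))
    · have := hi _ (by omega) k' (by omega) e
      omega
    · exact absurd e.symm (hnew _ (by omega) _ (by omega) (by omega))
    · have := hi _ (by omega) _ (by omega) e
      omega
  · intro k hk
    dsimp only
    by_cases h1 : k + 1 < a
    · rw [if_pos (by omega), if_pos h1]
      exact hc k (by omega)
    by_cases h2 : k + 1 = a
    · rw [if_pos (by omega), if_neg h1, if_pos (by omega)]
      have := hl (by omega)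
      rw [show a - 1 = k by omega] at this
      rw [show k + 1 - a = 0 by omega]
      exact this
    by_cases h3 : k + 1 < a + r
    · rw [if_neg (by omega), if_pos (by omega), if_neg h1, if_pos h3,
        show k + 1 - a = k - a + 1 by omega]
      exact hmc _ (by omega)
    by_cases h4 : k + 1 = a + r
    · rw [if_neg (by omega), if_pos (by omega), if_neg h1, if_neg h3,
        show k - a = r - 1 by omega, show k + 1 - (a + r) + b = b by omega]
      exact hrt (by omega)
    · rw [if_neg (by omega), if_neg (by omega), if_neg h1, if_neg h3,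
        show k + 1 - (a + r) + b = k - (a + r) + b + 1 by omega]
      exact hc _ (by omega)

theorem splice2 {K : ℕ} (h : PFree G K) {v : ℕ → V} (hi : Inj v K) (hc : Ch G.Adj v K)
    (a : ℕ) (ha : a ≤ K) (x y : V) (hxy : G.Adj x y)
    (hx : ∀ k, k < K → x ≠ v k) (hy : ∀ k, k < K → y ≠ v k)
    (hl : 0 < a → G.Adj (v (a - 1)) x) (hrt : a < K → G.Adj y (v a)) : False := by
  have := splice h hi hc a a 2 le_rfl ha (by omega) (fun i => if i = 0 then x else y) ?_ ?_ ?_
    (by simpa using hl) (by simpa using hrt)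
  · omega
  · intro k hk k' hk' e
    have := hxy.ne
    interval_cases k <;> interval_cases k' <;> simp_all
  · intro k hk
    have : k = 0 := by omega
    subst this
    simpa using hxy
  · intro i hi' k hk _
    interval_cases i
    · simpa using hx k hk
    · simpa using hy k hk

theorem splice3 {K : ℕ} (h : PFree G K) {v : ℕ → V} (hi : Inj v K) (hc : Ch G.Adj v K)
    (a : ℕ) (ha : a + 2 ≤ K) (x y z : V) (hxy : G.Adj x y) (hyz : G.Adj y z) (hxz : x ≠ z)
    (hx : ∀ k, k < K → (k < a ∨ a + 2 ≤ k) → x ≠ v k)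
    (hy : ∀ k, k < K → (k < a ∨ a + 2 ≤ k) → y ≠ v k)
    (hz : ∀ k, k < K → (k < a ∨ a + 2 ≤ k) → z ≠ v k)
    (hl : 0 < a → G.Adj (v (a - 1)) x) (hrt : a + 2 < K → G.Adj z (v (a + 2))) : False := by
  have := splice h hi hc a (a + 2) 3 (by omega) ha (by omega)
    (fun i => if i = 0 then x else if i = 1 then y else z) ?_ ?_ ?_
    (by simpa using hl) (by simpa using hrt)
  · omega
  · intro k hk k' hk' e
    have := hxy.ne
    have := hyz.ne
    interval_cases k <;> interval_cases k' <;> simp_all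
  · intro k hk
    have : k < 2 := by omega
    interval_cases k
    · simpa using hxy
    · simpa using hyz
  · intro i hi' k hk hk'
    interval_cases i
    · simpa using hx k hk hk'
    · simpa using hy k hk hk'
    · simpa using hz k hk hk'

theorem splice4 {K : ℕ} (h : PFree G K) {v : ℕ → V} (hi : Inj v K) (hc : Ch G.Adj v K)
    (a : ℕ) (ha : a + 2 ≤ K) (x y z u : V) (hxy : G.Adj x y) (hyz : G.Adj y z) (hzu : G.Adj z u)
    (hxz : x ≠ z) (hxu : x ≠ u) (hyu : y ≠ u)
    (hx : ∀ k, k < K → (k < a ∨ a + 2 ≤ k) → x ≠ v k)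
    (hy : ∀ k, k < K → (k < a ∨ a + 2 ≤ k) → y ≠ v k)
    (hz : ∀ k, k < K → (k < a ∨ a + 2 ≤ k) → z ≠ v k)
    (hu : ∀ k, k < K → (k < a ∨ a + 2 ≤ k) → u ≠ v k)
    (hl : 0 < a → G.Adj (v (a - 1)) x) (hrt : a + 2 < K → G.Adj u (v (a + 2))) : False := by
  have := splice h hi hc a (a + 2) 4 (by omega) ha (by omega)
    (fun i => if i = 0 then x else if i = 1 then y else if i = 2 then z else u) ?_ ?_ ?_
    (by simpa using hl) (by simpa using hrt)
  · omega
  · intro k hk k' hk' e
    have := hxy.ne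
    have := hyz.ne
    have := hzu.ne
    interval_cases k <;> interval_cases k' <;> simp_all
  · intro k hk
    have : k < 3 := by omega
    interval_cases k
    · simpa using hxy
    · simpa using hyz
    · simpa using hzu
  · intro i hi' k hk hk'
    interval_cases i
    · simpa using hx k hk hk'
    · simpa using hy k hk hk'
    · simpa using hz k hk hk'
    · simpa using hu k hk hk'

/-- good paths as sequences -/
structure GP (G : SimpleGraph V) (L : Finset V) (M l : ℕ) (v : ℕ → V) : Prop where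
  pos : 0 < l
  inj : Inj v (2 * l)
  ch : Ch G.Adj v (2 * l)
  lg : ∀ i, i < 2 * l → v i ∉ L → (ctx G L M).Lg ((ctx G L M).T (v i))
  e0 : v 0 ∉ L
  e1 : v (2 * (l - 1) + 1) ∉ L
  ev : ∀ t, t < l → ¬ (v (2 * t) ∈ L ∧ v (2 * t + 1) ∈ L)
  od : ∀ t, t + 1 < l → v (2 * t + 1) ∈ L ∨ v (2 * t + 2) ∈ L
  rp : ∀ t, t < l → v (2 * t) ∉ L → v (2 * t + 1) ∉ L →
    (ctx G L M).RP ((ctx G L M).T (v (2 * t))) ((ctx G L M).T (v (2 * t + 1)))

/-- the special block -/
noncomputable def jj (L : Finset V) (v : ℕ → V) : ℕ := sInf {t | v (2 * t + 1) ∉ L}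

/-- the second vertex of block `j` cannot be exchanged -/
def UU (G : SimpleGraph V) (l j : ℕ) (v : ℕ → V) : Prop :=
  ∀ x, (∀ k, k < 2 * l → k ≠ 2 * j + 1 → x ≠ v k) → G.Adj (v (2 * j)) x →
    (2 * j + 2 < 2 * l → G.Adj x (v (2 * j + 2))) → x = v (2 * j + 1)

open Classical in
/-- the template -/
noncomputable def ww (L : Finset V) (v : ℕ → V) (t : ℕ) : Option V :=
  if t < jj L v then some (v (2 * t + 1)) else if t = jj L v ∧ v (2 * t) ∉ L then none
  else some (v (2 * t))

open Classical in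
/-- the position of the free vertex -/
noncomputable def si (G : SimpleGraph V) (L : Finset V) (l : ℕ) (v : ℕ → V) (t : ℕ) : ℕ :=
  if t < jj L v then 2 * t else if t = jj L v ∧ v (2 * t) ∉ L ∧ UU G l t v then 2 * t
  else 2 * t + 1

variable {L : Finset V} {M l : ℕ} {v : ℕ → V}

theorem memT {u y : V} : y ∈ (ctx G L M).T u ↔ y ∈ L ∧ G.Adj u y := by
  simp [ctx]

theorem rp_symm {T T' : Finset V} (h : (ctx G L M).RP T T') : (ctx G L M).RP T' T := by
  intro Z hZ
  obtain ⟨u, u', h1, h2, h3, h4, h5, h6, h7⟩ := h Z hZ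
  exact ⟨u', u, h2, h1, h4, h3, h5.symm, h7, h6⟩

theorem GP.jlt (h : GP G L M l v) : jj L v < l := by
  have : jj L v ≤ l - 1 := Nat.sInf_le h.e1
  have := h.pos
  omega

theorem GP.jmem (h : GP G L M l v) : v (2 * jj L v + 1) ∉ L :=
  Nat.sInf_mem (s := {t | v (2 * t + 1) ∉ L}) ⟨_, h.e1⟩

theorem jlow {t : ℕ} (ht : t < jj L v) : v (2 * t + 1) ∈ L := by
  by_contra hc
  exact Nat.notMem_of_lt_sInf ht hc

theorem GP.low (h : GP G L M l v) {t : ℕ} (ht : t < jj L v) : v (2 * t) ∉ L := fun hc =>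
  h.ev t (ht.trans h.jlt) ⟨hc, jlow ht⟩

theorem GP.high (h : GP G L M l v) {t : ℕ} (ht : jj L v ≤ t) (hl : t < l) :
    v (2 * t + 1) ∉ L := by
  induction t, ht using Nat.le_induction with
  | base => exact h.jmem
  | succ t ht ih =>
    intro hc
    rcases h.od t hl with h1 | h1
    · exact ih (by omega) h1
    · exact h.ev (t + 1) hl ⟨h1, hc⟩

theorem GP.high' (h : GP G L M l v) {t : ℕ} (ht : jj L v ≤ t) (hl : t + 1 < l) :
    v (2 * t + 2) ∈ L :=
  (h.od t hl).resolve_left (h.high ht (by omega))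

theorem si_cases (t : ℕ) : (si G L l v t = 2 * t ∧ t ≤ jj L v ∧ (t = jj L v → v (2 * t) ∉ L)) ∨
    (si G L l v t = 2 * t + 1 ∧ jj L v ≤ t) := by
  unfold si
  split_ifs with h1 h2
  · exact Or.inl ⟨rfl, h1.le, fun h => by omega⟩
  · exact Or.inl ⟨rfl, h2.1.le, fun _ => h2.2.1⟩
  · exact Or.inr ⟨rfl, by omega⟩

theorem GP.si_notMem (h : GP G L M l v) {t : ℕ} (ht : t < l) : v (si G L l v t) ∉ L := by
  rcases si_cases (G := G) (L := L) (l := l) (v := v) t with ⟨e, h1, h2⟩ | ⟨e, h1⟩
  · rw [e]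
    rcases h1.eq_or_lt with h3 | h3
    · exact h2 h3
    · exact h.low h3
  · rw [e]
    exact h.high h1 ht

theorem ww_lt {t : ℕ} (ht : t < jj L v) : ww L v t = some (v (2 * t + 1)) := if_pos ht

theorem ww_gt {t : ℕ} (ht : jj L v < t) : ww L v t = some (v (2 * t)) := by
  unfold ww
  rw [if_neg (by omega), if_neg (fun h => by omega)]

theorem ww_mem {t : ℕ} (ht : jj L v ≤ t) (hm : v (2 * t) ∈ L) :
    ww L v t = some (v (2 * t)) := by
  unfold ww
  rw [if_neg (by omega), if_neg (fun h => h.2 hm)]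

theorem ww_none {t : ℕ} (ht : t = jj L v) (hm : v (2 * t) ∉ L) : ww L v t = none := by
  unfold ww
  rw [if_neg (by omega), if_pos ⟨ht, hm⟩]

theorem ww_cases (t : ℕ) : (t < jj L v ∧ ww L v t = some (v (2 * t + 1))) ∨
    (t = jj L v ∧ v (2 * t) ∉ L ∧ ww L v t = none) ∨
    (jj L v ≤ t ∧ (t = jj L v → v (2 * t) ∈ L) ∧ ww L v t = some (v (2 * t))) := by
  rcases lt_trichotomy t (jj L v) with h | h | h
  · exact Or.inl ⟨h, ww_lt h⟩
  · by_cases hm : v (2 * t) ∈ L
    · exact Or.inr (Or.inr ⟨h.ge, fun _ => hm, ww_mem h.ge hm⟩)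
    · exact Or.inr (Or.inl ⟨h, hm, ww_none h hm⟩)
  · exact Or.inr (Or.inr ⟨h.le, fun h' => by omega, ww_gt h⟩)

theorem si_lt {t : ℕ} (ht : t < jj L v) : si G L l v t = 2 * t := if_pos ht

theorem si_ge {t : ℕ} (ht : jj L v ≤ t) (hm : t = jj L v → v (2 * t) ∈ L) :
    si G L l v t = 2 * t + 1 := by
  unfold si
  rw [if_neg (by omega), if_neg (fun h => h.2.1 (hm h.1))]

theorem mem_some {y : V} {T : Finset V} (h : y ∈ T) : mem (some y) T := by
  intro z hz
  cases hz
  exact h

theorem mem_none {T : Finset V} : mem (none : Option V) T := by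
  intro z hz
  cases hz

theorem exo_ww (k : ℕ) :
    exo (fun t : Fin l => ww L v t.val) k = if k < l then ww L v k else none := by
  unfold exo
  split_ifs <;> rfl

theorem GP.mem_pre (h : GP G L M l v) {t : ℕ} (ht : t ≤ jj L v) :
    mem (pre (exo fun t : Fin l => ww L v t.val) t) ((ctx G L M).T (v (2 * t))) := by
  have := h.jlt
  unfold pre
  split_ifs with h0
  · exact mem_none
  · rw [exo_ww, if_pos (by omega), ww_lt (by omega)]
    refine mem_some (memT.2 ⟨jlow (by omega), ?_⟩)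
    have := h.ch (2 * (t - 1) + 1) (by omega)
    rw [show 2 * (t - 1) + 1 + 1 = 2 * t by omega] at this
    exact this.symm

theorem GP.mem_post (h : GP G L M l v) {t : ℕ} (ht : jj L v ≤ t) :
    mem (exo (fun t : Fin l => ww L v t.val) (t + 1)) ((ctx G L M).T (v (2 * t + 1))) := by
  rw [exo_ww]
  split_ifs with h0
  · rw [ww_gt (by omega)]
    exact mem_some (memT.2 ⟨h.high' ht h0, h.ch (2 * t + 1) (by omega)⟩)
  · exact mem_none

theorem GP.sub (h : GP G L M l v) (hM : 2 * l + 4 ≤ M) (hf : PFree G (2 * l)) {t : ℕ}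
    (ht : t < l) {y : V} (hy : y ∈ (ctx G L M).T (v (si G L l v t))) :
    ∃ t', t' < l ∧ ww L v t' = some y := by
  classical
  have hj := h.jlt
  obtain ⟨hyL, hadj⟩ := memT.1 hy
  by_cases hon : ∃ k, k < 2 * l ∧ y = v k
  · obtain ⟨k, hk, rfl⟩ := hon
    refine ⟨k / 2, by omega, ?_⟩
    rcases Nat.even_or_odd' k with ⟨s, rfl | rfl⟩
    · rw [show 2 * s / 2 = s by omega]
      refine ww_mem ?_ hyL
      by_contra hc
      exact h.low (by omega) hyL
    · rw [show (2 * s + 1) / 2 = s by omega]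
      refine ww_lt ?_
      by_contra hc
      exact h.high (by omega) (by omega) hyL
  exfalso
  have hyn : ∀ k, k < 2 * l → y ≠ v k := fun k hk e => hon ⟨k, hk, e⟩
  have hsi : si G L l v t < 2 * l := by
    rcases si_cases (G := G) (L := L) (l := l) (v := v) t with ⟨e, -⟩ | ⟨e, -⟩ <;> omega
  obtain ⟨u, -, huZ, huT⟩ := h.lg _ hsi (h.si_notMem ht) ((range (2 * l)).image v)
    (card_image_le.trans (by rw [card_range]; omega))
  have hun : ∀ k, k < 2 * l → u ≠ v k := fun k hk e =>
    huZ (mem_image.2 ⟨k, mem_range.2 hk, e.symm⟩)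
  have key : ∀ z, z ∈ L → G.Adj (v (si G L l v t)) z → G.Adj u z := by
    intro z hz hz'
    have : z ∈ (ctx G L M).T u := by
      have e : (ctx G L M).T u = (ctx G L M).T (v (si G L l v t)) := huT
      rw [e]
      exact memT.2 ⟨hz, hz'⟩
    exact (memT.1 this).2
  rcases si_cases (G := G) (L := L) (l := l) (v := v) t with ⟨e, h1, -⟩ | ⟨e, h1⟩
  · rw [e] at key hadj
    refine splice2 hf h.inj h.ch (2 * t) (by omega) u y (key y hyL hadj) hun hyn ?_
      (fun _ => hadj.symm)
    intro h0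
    refine (key _ ?_ ?_).symm
    · rw [show 2 * t - 1 = 2 * (t - 1) + 1 by omega]
      exact jlow (by omega)
    · have := h.ch (2 * t - 1) (by omega)
      rw [show 2 * t - 1 + 1 = 2 * t by omega] at this
      exact this.symm
  · rw [e] at key hadj
    refine splice2 hf h.inj h.ch (2 * t + 2) (by omega) y u (key y hyL hadj).symm hyn hun
      (fun _ => hadj) ?_
    intro h0
    exact key _ (h.high' h1 (by omega)) (h.ch (2 * t + 1) h0)

theorem GP.valid (h : GP G L M l v) (hM : 2 * l + 4 ≤ M) (hf : PFree G (2 * l)) :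
    Valid (ctx G L M) (⟨jj L v, h.jlt⟩ : Fin l) (fun t => ww L v t.val)
      (fun t => v (si G L l v t.val)) := by
  have hj := h.jlt
  refine ⟨?_, ?_, ?_, ?_, ?_, ?_, ?_⟩
  · intro a b e
    have ha := a.isLt
    have hb := b.isLt
    apply Fin.ext
    dsimp only at e
    rcases ww_cases (L := L) (v := v) a.val with ⟨a1, a2⟩ | ⟨a1, -, a2⟩ | ⟨a1, -, a2⟩ <;>
    rcases ww_cases (L := L) (v := v) b.val with ⟨b1, b2⟩ | ⟨b1, -, b2⟩ | ⟨b1, -, b2⟩ <;>
    rw [a2, b2] at e <;>
    first
      | omega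
      | (have := h.inj _ (by omega) _ (by omega) (Option.some.inj e); omega)
      | cases e
  · intro a b e
    have ha := a.isLt
    have hb := b.isLt
    apply Fin.ext
    dsimp only at e
    rcases si_cases (G := G) (L := L) (l := l) (v := v) a.val with ⟨a1, -⟩ | ⟨a1, -⟩ <;>
    rcases si_cases (G := G) (L := L) (l := l) (v := v) b.val with ⟨b1, -⟩ | ⟨b1, -⟩ <;>
    rw [a1, b1] at e <;>
    (have := h.inj _ (by omega) _ (by omega) e; omega)
  · intro t ht
    rcases ww_cases (L := L) (v := v) t.val with ⟨-, a2⟩ | ⟨a1, -, -⟩ | ⟨-, -, a2⟩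
    · simp [a2]
    · exact absurd (Fin.ext a1) ht
    · simp [a2]
  · intro t ht
    have htl := t.isLt
    have hsi : si G L l v t < 2 * l := by
      rcases si_cases (G := G) (L := L) (l := l) (v := v) t.val with ⟨e, -⟩ | ⟨e, -⟩ <;> omega
    refine ⟨h.lg _ hsi (h.si_notMem htl), ?_⟩
    rcases ww_cases (L := L) (v := v) t.val with ⟨a1, a2⟩ | ⟨-, -, a2⟩ | ⟨a1, a3, a2⟩
    · rw [a2, si_lt a1]
      refine ⟨mem_some (memT.2 ⟨jlow a1, h.ch _ (by omega)⟩), ?_⟩
      unfold nb
      rw [if_pos a1]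
      exact h.mem_pre a1.le
    · exact absurd a2 ht
    · rw [a2, si_ge a1 a3]
      refine ⟨mem_some (memT.2 ⟨?_, (h.ch _ (by omega)).symm⟩), ?_⟩
      · rcases a1.eq_or_lt with a4 | a4
        · exact a3 a4.symm
        · have := h.high' (t := t.val - 1) (by omega) (by omega)
          rwa [show 2 * (t.val - 1) + 2 = 2 * t.val by omega] at this
      · unfold nb
        rw [if_neg (by simpa using a1)]
        exact h.mem_post a1
  · intro t y hy
    obtain ⟨t', h1, h2⟩ := h.sub hM hf t.isLt hy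
    exact ⟨⟨t', h1⟩, h2⟩
  · intro hw
    by_contra hc
    have h0 : jj L v = 0 := by simpa using hc
    apply hw
    refine ww_none rfl ?_
    show v (2 * jj L v) ∉ L
    rw [h0]
    exact h.e0
  · intro hw
    have hm : v (2 * jj L v) ∉ L := by
      intro hm
      have := ww_mem (L := L) (v := v) le_rfl hm
      rw [show ww L v (jj L v) = none from hw] at this
      cases this
    have hrp := h.rp _ hj hm h.jmem
    refine ⟨?_, _, _, hrp, h.mem_pre le_rfl, h.mem_post le_rfl⟩
    intro y hy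
    rcases si_cases (G := G) (L := L) (l := l) (v := v) (jj L v) with ⟨e, -⟩ | ⟨e, -⟩
    · exact ⟨_, _, hrp, by rw [← e]; exact hy⟩
    · exact ⟨_, _, rp_symm hrp, by rw [← e]; exact hy⟩

/-- two paths that agree outside block `j`, first vertex against second vertex -/
theorem mixed (hf : PFree G (2 * l)) {v v' : ℕ → V} (hi : Inj v (2 * l)) (hc : Ch G.Adj v (2 * l))
    (hi' : Inj v' (2 * l)) (hc' : Ch G.Adj v' (2 * l)) {j : ℕ} (hj : j < l)
    (ag : ∀ k, k < 2 * l → (k < 2 * j ∨ 2 * j + 2 ≤ k) → v k = v' k)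
    (hU : ¬ UU G l j v') (e : v (2 * j) = v' (2 * j + 1)) : False := by
  have nw : ∀ i, (i = 2 * j ∨ i = 2 * j + 1) → ∀ k, k < 2 * l → (k < 2 * j ∨ 2 * j + 2 ≤ k) →
      v i ≠ v k := fun i h1 k hk h2 e => by
    have := hi i (by omega) k hk e
    omega
  have nw' : ∀ i, (i = 2 * j ∨ i = 2 * j + 1) → ∀ k, k < 2 * l → (k < 2 * j ∨ 2 * j + 2 ≤ k) →
      v' i ≠ v k := fun i h1 k hk h2 e => by
    rw [ag k hk h2] at e
    have := hi' i (by omega) k hk e
    omega
  have lf : 0 < 2 * j → G.Adj (v (2 * j - 1)) (v (2 * j)) := fun h0 => by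
    have := hc (2 * j - 1) (by omega)
    rwa [show 2 * j - 1 + 1 = 2 * j by omega] at this
  have lf' : 0 < 2 * j → G.Adj (v (2 * j - 1)) (v' (2 * j)) := fun h0 => by
    have := hc' (2 * j - 1) (by omega)
    rwa [show 2 * j - 1 + 1 = 2 * j by omega, ← ag _ (by omega) (by omega)] at this
  have a1 := hc (2 * j) (by omega)
  have a2 := hc' (2 * j) (by omega)
  by_cases hq : v' (2 * j) = v (2 * j + 1)
  · unfold UU at hU
    push Not at hU
    obtain ⟨x, x1, x2, x3, x4⟩ := hU
    refine splice3 hf hi hc (2 * j) (by omega) (v (2 * j)) (v' (2 * j)) x (by rw [hq]; exact a1)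
      x2 (by rw [e]; exact x4.symm) (nw _ (Or.inl rfl)) (nw' _ (Or.inl rfl)) ?_ lf ?_
    · intro k hk h2
      rw [ag k hk h2]
      exact x1 k hk (by omega)
    · intro h0
      rw [ag _ h0 (by omega)]
      exact x3 h0
  · exact splice3 hf hi hc (2 * j) (by omega) (v' (2 * j)) (v (2 * j)) (v (2 * j + 1))
      (by rw [e]; exact a2) a1 hq (nw' _ (Or.inl rfl)) (nw _ (Or.inl rfl)) (nw _ (Or.inr rfl))
      lf' (fun h0 => hc _ h0)

/-- two paths that agree outside position `2 j` -/
theorem second (hf : PFree G (2 * l)) {v v' : ℕ → V} (hi : Inj v (2 * l))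
    (hc : Ch G.Adj v (2 * l))
    (hi' : Inj v' (2 * l)) (hc' : Ch G.Adj v' (2 * l)) {j : ℕ} (hj : j < l)
    (ag : ∀ k, k < 2 * l → (k < 2 * j ∨ 2 * j + 2 ≤ k) → v k = v' k)
    (hU : ¬ UU G l j v) (e : v (2 * j + 1) = v' (2 * j + 1)) : v (2 * j) = v' (2 * j) := by
  by_contra hne
  have nw : ∀ i, (i = 2 * j ∨ i = 2 * j + 1) → ∀ k, k < 2 * l → (k < 2 * j ∨ 2 * j + 2 ≤ k) →
      v i ≠ v k := fun i h1 k hk h2 e => by
    have := hi i (by omega) k hk e
    omega
  have nw' : ∀ i, (i = 2 * j ∨ i = 2 * j + 1) → ∀ k, k < 2 * l → (k < 2 * j ∨ 2 * j + 2 ≤ k) →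
      v' i ≠ v k := fun i h1 k hk h2 e => by
    rw [ag k hk h2] at e
    have := hi' i (by omega) k hk e
    omega
  have lf : 0 < 2 * j → G.Adj (v (2 * j - 1)) (v (2 * j)) := fun h0 => by
    have := hc (2 * j - 1) (by omega)
    rwa [show 2 * j - 1 + 1 = 2 * j by omega] at this
  have lf' : 0 < 2 * j → G.Adj (v (2 * j - 1)) (v' (2 * j)) := fun h0 => by
    have := hc' (2 * j - 1) (by omega)
    rwa [show 2 * j - 1 + 1 = 2 * j by omega, ← ag _ (by omega) (by omega)] at this
  have a1 := hc (2 * j) (by omega)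
  have a2 := hc' (2 * j) (by omega)
  rw [← e] at a2
  unfold UU at hU
  push Not at hU
  obtain ⟨x, x1, x2, x3, x4⟩ := hU
  by_cases hq : v' (2 * j) = x
  · exact splice3 hf hi hc (2 * j) (by omega) (v (2 * j)) (v' (2 * j)) (v (2 * j + 1))
      (by rw [hq]; exact x2) a2 a1.ne (nw _ (Or.inl rfl)) (nw' _ (Or.inl rfl))
      (nw _ (Or.inr rfl)) lf (fun h0 => hc _ h0)
  · exact splice4 hf hi hc (2 * j) (by omega) (v' (2 * j)) (v (2 * j + 1)) (v (2 * j)) x
      a2 a1.symm x2 (fun h => hne h.symm) hq x4.symm (nw' _ (Or.inl rfl)) (nw _ (Or.inr rfl))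
      (nw _ (Or.inl rfl)) (fun k hk h2 => x1 k hk (by omega)) lf' x3

theorem GP.eq_of (hf : PFree G (2 * l)) {v v' : ℕ → V} (h : GP G L M l v) (h' : GP G L M l v')
    (ej : jj L v = jj L v') (ew : ∀ t, t < l → ww L v t = ww L v' t)
    (es : ∀ t, t < l → v (si G L l v t) = v' (si G L l v' t)) :
    ∀ k, k < 2 * l → v k = v' k := by
  have hj := h.jlt
  have blk : ∀ t, t < l → (t = jj L v → v (2 * t) ∈ L) →
      v (2 * t) = v' (2 * t) ∧ v (2 * t + 1) = v' (2 * t + 1) := by
    intro t ht hm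
    have e1 := ew t ht
    have e2 := es t ht
    by_cases h1 : t < jj L v
    · rw [ww_lt h1, ww_lt (ej ▸ h1)] at e1
      rw [si_lt h1, si_lt (ej ▸ h1)] at e2
      exact ⟨e2, Option.some.inj e1⟩
    · have hm' : t = jj L v' → v' (2 * t) ∈ L := by
        intro h2
        by_contra h3
        rw [ww_none h2 h3, ww_mem (by omega) (hm (by omega))] at e1
        cases e1
      rw [si_ge (by omega) hm, si_ge (by omega) hm'] at e2
      refine ⟨?_, e2⟩
      rcases ww_cases (L := L) (v := v) t with ⟨a1, -⟩ | ⟨a1, a2, -⟩ | ⟨-, -, a2⟩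
      · omega
      · exact absurd (hm a1) a2
      rcases ww_cases (L := L) (v := v') t with ⟨b1, -⟩ | ⟨b1, b2, -⟩ | ⟨-, -, b2⟩
      · omega
      · exact absurd (hm' b1) b2
      rw [a2, b2] at e1
      exact Option.some.inj e1
  have ag : ∀ k, k < 2 * l → (k < 2 * jj L v ∨ 2 * jj L v + 2 ≤ k) → v k = v' k := by
    intro k hk h2
    rcases Nat.even_or_odd' k with ⟨s, rfl | rfl⟩
    · exact (blk s (by omega) (fun h => by omega)).1
    · exact (blk s (by omega) (fun h => by omega)).2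
  have bj : v (2 * jj L v) = v' (2 * jj L v) ∧ v (2 * jj L v + 1) = v' (2 * jj L v + 1) := by
    by_cases hm : v (2 * jj L v) ∈ L
    · exact blk _ hj fun _ => hm
    have hm' : v' (2 * jj L v) ∉ L := by
      intro h3
      have e1 := ew _ hj
      rw [ww_none rfl hm, ww_mem ej.ge h3] at e1
      cases e1
    have e2 := es _ hj
    unfold si at e2
    rw [if_neg (lt_irrefl _), if_neg (show ¬ jj L v < jj L v' by omega)] at e2
    by_cases u1 : UU G l (jj L v) v <;> by_cases u2 : UU G l (jj L v) v'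
    · rw [if_pos ⟨rfl, hm, u1⟩, if_pos ⟨ej, hm', u2⟩] at e2
      refine ⟨e2, (u1 _ ?_ ?_ ?_).symm⟩
      · intro k hk hk' e
        have : v k = v' k := by
          by_cases h4 : k = 2 * jj L v
          · rw [h4]; exact e2
          · exact ag k hk (by omega)
        rw [this] at e
        exact hk' (h'.inj _ (by omega) _ hk e).symm
      · rw [e2]
        exact h'.ch _ (by omega)
      · intro h0
        rw [ag _ h0 (by omega)]
        exact h'.ch _ h0
    · rw [if_pos ⟨rfl, hm, u1⟩, if_neg (fun h => u2 h.2.2)] at e2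
      exact (mixed hf h.inj h.ch h'.inj h'.ch hj ag u2 e2).elim
    · rw [if_neg (fun h => u1 h.2.2), if_pos ⟨ej, hm', u2⟩] at e2
      exact (mixed hf h'.inj h'.ch h.inj h.ch hj (fun k hk h2 => (ag k hk h2).symm) u1
        e2.symm).elim
    · rw [if_neg (fun h => u1 h.2.2), if_neg (fun h => u2 h.2.2)] at e2
      exact ⟨second hf h.inj h.ch h'.inj h'.ch hj ag u1 e2, e2⟩
  intro k hk
  by_cases h1 : k = 2 * jj L v
  · rw [h1]; exact bj.1
  by_cases h2 : k = 2 * jj L v + 1
  · rw [h2]; exact bj.2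
  exact ag k hk (by omega)

/-- a path as a sequence -/
def ext (hl : 0 < l) (f : Fin (2 * l) → V) (k : ℕ) : V :=
  if h : k < 2 * l then f ⟨k, h⟩ else f ⟨0, by omega⟩

theorem ext_lt (hl : 0 < l) (f : Fin (2 * l) → V) {k : ℕ} (h : k < 2 * l) :
    ext hl f k = f ⟨k, h⟩ := dif_pos h

theorem gp_ext [Fintype V] (hl : 0 < l) {f : Fin (2 * l) → V} (hp : f ∈ paths G (2 * l))
    (hg : Good G L M f) : GP G L M l (ext hl f) := by
  simp only [paths, mem_filter, mem_univ, true_and] at hp
  refine ⟨hl, ?_, ?_, ?_, ?_, ?_, ?_, ?_, ?_⟩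
  · intro k hk k' hk' e
    rw [ext_lt hl f hk, ext_lt hl f hk'] at e
    exact congrArg Fin.val (hp.1 e)
  · intro k hk
    rw [ext_lt hl f hk, ext_lt hl f (show k < 2 * l by omega)]
    exact hp.2 _ _ rfl
  · intro i hi
    rw [ext_lt hl f hi]
    exact hg.lg _
  · rw [ext_lt hl f (show 0 < 2 * l by omega)]
    exact hg.ends _ (Or.inl rfl)
  · rw [ext_lt hl f (show 2 * (l - 1) + 1 < 2 * l by omega)]
    exact hg.ends _ (Or.inr (by simp only; omega))
  · intro t ht
    rw [ext_lt hl f (show 2 * t < 2 * l by omega), ext_lt hl f (show 2 * t + 1 < 2 * l by omega)]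
    exact hg.ev _ _ rfl (by simp only; omega)
  · intro t ht
    rw [ext_lt hl f (show 2 * t + 1 < 2 * l by omega),
      ext_lt hl f (show 2 * t + 2 < 2 * l by omega)]
    exact hg.od _ _ rfl (by simp only; omega)
  · intro t ht
    rw [ext_lt hl f (show 2 * t < 2 * l by omega), ext_lt hl f (show 2 * t + 1 < 2 * l by omega)]
    exact hg.rp _ _ rfl (by simp only; omega)

end Glue

open Glue in
theorem taskGlue (l : ℕ) (h : 4 ≤ l) : TaskGlue l := by
  classical
  intro V _ G L M hM hf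
  have hl : 0 < l := by omega
  refine card_le_card_of_injOn (fun f => (⟨min (jj L (ext hl f)) (l - 1), by omega⟩,
    fun t => ww L (ext hl f) t.val, fun t => ext hl f (si G L l (ext hl f) t.val))) ?_ ?_
  · intro f hf'
    obtain ⟨hp, hg⟩ := mem_filter.1 (mem_coe.1 hf')
    have gp := gp_ext hl hp hg
    have := gp.valid hM hf
    have hj := gp.jlt
    simp only [trips, coe_filter, mem_univ, true_and, Set.mem_setOf_eq]
    have e : (⟨min (jj L (ext hl f)) (l - 1), by omega⟩ : Fin l) = ⟨jj L (ext hl f), hj⟩ :=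
      Fin.ext (by simp only; omega)
    rw [e]
    exact this
  · intro f hf1 f' hf2 e
    obtain ⟨hp, hg⟩ := mem_filter.1 (mem_coe.1 hf1)
    obtain ⟨hp', hg'⟩ := mem_filter.1 (mem_coe.1 hf2)
    have gp := gp_ext hl hp hg
    have gp' := gp_ext hl hp' hg'
    have hj := gp.jlt
    have hj' := gp'.jlt
    simp only [Prod.mk.injEq, Fin.mk.injEq] at e
    obtain ⟨e1, e2, e3⟩ := e
    have := GP.eq_of hf gp gp' (by omega) (fun t ht => congrFun e2 ⟨t, ht⟩)
      (fun t ht => congrFun e3 ⟨t, ht⟩)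
    funext i
    have h2 := this i.val i.isLt
    rwa [ext_lt hl f i.isLt, ext_lt hl f' i.isLt] at h2

end H345PK
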