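import Pool.Agent.H345Z.PK.Iface

/-! Definitions for the hard half of MP_490135_co. -/

namespace H345PK

open Finset SimpleGraph

/-- abstract data: class `T u` of a vertex, large classes, robust pairs of classes -/
structure Ctx (V : Type) where
  T : V → Finset V
  Lg : Finset V → Prop
  RP : Finset V → Finset V → Prop

variable {V : Type}

/-- `none` is in every set -/
def mem (o : Option V) (T : Finset V) : Prop := ∀ y, o = some y → y ∈ T

namespace Ctx
variable (c : Ctx V)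

def Gam (y y' : V) : Prop := y ≠ y' ∧ ∃ T, c.Lg T ∧ y ∈ T ∧ y' ∈ T
def InLg (y : V) : Prop := ∃ T, c.Lg T ∧ y ∈ T
def PP (y : V) : Prop := ∃ T T', c.RP T T' ∧ y ∈ T

/-- the graph `Gam` with one extra vertex `none` adjacent to the vertices satisfying `Q` -/
def Ro (Q : V → Prop) : Option V → Option V → Prop
  | some y, some y' => c.Gam y y'
  | none, some y => Q y
  | some y, none => Q y
  | none, none => False

end Ctx

def Inj {W : Type} (q : ℕ → W) (N : ℕ) : Prop := ∀ k, k < N → ∀ k', k' < N → q k = q k' → k = k'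
def Ch {W : Type} (R : W → W → Prop) (q : ℕ → W) (N : ℕ) : Prop :=
  ∀ k, k + 1 < N → R (q k) (q (k + 1))
/-- no `R`-cycle with `N` vertices through `z` -/
def NoCyc {W : Type} (R : W → W → Prop) (N : ℕ) (z : W) : Prop :=
  ∀ q : ℕ → W, Inj q N → Ch R q N → R (q (N - 1)) (q 0) → (∃ k, k < N ∧ q k = z) → False

structure Facts (c : Ctx V) (l : ℕ) : Prop where
  small : ∀ T, c.Lg T → T.card ≤ l - 2
  symm : ∀ T T', c.RP T T' → c.RP T' T
  f1 : NoCyc (c.Ro c.InLg) (l + 1) none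
  f2 : NoCyc (c.Ro c.PP) l none
  f3 : ∀ (i : ℕ) (W : ℕ → Option V), 0 < i → i + 1 < l → Inj W l → Ch (c.Ro c.PP) W l →
    W i = none → (∃ T T', c.RP T T' ∧ mem (W (i - 1)) T ∧ mem (W (i + 1)) T') →
    ¬ c.Ro c.PP (W 0) none ∧ ¬ c.Ro c.PP (W (l - 1)) none

/-- extension by `none` -/
def exo {l : ℕ} (w : Fin l → Option V) (k : ℕ) : Option V := if h : k < l then w ⟨k, h⟩ else none
def pre (W : ℕ → Option V) (t : ℕ) : Option V := if t = 0 then none else W (t - 1)
/-- the second large neighbour of the free vertex of block `t` -/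
def nb (j : ℕ) (W : ℕ → Option V) (t : ℕ) : Option V := if t < j then pre W t else W (t + 1)

/-- `(j, w, s)` is a template `(j, w)` with an assignment `s` of free vertices -/
structure Valid (c : Ctx V) {l : ℕ} (j : Fin l) (w : Fin l → Option V) (s : Fin l → V) : Prop where
  winj : Function.Injective w
  sinj : Function.Injective s
  wsome : ∀ t, t ≠ j → w t ≠ none
  ok : ∀ t, w t ≠ none → c.Lg (c.T (s t)) ∧ mem (w t) (c.T (s t)) ∧
    mem (nb j.val (exo w) t.val) (c.T (s t))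
  sub : ∀ t, ∀ y ∈ c.T (s t), ∃ t', w t' = some y
  jpos : w j ≠ none → 0 < j.val
  rho : w j = none → (∀ y ∈ c.T (s j), c.PP y) ∧
    ∃ T T', c.RP T T' ∧ mem (pre (exo w) j.val) T ∧ mem (exo w (j.val + 1)) T'

open Classical in
noncomputable def trips [Fintype V] (c : Ctx V) (l : ℕ) :
    Finset (Fin l × (Fin l → Option V) × (Fin l → V)) :=
  univ.filter fun x => Valid c x.1 x.2.1 x.2.2

open Classical in
/-- the concrete data attached to a graph, a set `L` of large vertices and a constant `M` -/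
noncomputable def ctx (G : SimpleGraph V) (L : Finset V) (M : ℕ) : Ctx V where
  T u := L.filter (G.Adj u)
  Lg T := ∀ Z : Finset V, Z.card ≤ M → ∃ u, u ∉ L ∧ u ∉ Z ∧ L.filter (G.Adj u) = T
  RP T T' := ∀ Z : Finset V, Z.card ≤ M → ∃ u u', u ∉ L ∧ u' ∉ L ∧ u ∉ Z ∧ u' ∉ Z ∧ G.Adj u u' ∧
    L.filter (G.Adj u) = T ∧ L.filter (G.Adj u') = T'

/-- paths that are counted in the main term -/
structure Good (G : SimpleGraph V) (L : Finset V) (M : ℕ) {N : ℕ} (f : Fin N → V) : Prop where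
  lg : ∀ i, f i ∉ L → (ctx G L M).Lg ((ctx G L M).T (f i))
  ends : ∀ i : Fin N, (i.val = 0 ∨ i.val + 1 = N) → f i ∉ L
  ev : ∀ i j : Fin N, i.val + 1 = j.val → i.val % 2 = 0 → ¬ (f i ∈ L ∧ f j ∈ L)
  od : ∀ i j : Fin N, i.val + 1 = j.val → i.val % 2 = 1 → f i ∈ L ∨ f j ∈ L
  rp : ∀ i j : Fin N, i.val + 1 = j.val → i.val % 2 = 0 → f i ∉ L → f j ∉ L →
    (ctx G L M).RP ((ctx G L M).T (f i)) ((ctx G L M).T (f j))

open Classical in
/-- task T5 (cleaning) -/
def TaskT5 (l : ℕ) : Prop :=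
  ∀ (M : ℕ) (ε : ℝ), 0 < ε → ∃ n0 : ℕ, ∀ (V : Type) [Fintype V] (G : SimpleGraph V),
    n0 ≤ Fintype.card V → PFree G (2 * l) → ∃ L : Finset V,
      (((paths G (2 * l)).filter fun f => ¬ Good G L M f).card : ℝ) ≤
        ε * (Fintype.card V : ℝ) ^ l

/-- task REAL (realisation of abstract structures by long paths) -/
def TaskReal (l : ℕ) : Prop :=
  ∀ (V : Type) (G : SimpleGraph V) (L : Finset V) (M M' : ℕ), M ≤ M' → 2 * l + 4 ≤ M' →
    PFree G (2 * l) → ¬ HasK G (l - 1) M → Facts (ctx G L M') l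

open Classical in
/-- task GLUE -/
def TaskGlue (l : ℕ) : Prop :=
  ∀ (V : Type) [Fintype V] (G : SimpleGraph V) (L : Finset V) (M : ℕ), 2 * l + 4 ≤ M →
    PFree G (2 * l) →
      ((paths G (2 * l)).filter fun f => Good G L M f).card ≤ (trips (ctx G L M) l).card

open Classical in
/-- task DER -/
def TaskDer : Prop :=
  ∀ (N : ℕ) (t0 : Fin N) (g : Fin N → Fin N), (∀ t, t ≠ t0 → g t ≠ t0) →
    (univ.filter fun σ : Equiv.Perm (Fin N) => σ t0 = t0 ∧ ∀ t, t ≠ t0 → σ t ≠ g t).card ≤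
      numDerangements (N - 1)

/-- task NUM -/
def TaskNum (l : ℕ) : Prop :=
  ∃ W : ℕ, 2 * (l - 1).factorial * (l - 2).factorial ≤ W ∧
    2 * (l - 1).factorial * numDerangements (l - 1) ≤ W ∧
    (6 ≤ l → 4 * (l - 1).factorial * (l - 2).factorial ≤ W) ∧ (l = 5 → 384 ≤ W) ∧
    (W : ℝ) / (l.factorial : ℝ) + (if l = 4 then 1 / 4 else 0) < 2 * cc l

end H345PK
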