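import Pool.Agent.H345Z.PK.Defs

/-! Interface between the two halves of the proof of MP_490135_co. -/

namespace H345PK

open Finset SimpleGraph

/-- every path of `G` has at most `N` vertices -/
def PFree {V : Type} (G : SimpleGraph V) (N : ℕ) : Prop :=
  ∀ l : List V, l.Nodup → l.IsChain G.Adj → l.length ≤ N

open Classical in
/-- directed paths with `N` vertices -/
noncomputable def paths {V : Type} [Fintype V] (G : SimpleGraph V) (N : ℕ) : Finset (Fin N → V) :=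
  univ.filter fun f => Function.Injective f ∧ ∀ i j : Fin N, i.val + 1 = j.val → G.Adj (f i) (f j)

/-- `G` contains `K_{a,M}` -/
def HasK {V : Type} (G : SimpleGraph V) (a M : ℕ) : Prop :=
  ∃ C B : Finset V, C.card = a ∧ B.card = M ∧ Disjoint C B ∧ ∀ c ∈ C, ∀ b ∈ B, G.Adj c b

/-- the leading constant `c = (l-1)! (l-1)^(l-1) / l^l` -/
noncomputable def cc (l : ℕ) : ℝ :=
  ((l - 1).factorial : ℝ) * ((l - 1 : ℕ) : ℝ) ^ (l - 1) / (l : ℝ) ^ l

/-- the hard half: without `K_{l-1,M}` there are fewer than `2 c n^l` directed paths -/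
def HardHalf (l : ℕ) : Prop :=
  ∃ θ : ℝ, θ < 2 * cc l ∧ ∀ M : ℕ, ∃ n0 : ℕ, ∀ (V : Type) [Fintype V] (G : SimpleGraph V),
    n0 ≤ Fintype.card V → PFree G (2 * l) → ¬ HasK G (l - 1) M →
      ((paths G (2 * l)).card : ℝ) ≤ θ * (Fintype.card V : ℝ) ^ l

/-- the statement for one value of `l` (`k = 2 l + 1`) -/
def Goal (l : ℕ) : Prop :=
  ∃ n0 : ℕ, ∀ n : ℕ, n0 ≤ n →
    exPath n (2 * l) (2 * l + 1) =
      (range (n - l + 1)).sup fun m => (Gnkm n l m).copyCount (pathGraph (2 * l))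

/-- `f(n) = max_m m (l-1)! (n-m-l)_{l-1}` -/
def ff (l n : ℕ) : ℕ :=
  (range (n - l + 1)).sup fun m => m * (l - 1).factorial * (n - m - l).descFactorial (l - 1)

/-- task E1 -/
def TaskE1 : Prop :=
  (∀ (V : Type) [Fintype V] (G : SimpleGraph V) (N : ℕ),
    (paths G N).card = G.copyCount (pathGraph N) * Nat.card (pathGraph N ≃g pathGraph N)) ∧
  (∀ N : ℕ, 0 < Nat.card (pathGraph N ≃g pathGraph N)) ∧
  (∀ (V : Type) (G : SimpleGraph V) (N : ℕ), (pathGraph (N + 1)).Free G ↔ PFree G N)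

/-- task E2 -/
def TaskE2 (l : ℕ) : Prop :=
  ∀ n m : ℕ, l ≤ n → m ≤ n - l → PFree (Gnkm n l m) (2 * l) ∧
    2 * (m * (l - 1).factorial * (n - m - l).descFactorial (l - 1)) ≤
      (paths (Gnkm n l m) (2 * l)).card

open Classical in
/-- task E3 (core) -/
def TaskE3 (l : ℕ) : Prop :=
  ∃ M : ℕ, ∀ (V : Type) [Fintype V] (G : SimpleGraph V), PFree G (2 * l) → HasK G (l - 1) M →
    ∃ Z : Finset V, Z.Nonempty ∧ (∀ a ∈ Z, ∀ b, G.Adj a b → b ∈ Z) ∧
      ((paths G (2 * l)).filter fun f => ∀ i, f i ∈ Z).card ≤ 2 * ff l Z.card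

/-- the upper bound obtained from `HardHalf` and `TaskE3` -/
def Upper (l : ℕ) : Prop :=
  ∃ n0 : ℕ, ∀ (V : Type) [Fintype V] (G : SimpleGraph V), n0 ≤ Fintype.card V →
    PFree G (2 * l) → (paths G (2 * l)).card ≤ 2 * ff l (Fintype.card V)

end H345PK
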