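import Pool.Agent.H345Z.PK.H0

/-! Realisation of abstract structures by long paths (MP_490135_co). -/

set_option maxHeartbeats 400000

namespace H345PK.Real

open Finset SimpleGraph

variable {V : Type} {G : SimpleGraph V} {L : Finset V} {M : ℕ}

theorem lg_fresh {T : Finset V} (h : (ctx G L M).Lg T) (p : List V) (hp : p.length ≤ M) :
    ∃ u, u ∉ L ∧ u ∉ p ∧ ∀ y ∈ T, G.Adj u y ∧ y ∈ L := by
  classical
  obtain ⟨u, h1, h2, h3⟩ := h p.toFinset ((List.toFinset_card_le p).trans hp)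
  refine ⟨u, h1, fun hu => h2 (List.mem_toFinset.2 hu), fun y hy => ?_⟩
  rw [← h3, Finset.mem_filter] at hy
  exact ⟨hy.2, hy.1⟩

theorem rp_fresh {T T' : Finset V} (h : (ctx G L M).RP T T') (p : List V) (hp : p.length ≤ M) :
    ∃ u u', u ∉ L ∧ u' ∉ L ∧ u ∉ p ∧ u' ∉ p ∧ G.Adj u u' ∧ (∀ y ∈ T, G.Adj u y ∧ y ∈ L) ∧
      ∀ y ∈ T', G.Adj u' y ∧ y ∈ L := by
  classical
  obtain ⟨u, u', h1, h1', h2, h2', ha, h3, h3'⟩ :=
    h p.toFinset ((List.toFinset_card_le p).trans hp)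
  refine ⟨u, u', h1, h1', fun hu => h2 (List.mem_toFinset.2 hu),
    fun hu => h2' (List.mem_toFinset.2 hu), ha, fun y hy => ?_, fun y hy => ?_⟩
  · rw [← h3, Finset.mem_filter] at hy
    exact ⟨hy.2, hy.1⟩
  · rw [← h3', Finset.mem_filter] at hy
    exact ⟨hy.2, hy.1⟩

theorem rp_symm {T T' : Finset V} (h : (ctx G L M).RP T T') : (ctx G L M).RP T' T := by
  intro Z hZ
  obtain ⟨u, u', h1, h1', h2, h2', ha, h3, h3'⟩ := h Z hZ
  exact ⟨u', u, h1', h1, h2', h2, ha.symm, h3', h3⟩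

theorem rp_lg {T T' : Finset V} (h : (ctx G L M).RP T T') : (ctx G L M).Lg T' := by
  intro Z hZ
  obtain ⟨u, u', -, h1', -, h2', -, -, h3'⟩ := h Z hZ
  exact ⟨u', h1', h2', h3'⟩

theorem gam_symm {c : Ctx V} {y y' : V} (h : c.Gam y y') : c.Gam y' y := by
  obtain ⟨h1, T, h2, h3, h4⟩ := h
  exact ⟨h1.symm, T, h2, h4, h3⟩

theorem ro_symm {c : Ctx V} {Q : V → Prop} {a b : Option V} (h : c.Ro Q a b) : c.Ro Q b a := by
  cases a <;> cases b
  · exact h
  · exact h
  · exact h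
  · exact gam_symm h

/-- a path ending at `y k` with `n` vertices whose vertices in `L` are among `y 0, …, y k` -/
def St (G : SimpleGraph V) (L : Finset V) (y : ℕ → V) (k n : ℕ) : Prop :=
  ∃ p : List V, (y k :: p).Nodup ∧ (y k :: p).IsChain G.Adj ∧ (y k :: p).length = n ∧
    ∀ x ∈ y k :: p, x ∈ L → ∃ j, j ≤ k ∧ x = y j

theorem start1 {y : ℕ → V} (h : (ctx G L M).InLg (y 0)) : St G L y 0 2 := by
  obtain ⟨T, hT, hy⟩ := h
  obtain ⟨u, h1, -, h3⟩ := lg_fresh hT [] (Nat.zero_le _)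
  have hne : y 0 ≠ u := fun e => h1 (e ▸ (h3 _ hy).2)
  refine ⟨[u], by simp [hne], by simpa using (h3 _ hy).1.symm, rfl, fun x hx hL => ?_⟩
  simp only [List.mem_cons, List.not_mem_nil, or_false] at hx
  rcases hx with rfl | rfl
  · exact ⟨0, le_rfl, rfl⟩
  · exact absurd hL h1

theorem start2 {y : ℕ → V} (h : (ctx G L M).PP (y 0)) : St G L y 0 3 := by
  obtain ⟨T, T', hT, hy⟩ := h
  obtain ⟨u, u', h1, h1', -, -, ha, h3, -⟩ := rp_fresh hT [] (Nat.zero_le _)
  have hne : y 0 ≠ u := fun e => h1 (e ▸ (h3 _ hy).2)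
  have hne' : y 0 ≠ u' := fun e => h1' (e ▸ (h3 _ hy).2)
  refine ⟨[u, u'], by simp [hne, hne', ha.ne], ?_, rfl, fun x hx hL => ?_⟩
  · simp only [List.isChain_cons_cons, List.isChain_singleton, and_true]
    exact ⟨(h3 _ hy).1.symm, ha⟩
  · simp only [List.mem_cons, List.not_mem_nil, or_false] at hx
    rcases hx with rfl | rfl | rfl
    · exact ⟨0, le_rfl, rfl⟩
    · exact absurd hL h1
    · exact absurd hL h1'

theorem stepGam {y : ℕ → V} {k n : ℕ} (h : St G L y k n) (hn : n ≤ M)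
    (hg : (ctx G L M).Gam (y k) (y (k + 1))) (hi : ∀ j, j ≤ k → y (k + 1) ≠ y j) :
    St G L y (k + 1) (n + 2) := by
  obtain ⟨p, h1, h2, h3, h4⟩ := h
  obtain ⟨-, T, hT, hy, hy'⟩ := hg
  obtain ⟨u, hu1, hu2, hu3⟩ := lg_fresh hT (y k :: p) (h3 ▸ hn)
  have hL : y (k + 1) ∈ L := (hu3 _ hy').2
  have hnot : y (k + 1) ∉ y k :: p := fun hm => by
    obtain ⟨j, hj, e⟩ := h4 _ hm hL
    exact hi j hj e
  have hne : y (k + 1) ≠ u := fun e => hu1 (e ▸ hL)
  refine ⟨u :: y k :: p, ?_, ?_, ?_, fun x hx hxL => ?_⟩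
  · refine List.nodup_cons.2 ⟨?_, List.nodup_cons.2 ⟨hu2, h1⟩⟩
    intro hm
    rcases List.mem_cons.1 hm with e | hm
    · exact hne e
    · exact hnot hm
  · exact List.isChain_cons_cons.2 ⟨(hu3 _ hy').1.symm,
      List.isChain_cons_cons.2 ⟨(hu3 _ hy).1, h2⟩⟩
  · simp only [List.length_cons] at h3 ⊢
    omega
  · rcases List.mem_cons.1 hx with rfl | hx
    · exact ⟨k + 1, le_rfl, rfl⟩
    rcases List.mem_cons.1 hx with rfl | hx
    · exact absurd hxL hu1
    · obtain ⟨j, hj, e⟩ := h4 _ hx hxL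
      exact ⟨j, by omega, e⟩

theorem stepRP {y : ℕ → V} {k n : ℕ} (h : St G L y k n) (hn : n ≤ M) {T T' : Finset V}
    (hT : (ctx G L M).RP T T') (hy : y k ∈ T) (hy' : y (k + 1) ∈ T')
    (hi : ∀ j, j ≤ k → y (k + 1) ≠ y j) : St G L y (k + 1) (n + 3) := by
  obtain ⟨p, h1, h2, h3, h4⟩ := h
  obtain ⟨u, u', hu1, hu1', hu2, hu2', ha, hu3, hu3'⟩ := rp_fresh hT (y k :: p) (h3 ▸ hn)
  have hL : y (k + 1) ∈ L := (hu3' _ hy').2
  have hnot : y (k + 1) ∉ y k :: p := fun hm => by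
    obtain ⟨j, hj, e⟩ := h4 _ hm hL
    exact hi j hj e
  have hne : y (k + 1) ≠ u := fun e => hu1 (e ▸ hL)
  have hne' : y (k + 1) ≠ u' := fun e => hu1' (e ▸ hL)
  refine ⟨u' :: u :: y k :: p, ?_, ?_, ?_, fun x hx hxL => ?_⟩
  · refine List.nodup_cons.2 ⟨?_, List.nodup_cons.2 ⟨?_, List.nodup_cons.2 ⟨hu2, h1⟩⟩⟩
    · intro hm
      rcases List.mem_cons.1 hm with e | hm
      · exact hne' e
      rcases List.mem_cons.1 hm with e | hm
      · exact hne e
      · exact hnot hm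
    · intro hm
      rcases List.mem_cons.1 hm with e | hm
      · exact ha.ne e.symm
      · exact hu2' hm
  · exact List.isChain_cons_cons.2 ⟨(hu3' _ hy').1.symm, List.isChain_cons_cons.2 ⟨ha.symm,
      List.isChain_cons_cons.2 ⟨(hu3 _ hy).1, h2⟩⟩⟩
  · simp only [List.length_cons] at h3 ⊢
    omega
  · rcases List.mem_cons.1 hx with rfl | hx
    · exact ⟨k + 1, le_rfl, rfl⟩
    rcases List.mem_cons.1 hx with rfl | hx
    · exact absurd hxL hu1'
    rcases List.mem_cons.1 hx with rfl | hx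
    · exact absurd hxL hu1
    · obtain ⟨j, hj, e⟩ := h4 _ hx hxL
      exact ⟨j, by omega, e⟩

theorem end1 {y : ℕ → V} {k n N : ℕ} (h : St G L y k n) (hn : n ≤ M)
    (hg : (ctx G L M).InLg (y k)) (hP : PFree G N) : n + 1 ≤ N := by
  obtain ⟨p, h1, h2, h3, -⟩ := h
  obtain ⟨T, hT, hy⟩ := hg
  obtain ⟨u, -, hu2, hu3⟩ := lg_fresh hT (y k :: p) (h3 ▸ hn)
  have := hP (u :: y k :: p) (List.nodup_cons.2 ⟨hu2, h1⟩)
    (List.isChain_cons_cons.2 ⟨(hu3 _ hy).1, h2⟩)
  simp only [List.length_cons] at h3 this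
  omega

theorem end2 {y : ℕ → V} {k n N : ℕ} (h : St G L y k n) (hn : n ≤ M)
    (hg : (ctx G L M).PP (y k)) (hP : PFree G N) : n + 2 ≤ N := by
  obtain ⟨p, h1, h2, h3, -⟩ := h
  obtain ⟨T, T', hT, hy⟩ := hg
  obtain ⟨u, u', -, -, hu2, hu2', ha, hu3, -⟩ := rp_fresh hT (y k :: p) (h3 ▸ hn)
  have hnd : (u' :: u :: y k :: p).Nodup := by
    refine List.nodup_cons.2 ⟨?_, List.nodup_cons.2 ⟨hu2, h1⟩⟩
    intro hm
    rcases List.mem_cons.1 hm with e | hm
    · exact ha.ne e.symm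
    · exact hu2' hm
  have := hP (u' :: u :: y k :: p) hnd
    (List.isChain_cons_cons.2 ⟨ha.symm, List.isChain_cons_cons.2 ⟨(hu3 _ hy).1, h2⟩⟩)
  simp only [List.length_cons] at h3 this
  omega

theorem multi {y : ℕ → V} {a n K : ℕ} (h : St G L y a n) (hinj : Inj y K) (m : ℕ)
    (hK : a + m < K) (hn : n + 2 * m ≤ M)
    (hg : ∀ k, a ≤ k → k < a + m → (ctx G L M).Gam (y k) (y (k + 1))) :
    St G L y (a + m) (n + 2 * m) := by
  induction m with
  | zero => simpa using h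
  | succ m ih =>
    have h1 := ih (by omega) (by omega) fun k h1 h2 => hg k h1 (by omega)
    have h2 := stepGam h1 (by omega) (hg (a + m) (by omega) (by omega)) fun j hj e => by
      have := hinj (a + m + 1) (by omega) j (by omega) e
      omega
    exact h2

theorem cyc {W : Type} {R : W → W → Prop} {q : ℕ → W} {N : ℕ} (hN : 0 < N) (h : Ch R q N)
    (h0 : R (q (N - 1)) (q 0)) (m : ℕ) : R (q (m % N)) (q ((m + 1) % N)) := by
  have hlt := Nat.mod_lt m hN
  by_cases hc : m % N + 1 < N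
  · have : (m + 1) % N = m % N + 1 := by
      rw [Nat.add_mod, Nat.mod_eq_of_lt (a := 1) (by omega), Nat.mod_eq_of_lt hc]
    rw [this]
    exact h _ hc
  · have e : m % N = N - 1 := by omega
    have : (m + 1) % N = 0 := by
      rw [← Nat.mod_add_mod, e, Nat.sub_add_cancel hN, Nat.mod_self]
    rw [this, e]
    exact h0

theorem rotate {c : Ctx V} {Q : V → Prop} {N : ℕ} (q : ℕ → Option V) (hinj : Inj q (N + 2))
    (hch : Ch (c.Ro Q) q (N + 2)) (h0 : c.Ro Q (q (N + 2 - 1)) (q 0)) (k0 : ℕ) (hk0 : k0 < N + 2)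
    (hq : q k0 = none) :
    ∃ y : ℕ → V, Inj y (N + 1) ∧ (∀ j, j < N → c.Gam (y j) (y (j + 1))) ∧ Q (y 0) ∧ Q (y N) := by
  have hN : 0 < N + 2 := by omega
  have hc := cyc hN hch h0
  have hmod : ∀ j j', j < N + 2 → j' < N + 2 → (k0 + j) % (N + 2) = (k0 + j') % (N + 2) →
      j = j' := by
    intro j j' h1 h2 e
    have := Nat.ModEq.add_left_cancel' k0 (show k0 + j ≡ k0 + j' [MOD (N + 2)] from e)
    rwa [Nat.ModEq, Nat.mod_eq_of_lt h1, Nat.mod_eq_of_lt h2] at this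
  have hne : ∀ j, j < N + 1 → q ((k0 + (j + 1)) % (N + 2)) ≠ none := by
    intro j hj e
    have h1 := hinj _ (Nat.mod_lt _ hN) k0 hk0 (e.trans hq.symm)
    have h2 := hmod (j + 1) 0 (by omega) (by omega)
      (by rw [h1, Nat.add_zero, Nat.mod_eq_of_lt hk0])
    omega
  obtain ⟨v0, -⟩ := Option.ne_none_iff_exists'.1 (hne 0 (by omega))
  have hex : ∀ j, ∃ v : V, j < N + 1 → q ((k0 + (j + 1)) % (N + 2)) = some v := by
    intro j
    by_cases hj : j < N + 1
    · obtain ⟨v, hv⟩ := Option.ne_none_iff_exists'.1 (hne j hj)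
      exact ⟨v, fun _ => hv⟩
    · exact ⟨v0, fun h => absurd h hj⟩
  choose y hy using hex
  refine ⟨y, fun j hj j' hj' e => ?_, fun j hj => ?_, ?_, ?_⟩
  · have h1 : q ((k0 + (j + 1)) % (N + 2)) = q ((k0 + (j' + 1)) % (N + 2)) := by
      rw [hy j hj, hy j' hj', e]
    have h2 := hinj _ (Nat.mod_lt _ hN) _ (Nat.mod_lt _ hN) h1
    have := hmod (j + 1) (j' + 1) (by omega) (by omega) h2
    omega
  · have h1 := hc (k0 + (j + 1))
    rw [hy j (by omega), Nat.add_assoc, hy (j + 1) (by omega)] at h1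
    exact h1
  · have h1 := hc k0
    rw [Nat.mod_eq_of_lt hk0, hq, show k0 + 1 = k0 + (0 + 1) from rfl, hy 0 (by omega)] at h1
    exact h1
  · have h1 := hc (k0 + (N + 1))
    rw [hy N (by omega), show k0 + (N + 1) + 1 = k0 + (N + 2) from rfl, Nat.add_mod_right,
      Nat.mod_eq_of_lt hk0, hq] at h1
    exact h1

theorem f3a {l : ℕ} (hM : 2 * l + 4 ≤ M) (hP : PFree G (2 * l)) (i : ℕ) (W : ℕ → Option V)
    (hi0 : 0 < i) (hil : i + 1 < l) (hinj : Inj W l) (hch : Ch ((ctx G L M).Ro (ctx G L M).PP) W l)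
    (hWi : W i = none)
    (hT : ∃ T T', (ctx G L M).RP T T' ∧ mem (W (i - 1)) T ∧ mem (W (i + 1)) T') :
    ¬ (ctx G L M).Ro (ctx G L M).PP (W 0) none := by
  intro h0
  obtain ⟨T, T', hRP, hm1, hm2⟩ := hT
  have hne : ∀ k, k < l → k ≠ i → W k ≠ none := fun k hk hki e =>
    hki (hinj k hk i (by omega) (e.trans hWi.symm))
  obtain ⟨v0, -⟩ := Option.ne_none_iff_exists'.1 (hne 0 (by omega) (by omega))
  have hex : ∀ k, ∃ v : V, k < l → k ≠ i → W k = some v := by
    intro k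
    by_cases hk : k < l ∧ k ≠ i
    · obtain ⟨v, hv⟩ := Option.ne_none_iff_exists'.1 (hne k hk.1 hk.2)
      exact ⟨v, fun _ _ => hv⟩
    · exact ⟨v0, fun h1 h2 => absurd ⟨h1, h2⟩ hk⟩
  choose z hz using hex
  let y : ℕ → V := fun j => if j < i then z j else z (j + 1)
  have hy1 : ∀ j, j < i → W j = some (y j) := fun j hj => by
    simp only [y, if_pos hj]
    exact hz j (by omega) (by omega)
  have hy2 : ∀ j, i ≤ j → j + 1 < l → W (j + 1) = some (y j) := fun j hj hj' => by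
    simp only [y, if_neg (not_lt.2 hj)]
    exact hz (j + 1) hj' (by omega)
  have hyinj : Inj y (l - 1) := by
    intro j hj j' hj' e
    by_cases c1 : j < i <;> by_cases c2 : j' < i
    · exact hinj j (by omega) j' (by omega) (by rw [hy1 j c1, hy1 j' c2, e])
    · have := hinj j (by omega) (j' + 1) (by omega)
        (by rw [hy1 j c1, hy2 j' (by omega) (by omega), e])
      omega
    · have := hinj (j + 1) (by omega) j' (by omega)
        (by rw [hy1 j' c2, hy2 j (by omega) (by omega), e])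
      omega
    · have := hinj (j + 1) (by omega) (j' + 1) (by omega)
        (by rw [hy2 j (by omega) (by omega), hy2 j' (by omega) (by omega), e])
      omega
  have hg1 : ∀ k, k + 1 < i → (ctx G L M).Gam (y k) (y (k + 1)) := fun k hk => by
    have := hch k (by omega)
    rw [hy1 k (by omega), hy1 (k + 1) hk] at this
    exact this
  have hg2 : ∀ k, i ≤ k → k + 2 < l → (ctx G L M).Gam (y k) (y (k + 1)) := fun k hk hk' => by
    have := hch (k + 1) (by omega)
    rw [hy2 k hk (by omega), hy2 (k + 1) (by omega) (by omega)] at this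
    exact this
  rw [hy1 0 hi0] at h0
  have s0 : St G L y 0 3 := start2 h0
  have s1 := multi (M := M) s0 hyinj (i - 1) (by omega) (by omega)
    fun k _ hk => hg1 k (by omega)
  have hyT : y (0 + (i - 1)) ∈ T := by
    rw [Nat.zero_add]
    exact hm1 _ (hy1 (i - 1) (by omega))
  have e1 : 0 + (i - 1) + 1 = i := by omega
  have hyT' : y i ∈ T' := hm2 _ (hy2 i le_rfl hil)
  have s2 := stepRP s1 (by omega) hRP hyT (by rw [e1]; exact hyT') fun j hj e => by
    have := hyinj (0 + (i - 1) + 1) (by omega) j (by omega) e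
    omega
  rw [e1] at s2
  have s3 := multi (M := M) s2 hyinj (l - 2 - i) (by omega) (by omega)
    fun k hk hk' => hg2 k hk (by omega)
  have hend : (ctx G L M).InLg (y (i + (l - 2 - i))) := by
    by_cases c : l - 2 - i = 0
    · rw [c, Nat.add_zero]
      exact ⟨T', rp_lg hRP, hyT'⟩
    · obtain ⟨-, T0, h1, -, h3⟩ := hg2 (i + (l - 2 - i) - 1) (by omega) (by omega)
      rw [show i + (l - 2 - i) - 1 + 1 = i + (l - 2 - i) by omega] at h3
      exact ⟨T0, h1, h3⟩
  have := end1 s3 (by omega) hend hP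
  omega

theorem small {l M0 : ℕ} (hM : M0 ≤ M) (hK : ¬ HasK G (l - 1) M0) (T : Finset V)
    (hT : (ctx G L M).Lg T) : T.card ≤ l - 2 := by
  classical
  by_contra hc
  obtain ⟨C, hC, hCc⟩ := Finset.exists_subset_card_eq (s := T) (n := l - 1) (by omega)
  have hB : ∀ m, m ≤ M0 → ∃ B : List V, B.Nodup ∧ B.length = m ∧
      ∀ b ∈ B, b ∉ L ∧ ∀ y ∈ T, G.Adj b y ∧ y ∈ L := by
    intro m
    induction m with
    | zero => exact fun _ => ⟨[], List.nodup_nil, rfl, by simp⟩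
    | succ m ih =>
      intro hm
      obtain ⟨B, h1, h2, h3⟩ := ih (by omega)
      obtain ⟨u, hu1, hu2, hu3⟩ := lg_fresh hT B (by omega)
      refine ⟨u :: B, List.nodup_cons.2 ⟨hu2, h1⟩, by simp [h2], fun b hb => ?_⟩
      rcases List.mem_cons.1 hb with rfl | hb
      · exact ⟨hu1, hu3⟩
      · exact h3 b hb
  obtain ⟨B, h1, h2, h3⟩ := hB M0 le_rfl
  obtain ⟨u, -, -, hu3⟩ := lg_fresh hT [] (Nat.zero_le _)
  refine hK ⟨C, B.toFinset, hCc, by rw [List.toFinset_card_of_nodup h1, h2], ?_, ?_⟩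
  · rw [Finset.disjoint_left]
    intro a ha hb
    exact (h3 a (List.mem_toFinset.1 hb)).1 (hu3 a (hC ha)).2
  · intro a ha b hb
    exact ((h3 b (List.mem_toFinset.1 hb)).2 a (hC ha)).1.symm

end H345PK.Real

namespace H345PK

open H345PK.Real

theorem taskReal (l : ℕ) (h : 4 ≤ l) : TaskReal l := by
  intro V G L M M' hM hM' hP hK
  refine ⟨small hM hK, fun _ _ => rp_symm, ?_, ?_, ?_⟩
  · rintro q hinj hch h0 ⟨k0, hk0, hq⟩
    obtain ⟨N, rfl⟩ : ∃ N, l = N + 1 := ⟨l - 1, by omega⟩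
    obtain ⟨y, h1, h2, h3, h4⟩ := rotate q hinj hch h0 k0 hk0 hq
    have s1 := multi (M := M') (start1 h3) h1 N (by omega) (by omega)
      fun k _ hk => h2 k (by omega)
    rw [Nat.zero_add] at s1
    have := end1 s1 (by omega) h4 hP
    omega
  · rintro q hinj hch h0 ⟨k0, hk0, hq⟩
    obtain ⟨N, rfl⟩ : ∃ N, l = N + 2 := ⟨l - 2, by omega⟩
    obtain ⟨y, h1, h2, h3, h4⟩ := rotate q hinj hch h0 k0 hk0 hq
    have s1 := multi (M := M') (start2 h3) h1 N (by omega) (by omega)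
      fun k _ hk => h2 k (by omega)
    rw [Nat.zero_add] at s1
    have := end2 s1 (by omega) h4 hP
    omega
  · intro i W hi0 hil hinj hch hWi hT
    refine ⟨f3a hM' hP i W hi0 hil hinj hch hWi hT, ?_⟩
    obtain ⟨T, T', hRP, hm1, hm2⟩ := hT
    have := f3a (L := L) hM' hP (l - 1 - i) (fun k => W (l - 1 - k)) (by omega) (by omega)
      (fun k hk k' hk' e => by
        have := hinj (l - 1 - k) (by omega) (l - 1 - k') (by omega) e
        omega)
      (fun k hk => by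
        have := hch (l - 1 - (k + 1)) (by omega)
        rw [show l - 1 - (k + 1) + 1 = l - 1 - k by omega] at this
        exact ro_symm this)
      (by rw [show l - 1 - (l - 1 - i) = i by omega]; exact hWi)
      ⟨T', T, rp_symm hRP,
        by rw [show l - 1 - (l - 1 - i - 1) = i + 1 by omega]; exact hm2,
        by rw [show l - 1 - (l - 1 - i + 1) = i - 1 by omega]; exact hm1⟩
    exact this

end H345PK
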