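import Pool.Agent.H345Z.PK.H0

/-! Task T5 (cleaning) for MP_490135_co. -/

namespace H345PK
namespace T5

open Finset SimpleGraph
open scoped Classical

variable {V : Type}

/-- degree -/
noncomputable def dg [Fintype V] (G : SimpleGraph V) (v : V) : ℕ := (univ.filter (G.Adj v)).card

lemma pfree_fn {G : SimpleGraph V} {N : ℕ} (h : PFree G N) (g : Fin (N + 1) → V)
    (hg : Function.Injective g) (ha : ∀ i j : Fin (N + 1), i.val + 1 = j.val → G.Adj (g i) (g j)) :
    False := by
  have h1 := h (List.ofFn g) (List.nodup_ofFn.2 hg) (by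
    rw [List.isChain_iff_getElem]
    intro i hi
    simp only [List.getElem_ofFn]
    exact ha _ _ rfl)
  simp at h1

lemma degen {G : SimpleGraph V} {N : ℕ} (h : PFree G N) (U : Finset V) (hU : U.Nonempty) :
    ∃ v ∈ U, (U.filter (G.Adj v)).card ≤ N := by
  by_contra hc
  push Not at hc
  have key : ∀ k : ℕ, k ≤ N → ∃ (v : V) (p : List V), (v :: p).Nodup ∧ (v :: p).IsChain G.Adj ∧
      p.length = k ∧ v ∈ U := by
    intro k
    induction k with
    | zero =>
      intro _
      obtain ⟨v, hv⟩ := hU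
      exact ⟨v, [], by simp, by simp, rfl, hv⟩
    | succ k ih =>
      intro hk
      obtain ⟨v, p, h1, h2, h3, h4⟩ := ih (by omega)
      have h5 : ((v :: p).toFinset).card < (U.filter (G.Adj v)).card := by
        have := List.toFinset_card_le (v :: p)
        have := hc v h4
        simp only [List.length_cons] at *
        omega
      obtain ⟨y, hy, hy2⟩ := Finset.exists_mem_notMem_of_card_lt_card h5
      rw [List.mem_toFinset] at hy2
      rw [mem_filter] at hy
      refine ⟨y, v :: p, List.nodup_cons.2 ⟨hy2, h1⟩, ?_, by simp [h3], hy.1⟩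
      exact List.IsChain.cons_cons hy.2.symm h2
  obtain ⟨v, p, h1, h2, h3, _⟩ := key N le_rfl
  have := h _ h1 h2
  simp [h3] at this

lemma sumU {G : SimpleGraph V} {N : ℕ} (h : PFree G N) (g : V → ℕ) (w : V → V → ℕ)
    (hw : ∀ b c, G.Adj b c → w b c ≤ g b ∧ w b c ≤ g c) (U : Finset V) :
    ∑ b ∈ U, ∑ c ∈ U.filter (G.Adj b), w b c ≤ 2 * N * ∑ b ∈ U, g b := by
  induction U using Finset.strongInduction with
  | H U ih =>
    rcases U.eq_empty_or_nonempty with rfl | hU
    · simp
    obtain ⟨v, hv, hd⟩ := degen h U hU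
    have ih' := ih (U.erase v) (erase_ssubset hv)
    rw [← add_sum_erase U _ hv, ← add_sum_erase U g hv]
    have e1 : ∑ c ∈ U.filter (G.Adj v), w v c ≤ N * g v := by
      calc ∑ c ∈ U.filter (G.Adj v), w v c ≤ (U.filter (G.Adj v)).card • g v :=
            sum_le_card_nsmul _ _ _ (fun c hc => (hw v c (mem_filter.1 hc).2).1)
        _ ≤ N * g v := by rw [smul_eq_mul]; exact Nat.mul_le_mul_right _ hd
    have e2 : ∀ b ∈ U.erase v, ∑ c ∈ U.filter (G.Adj b), w b c ≤
        (if G.Adj v b then g v else 0) + ∑ c ∈ (U.erase v).filter (G.Adj b), w b c := by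
      intro b _
      by_cases hb : G.Adj v b
      · have hm : v ∈ U.filter (G.Adj b) := mem_filter.2 ⟨hv, hb.symm⟩
        rw [← add_sum_erase _ _ hm, if_pos hb, filter_erase]
        exact Nat.add_le_add_right (hw b v hb.symm).2 _
      · have hm : v ∉ U.filter (G.Adj b) := fun hm => hb (mem_filter.1 hm).2.symm
        rw [if_neg hb, filter_erase, erase_eq_of_notMem hm]
        simp
    have e3 : ∑ b ∈ U.erase v, (if G.Adj v b then g v else 0) ≤ N * g v := by
      rw [← sum_filter, sum_const, smul_eq_mul]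
      refine Nat.mul_le_mul_right _ (le_trans (card_le_card ?_) hd)
      exact filter_subset_filter _ (erase_subset _ _)
    have e4 := sum_le_sum e2
    rw [sum_add_distrib] at e4
    nlinarith

lemma sum_dg [Fintype V] {G : SimpleGraph V} {N : ℕ} (h : PFree G N) :
    ∑ v, dg G v ≤ 2 * N * Fintype.card V := by
  have := sumU h (fun _ => 1) (fun _ _ => 1) (fun _ _ _ => ⟨le_rfl, le_rfl⟩) univ
  simpa [dg] using this

/-- ordered edges -/
noncomputable def E [Fintype V] (G : SimpleGraph V) : Finset (V × V) :=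
  univ.filter fun p => G.Adj p.1 p.2

lemma card_fst [Fintype V] (G : SimpleGraph V) (X : Finset V) :
    ((E G).filter fun p => p.1 ∈ X).card = ∑ v ∈ X, dg G v := by
  have : (E G).filter (fun p => p.1 ∈ X) =
      X.biUnion fun v => (univ.filter (G.Adj v)).image fun u => (v, u) := by
    ext ⟨a, b⟩
    simp only [E, mem_filter, mem_univ, true_and, mem_biUnion, mem_image, Prod.mk.injEq]
    constructor
    · rintro ⟨h1, h2⟩
      exact ⟨a, h2, b, h1, rfl, rfl⟩
    · rintro ⟨v, hv, u, hu, rfl, rfl⟩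
      exact ⟨hu, hv⟩
  rw [this, card_biUnion]
  · refine sum_congr rfl fun v _ => ?_
    rw [card_image_of_injective _ (fun a b hab => (Prod.mk.inj hab).2)]
    rfl
  · intro a _ b _ hab
    simp only [Function.onFun]
    rw [Finset.disjoint_left]
    intro p hp hp'
    simp only [mem_image] at hp hp'
    obtain ⟨u, _, rfl⟩ := hp
    obtain ⟨u', _, h2⟩ := hp'
    exact hab (Prod.mk.inj h2).1.symm

lemma card_snd [Fintype V] (G : SimpleGraph V) (X : Finset V) :
    ((E G).filter fun p => p.2 ∈ X).card = ∑ v ∈ X, dg G v := by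
  rw [← card_fst]
  refine card_bij (fun p _ => p.swap) ?_ ?_ ?_
  · intro p hp
    simp only [E, mem_filter, mem_univ, true_and] at hp ⊢
    exact ⟨hp.1.symm, hp.2⟩
  · intro p _ p' _ h
    exact Prod.swap_injective h
  · intro p hp
    refine ⟨p.swap, ?_, by simp⟩
    simp only [E, mem_filter, mem_univ, true_and] at hp ⊢
    exact ⟨hp.1.symm, hp.2⟩

lemma card_E [Fintype V] {G : SimpleGraph V} {N : ℕ} (h : PFree G N) :
    (E G).card ≤ 2 * N * Fintype.card V := by
  have := card_fst G univ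
  simp only [mem_univ, filter_true] at this
  rw [this]
  exact sum_dg h

/-- choice of the scale -/
lemma scale (F : ℕ → ℕ) (hF : ∀ q, q ≤ F q) (A : ℕ) (hA : 0 < A) :
    ∃ Q : ℕ, ∀ (V : Type) [Fintype V] (d : V → ℕ) (n e : ℕ), ∑ v, d v ≤ e →
      ∃ q : ℕ, q ≤ Q ∧ A * ∑ v ∈ univ.filter (fun v => q * d v < n ∧ n ≤ F q * d v), d v ≤ e := by
  have mono : Monotone fun i => F^[i] 1 := by
    refine monotone_nat_of_le_succ fun i => ?_
    simp only [Function.iterate_succ_apply']
    exact hF _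
  refine ⟨F^[A] 1, fun V _ d n e he => ?_⟩
  by_contra hc
  push Not at hc
  have key : ∀ i : ℕ, i ≤ A → i * (e + 1) ≤
      A * ∑ v ∈ univ.filter (fun v => n ≤ F^[i] 1 * d v), d v := by
    intro i
    induction i with
    | zero => simp
    | succ i ih =>
      intro hi
      have h1 := ih (by omega)
      have h2 := hc (F^[i] 1) (mono (by omega : i ≤ A))
      have h3 : ∑ v ∈ univ.filter (fun v => n ≤ F^[i] 1 * d v), d v +
          ∑ v ∈ univ.filter (fun v => F^[i] 1 * d v < n ∧ n ≤ F (F^[i] 1) * d v), d v ≤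
          ∑ v ∈ univ.filter (fun v => n ≤ F^[i + 1] 1 * d v), d v := by
        rw [← sum_union]
        · refine sum_le_sum_of_subset ?_
          intro v hv
          simp only [mem_union, mem_filter, mem_univ, true_and, Function.iterate_succ_apply']
            at hv ⊢
          rcases hv with hv | hv
          · exact hv.trans (Nat.mul_le_mul_right _ (hF _))
          · exact hv.2
        · rw [Finset.disjoint_left]
          intro v hv hv'
          simp only [mem_filter, mem_univ, true_and] at hv hv'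
          omega
      have h4 := Nat.mul_le_mul_left A h3
      rw [mul_add] at h4
      rw [add_mul]
      omega
  have h5 := key A le_rfl
  have h6 : ∑ v ∈ univ.filter (fun v => n ≤ F^[A] 1 * d v), d v ≤ e :=
    le_trans (sum_le_sum_of_subset (filter_subset _ _)) he
  have h7 := Nat.mul_le_mul_left A h6
  rw [mul_add] at h5
  omega

/-- a small set hitting all small classes and all edges of non-robust pairs -/
lemma hit (G : SimpleGraph V) (L : Finset V) (M : ℕ) :
    ∃ Z : Finset V, Z.card ≤ 2 * 4 ^ L.card * M ∧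
      (∀ u, u ∉ L → u ∉ Z → (ctx G L M).Lg ((ctx G L M).T u)) ∧
      (∀ u u', u ∉ L → u' ∉ L → u ∉ Z → u' ∉ Z → G.Adj u u' →
        (ctx G L M).RP ((ctx G L M).T u) ((ctx G L M).T u')) := by
  have h1 : ∀ T : Finset V, ∃ Z : Finset V, Z.card ≤ M ∧ (¬ (ctx G L M).Lg T →
      ∀ u, u ∉ L → L.filter (G.Adj u) = T → u ∈ Z) := by
    intro T
    by_cases hT : (ctx G L M).Lg T
    · exact ⟨∅, by simp, fun h => absurd hT h⟩
    · have hT' := hT
      simp only [ctx] at hT'
      push Not at hT'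
      obtain ⟨Z, hZ, hZ'⟩ := hT'
      refine ⟨Z, hZ, fun _ u hu hu2 => ?_⟩
      by_contra hc
      exact hZ' u hu hc hu2
  have h2 : ∀ T : Finset V × Finset V, ∃ Z : Finset V, Z.card ≤ M ∧
      (¬ (ctx G L M).RP T.1 T.2 → ∀ u u', u ∉ L → u' ∉ L → G.Adj u u' →
        L.filter (G.Adj u) = T.1 → L.filter (G.Adj u') = T.2 → u ∈ Z ∨ u' ∈ Z) := by
    intro T
    by_cases hT : (ctx G L M).RP T.1 T.2
    · exact ⟨∅, by simp, fun h => absurd hT h⟩
    · have hT' := hT
      simp only [ctx] at hT'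
      push Not at hT'
      obtain ⟨Z, hZ, hZ'⟩ := hT'
      refine ⟨Z, hZ, fun _ u u' hu hu' ha e1 e2 => ?_⟩
      by_contra hc
      push Not at hc
      exact hZ' u u' hu hu' hc.1 hc.2 ha e1 e2
  choose Z1 hZ1 hZ1' using h1
  choose Z2 hZ2 hZ2' using h2
  refine ⟨L.powerset.biUnion Z1 ∪ (L.powerset ×ˢ L.powerset).biUnion Z2, ?_, ?_, ?_⟩
  · have a1 : (L.powerset.biUnion Z1).card ≤ 2 ^ L.card * M := by
      have := card_biUnion_le_card_mul L.powerset Z1 M (fun T _ => hZ1 T)
      rwa [card_powerset] at this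
    have a2 : ((L.powerset ×ˢ L.powerset).biUnion Z2).card ≤ 4 ^ L.card * M := by
      have := card_biUnion_le_card_mul (L.powerset ×ˢ L.powerset) Z2 M (fun T _ => hZ2 T)
      rwa [card_product, card_powerset, ← mul_pow] at this
    have a3 : 2 ^ L.card * M ≤ 4 ^ L.card * M :=
      Nat.mul_le_mul_right _ (Nat.pow_le_pow_left (by norm_num) _)
    have a4 := card_union_le (L.powerset.biUnion Z1) ((L.powerset ×ˢ L.powerset).biUnion Z2)
    rw [mul_assoc]
    omega
  · intro u hu hZ
    by_contra hc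
    apply hZ
    refine mem_union_left _ (mem_biUnion.2 ⟨L.filter (G.Adj u), mem_powerset.2 (filter_subset _ _),
      ?_⟩)
    exact hZ1' _ hc u hu rfl
  · intro u u' hu hu' hZ hZ' ha
    by_contra hc
    have hm : (L.filter (G.Adj u), L.filter (G.Adj u')) ∈ L.powerset ×ˢ L.powerset :=
      mem_product.2 ⟨mem_powerset.2 (filter_subset _ _), mem_powerset.2 (filter_subset _ _)⟩
    rcases hZ2' (L.filter (G.Adj u), L.filter (G.Adj u')) hc u u' hu hu' ha rfl rfl with h | h
    · exact hZ (mem_union_right _ (mem_biUnion.2 ⟨_, hm, h⟩))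
    · exact hZ' (mem_union_right _ (mem_biUnion.2 ⟨_, hm, h⟩))

/-- pairs of consecutive edges whose middle vertices are in `S` -/
noncomputable def B4 [Fintype V] (G : SimpleGraph V) (S : Finset V) :
    Finset ((V × V) × (V × V)) :=
  univ.filter fun x => G.Adj x.1.1 x.1.2 ∧ G.Adj x.1.2 x.2.1 ∧ G.Adj x.2.1 x.2.2 ∧
    x.1.2 ∈ S ∧ x.2.1 ∈ S

lemma card_B4 [Fintype V] {G : SimpleGraph V} {N : ℕ} (h : PFree G N) (S : Finset V) (D : ℕ)
    (hD : ∀ v ∈ S, dg G v ≤ D) :
    (B4 G S).card ≤ 2 * N * (2 * N * Fintype.card V * D) := by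
  have h1 : B4 G S ⊆ S.biUnion fun b => (S.filter (G.Adj b)).biUnion fun c =>
      ((univ.filter (G.Adj b)) ×ˢ (univ.filter (G.Adj c))).image fun p => ((p.1, b), (c, p.2)) := by
    rintro ⟨⟨a, b⟩, ⟨c, d⟩⟩ hx
    simp only [B4, mem_filter, mem_univ, true_and] at hx
    obtain ⟨h1, h2, h3, h4, h5⟩ := hx
    refine mem_biUnion.2 ⟨b, h4, mem_biUnion.2 ⟨c, mem_filter.2 ⟨h5, h2⟩, mem_image.2
      ⟨(a, d), ?_, rfl⟩⟩⟩
    simp [h1.symm, h3]
  have h2 : (B4 G S).card ≤ ∑ b ∈ S, ∑ c ∈ S.filter (G.Adj b),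
      (if b ∈ S ∧ c ∈ S then dg G b * dg G c else 0) := by
    refine (card_le_card h1).trans (card_biUnion_le.trans (sum_le_sum fun b hb => ?_))
    refine card_biUnion_le.trans (sum_le_sum fun c hc => ?_)
    rw [if_pos ⟨hb, (mem_filter.1 hc).1⟩]
    refine card_image_le.trans ?_
    rw [card_product]
    rfl
  have h3 := sumU h (fun b => dg G b * D)
    (fun b c => if b ∈ S ∧ c ∈ S then dg G b * dg G c else 0) (by
      intro b c _
      split_ifs with hbc
      · refine ⟨Nat.mul_le_mul_left _ (hD c hbc.2), ?_⟩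
        rw [mul_comm]
        exact Nat.mul_le_mul_left _ (hD b hbc.1)
      · simp) S
  refine h2.trans (h3.trans (Nat.mul_le_mul_left _ ?_))
  rw [← sum_mul]
  refine Nat.mul_le_mul_right _ (le_trans (sum_le_sum_of_subset (subset_univ _)) (sum_dg h))

lemma count1 {α : Type} (l : ℕ) (E B : Finset α) (e : ℕ) (he : E.card ≤ e)
    (t : Fin l) (P : Finset (Fin l → α)) (hP : ∀ g ∈ P, (∀ s, g s ∈ E) ∧ g t ∈ B) :
    P.card ≤ B.card * e ^ (l - 1) := by
  have h1 : P ⊆ Fintype.piFinset fun s => if s = t then B else E := by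
    intro g hg
    replace hg := hP g hg
    rw [Fintype.mem_piFinset]
    intro s
    split_ifs with hs
    · rw [hs]; exact hg.2
    · exact hg.1 s
  refine (card_le_card h1).trans ?_
  rw [Fintype.card_piFinset, ← mul_prod_erase univ _ (mem_univ t), if_pos rfl]
  refine Nat.mul_le_mul_left _ ?_
  have := prod_le_pow_card (univ.erase t) (fun s => (if s = t then B else E).card) e (by
    intro s hs
    rw [if_neg (ne_of_mem_erase hs)]
    exact he)
  rwa [card_erase_of_mem (mem_univ t), card_univ, Fintype.card_fin] at this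

lemma count2 {α : Type} (l : ℕ) (E : Finset α) (B : Finset (α × α)) (e : ℕ)
    (he : E.card ≤ e) (t t' : Fin l) (htt : t ≠ t') (P : Finset (Fin l → α))
    (hP : ∀ g ∈ P, (∀ s, g s ∈ E) ∧ (g t, g t') ∈ B) :
    P.card ≤ B.card * e ^ (l - 2) := by
  have h1 : P ⊆ B.biUnion fun p => Fintype.piFinset fun s =>
        if s = t then {p.1} else if s = t' then {p.2} else E := by
    intro g hg
    replace hg := hP g hg
    refine mem_biUnion.2 ⟨_, hg.2, ?_⟩
    rw [Fintype.mem_piFinset]
    intro s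
    split_ifs with hs hs'
    · rw [hs]; simp
    · rw [hs']; simp
    · exact hg.1 s
  refine (card_le_card h1).trans (card_biUnion_le_card_mul _ _ _ fun p _ => ?_)
  have ht' : t' ∈ univ.erase t := mem_erase.2 ⟨htt.symm, mem_univ _⟩
  rw [Fintype.card_piFinset, ← mul_prod_erase univ _ (mem_univ t), if_pos rfl,
    ← mul_prod_erase _ _ ht', if_neg htt.symm, if_pos rfl, card_singleton, card_singleton,
    one_mul, one_mul]
  have := prod_le_pow_card ((univ.erase t).erase t')
    (fun s => (if s = t then ({p.1} : Finset α) else if s = t' then {p.2} else E).card) e (by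
    intro s hs
    rw [if_neg (ne_of_mem_erase (mem_of_mem_erase hs)), if_neg (ne_of_mem_erase hs)]
    exact he)
  rwa [card_erase_of_mem ht', card_erase_of_mem (mem_univ t), card_univ, Fintype.card_fin] at this

/-- the blocks of a path -/
def blk {l : ℕ} (f : Fin (2 * l) → V) (t : Fin l) : V × V :=
  (f ⟨2 * t.val, by omega⟩, f ⟨2 * t.val + 1, by omega⟩)

lemma blk_inj {l : ℕ} : Function.Injective (blk : (Fin (2 * l) → V) → Fin l → V × V) := by
  intro f g h
  funext i
  have h1 := congrFun h ⟨i.val / 2, by omega⟩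
  simp only [blk, Prod.mk.injEq] at h1
  rcases Nat.mod_two_eq_zero_or_one i.val with hi | hi
  · have : i = ⟨2 * (i.val / 2), by omega⟩ := Fin.ext (by simp only; omega)
    rw [this]; exact h1.1
  · have : i = ⟨2 * (i.val / 2) + 1, by omega⟩ := Fin.ext (by simp only; omega)
    rw [this]; exact h1.2

lemma end_small [Fintype V] {G : SimpleGraph V} {N : ℕ} (h : PFree G N) {f : Fin N → V}
    (hf : f ∈ paths G N) (i : Fin N) (hi : i.val = 0 ∨ i.val + 1 = N) : dg G (f i) ≤ N := by
  by_contra hc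
  simp only [paths, mem_filter, mem_univ, true_and] at hf
  obtain ⟨hinj, hadj⟩ := hf
  have h5 : (univ.image f).card < (univ.filter (G.Adj (f i))).card := by
    have := card_image_le (s := univ) (f := f)
    rw [card_univ, Fintype.card_fin] at this
    unfold dg at hc
    omega
  obtain ⟨y, hy, hy2⟩ := Finset.exists_mem_notMem_of_card_lt_card h5
  have hy3 : ∀ j, f j ≠ y := fun j hj => hy2 (mem_image.2 ⟨j, mem_univ _, hj⟩)
  have hy4 : G.Adj (f i) y := (mem_filter.1 hy).2
  rcases hi with hi | hi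
  · refine pfree_fn h (fun k => if hk : k.val = 0 then y else f ⟨k.val - 1, by omega⟩) ?_ ?_
    · intro a b hab
      by_cases ha : a.val = 0 <;> by_cases hb : b.val = 0
      · exact Fin.ext (by omega)
      · simp only [ha, hb, dif_pos, dif_neg, not_false_eq_true] at hab
        exact absurd hab.symm (hy3 _)
      · simp only [ha, hb, dif_pos, dif_neg, not_false_eq_true] at hab
        exact absurd hab (hy3 _)
      · simp only [ha, hb, dif_neg, not_false_eq_true] at hab
        have := congrArg Fin.val (hinj hab)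
        simp only at this
        exact Fin.ext (by omega)
    · intro a b hab
      have hb : ¬ b.val = 0 := by omega
      by_cases ha : a.val = 0
      · simp only [ha, hb, dif_pos, dif_neg, not_false_eq_true]
        have : (⟨b.val - 1, by omega⟩ : Fin N) = i := Fin.ext (by simp only; omega)
        rw [this]
        exact hy4.symm
      · simp only [ha, hb, dif_neg, not_false_eq_true]
        exact hadj _ _ (by simp only; omega)
  · refine pfree_fn h (fun k => if hk : k.val < N then f ⟨k.val, hk⟩ else y) ?_ ?_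
    · intro a b hab
      by_cases ha : a.val < N <;> by_cases hb : b.val < N
      · simp only [ha, hb, dif_pos] at hab
        have := congrArg Fin.val (hinj hab)
        exact Fin.ext this
      · simp only [ha, hb, dif_pos, dif_neg, not_false_eq_true] at hab
        exact absurd hab (hy3 _)
      · simp only [ha, hb, dif_pos, dif_neg, not_false_eq_true] at hab
        exact absurd hab.symm (hy3 _)
      · exact Fin.ext (by omega)
    · intro a b hab
      have ha : a.val < N := by omega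
      by_cases hb : b.val < N
      · simp only [ha, hb, dif_pos]
        exact hadj _ _ hab
      · simp only [ha, hb, dif_pos, dif_neg, not_false_eq_true]
        have : (⟨a.val, ha⟩ : Fin N) = i := Fin.ext (by simp only; omega)
        rw [this]
        exact hy4

/-- a path without bad blocks is good -/
lemma good_of [Fintype V] {G : SimpleGraph V} {l : ℕ} (h : PFree G (2 * l)) (L S X : Finset V)
    (M : ℕ) (hL : ∀ v ∈ L, 2 * l < dg G v) (hS : ∀ v, v ∉ L → v ∉ X → v ∈ S)
    (h1 : ∀ u, u ∉ L → u ∉ X → (ctx G L M).Lg ((ctx G L M).T u))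
    (h2 : ∀ u u', u ∉ L → u' ∉ L → u ∉ X → u' ∉ X → G.Adj u u' →
        (ctx G L M).RP ((ctx G L M).T u) ((ctx G L M).T u'))
    {f : Fin (2 * l) → V} (hf : f ∈ paths G (2 * l))
    (b2 : ∀ t, ¬ ((blk f t).1 ∈ X ∨ (blk f t).2 ∈ X ∨ ((blk f t).1 ∈ L ∧ (blk f t).2 ∈ L)))
    (b4 : ∀ t t' : Fin l, t.val + 1 = t'.val → (blk f t, blk f t') ∉ B4 G S) :
    Good G L M f := by
  have hf' := hf
  simp only [paths, mem_filter, mem_univ, true_and] at hf'
  obtain ⟨_, hadj⟩ := hf'
  have hX : ∀ i, f i ∉ X := by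
    intro i hi
    apply b2 ⟨i.val / 2, by omega⟩
    rcases Nat.mod_two_eq_zero_or_one i.val with hm | hm
    · left
      have : i = ⟨2 * (i.val / 2), by omega⟩ := Fin.ext (by simp only; omega)
      rw [this] at hi; exact hi
    · right; left
      have : i = ⟨2 * (i.val / 2) + 1, by omega⟩ := Fin.ext (by simp only; omega)
      rw [this] at hi; exact hi
  refine ⟨fun i hi => h1 _ hi (hX i), fun i hi hiL => ?_, fun i j hij hi hb => ?_,
    fun i j hij hi => ?_, fun i j hij _ hi hj => h2 _ _ hi hj (hX i) (hX j) (hadj i j hij)⟩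
  · have := end_small h hf i hi
    have := hL _ hiL
    omega
  · apply b2 ⟨i.val / 2, by omega⟩
    right; right
    have e1 : i = ⟨2 * (i.val / 2), by omega⟩ := Fin.ext (by simp only; omega)
    have e2 : j = ⟨2 * (i.val / 2) + 1, by omega⟩ := Fin.ext (by simp only; omega)
    have f1 := congrArg f e1
    have f2 := congrArg f e2
    rw [f1, f2] at hb
    exact hb
  · by_contra hc
    push Not at hc
    have hj := j.isLt
    apply b4 ⟨i.val / 2, by omega⟩ ⟨i.val / 2 + 1, by omega⟩ rfl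
    have e1 : i = ⟨2 * (i.val / 2) + 1, by omega⟩ := Fin.ext (by simp only; omega)
    have e2 : j = ⟨2 * (i.val / 2 + 1), by omega⟩ := Fin.ext (by simp only; omega)
    have s1 := hS _ hc.1 (hX i)
    have s2 := hS _ hc.2 (hX j)
    rw [e2] at s2
    rw [e1] at s1
    simp only [B4, blk, mem_filter, mem_univ, true_and]
    exact ⟨hadj _ _ rfl, hadj _ _ (by simp only; omega), hadj _ _ rfl, s1, s2⟩

lemma bad_le [Fintype V] {G : SimpleGraph V} {l : ℕ} (h : PFree G (2 * l)) (L S X : Finset V)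
    (M : ℕ) (hL : ∀ v ∈ L, 2 * l < dg G v) (hS : ∀ v, v ∉ L → v ∉ X → v ∈ S)
    (h1 : ∀ u, u ∉ L → u ∉ X → (ctx G L M).Lg ((ctx G L M).T u))
    (h2 : ∀ u u', u ∉ L → u' ∉ L → u ∉ X → u' ∉ X → G.Adj u u' →
        (ctx G L M).RP ((ctx G L M).T u) ((ctx G L M).T u')) :
    ((paths G (2 * l)).filter fun f => ¬ Good G L M f).card ≤
      l * ((2 * ∑ v ∈ X, dg G v + L.card * L.card) * (2 * (2 * l) * Fintype.card V) ^ (l - 1)) +
      l * ((B4 G S).card * (2 * (2 * l) * Fintype.card V) ^ (l - 2)) := by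
  set B2 : Finset (V × V) := (E G).filter fun p => p.1 ∈ X ∨ p.2 ∈ X ∨ (p.1 ∈ L ∧ p.2 ∈ L)
    with hB2
  have c2 : B2.card ≤ 2 * ∑ v ∈ X, dg G v + L.card * L.card := by
    have : B2 ⊆ ((E G).filter (fun p => p.1 ∈ X) ∪ (E G).filter (fun p => p.2 ∈ X)) ∪ L ×ˢ L := by
      intro p hp
      simp only [hB2, mem_filter, mem_union, mem_product] at hp ⊢
      tauto
    refine (card_le_card this).trans ((card_union_le _ _).trans ?_)
    rw [card_product]
    refine Nat.add_le_add_right ((card_union_le _ _).trans ?_) _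
    rw [card_fst, card_snd]
    omega
  have hsub : ((paths G (2 * l)).filter fun f => ¬ Good G L M f).image blk ⊆
      (univ.biUnion fun t : Fin l =>
        univ.filter fun g : Fin l → V × V => (∀ s, g s ∈ E G) ∧ g t ∈ B2) ∪
      (univ.biUnion fun t : Fin l => if ht : t.val + 1 < l then
        univ.filter fun g : Fin l → V × V => (∀ s, g s ∈ E G) ∧ (g t, g ⟨t.val + 1, ht⟩) ∈ B4 G S
        else ∅) := by
    intro g hg
    obtain ⟨f, hf, rfl⟩ := mem_image.1 hg
    obtain ⟨hf, hbad⟩ := mem_filter.1 hf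
    have hE : ∀ s, blk f s ∈ E G := by
      intro s
      have hf' := hf
      simp only [paths, mem_filter, mem_univ, true_and] at hf'
      simp only [E, blk, mem_filter, mem_univ, true_and]
      exact hf'.2 _ _ rfl
    by_contra hc
    apply hbad
    rw [mem_union, not_or] at hc
    refine good_of h L S X M hL hS h1 h2 hf (fun t ht => hc.1 ?_) (fun t t' htt ht => hc.2 ?_)
    · exact mem_biUnion.2 ⟨t, mem_univ _, mem_filter.2 ⟨mem_univ _, hE, mem_filter.2 ⟨hE t, ht⟩⟩⟩
    · refine mem_biUnion.2 ⟨t, mem_univ _, ?_⟩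
      have hlt : t.val + 1 < l := by omega
      have e : t' = ⟨t.val + 1, hlt⟩ := Fin.ext htt.symm
      rw [dif_pos hlt]
      rw [e] at ht
      exact mem_filter.2 ⟨mem_univ _, hE, ht⟩
  rw [← card_image_of_injective _ blk_inj]
  refine (card_le_card hsub).trans ((card_union_le _ _).trans (Nat.add_le_add ?_ ?_))
  · refine (card_biUnion_le_card_mul _ _ _ fun t _ => ?_).trans
      (by rw [card_univ, Fintype.card_fin])
    exact (count1 l (E G) B2 _ (card_E h) t _ (fun g hg => (mem_filter.1 hg).2)).trans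
      (Nat.mul_le_mul_right _ c2)
  · refine (card_biUnion_le_card_mul _ _ _ fun t _ => ?_).trans
      (by rw [card_univ, Fintype.card_fin])
    split_ifs with ht
    · exact count2 l (E G) (B4 G S) _ (card_E h) t ⟨t.val + 1, ht⟩ (fun e => by
        have : t.val = t.val + 1 := congrArg Fin.val e
        omega) _ (fun g hg => (mem_filter.1 hg).2)
    · simp

lemma main_nat (l : ℕ) (hl : 2 ≤ l) (M A : ℕ) (hA : 0 < A) :
    ∃ n0 : ℕ, ∀ (V : Type) [Fintype V] (G : SimpleGraph V),
      n0 ≤ Fintype.card V → PFree G (2 * l) → ∃ L : Finset V,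
        A * ((paths G (2 * l)).filter fun f => ¬ Good G L M f).card ≤
          (l * ((2 * (4 * l) + 3) * (4 * l) ^ (l - 1)) + l * (4 * l) ^ l) *
            Fintype.card V ^ l := by
  obtain ⟨Q, hQ⟩ := scale (fun q => A * (2 * 4 ^ (4 * l * q) * M + 1) + q)
    (fun q => Nat.le_add_left _ _) A hA
  refine ⟨A * (4 * l * Q) ^ 2 + (2 * l * Q + 1), fun V _ G hn h => ?_⟩
  set n := Fintype.card V with hndef
  have hK : 2 * (2 * l) = 4 * l := by ring
  have hsum : ∑ v, dg G v ≤ 4 * l * n := by rw [← hK]; exact sum_dg h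
  obtain ⟨q, hq, hmed⟩ := hQ V (dg G) n _ hsum
  set q' := A * (2 * 4 ^ (4 * l * q) * M + 1) + q with hq'
  set L : Finset V := univ.filter fun v => n ≤ q * dg G v with hLdef
  set S : Finset V := univ.filter fun v => q' * dg G v < n with hSdef
  set Med : Finset V := univ.filter fun v => q * dg G v < n ∧ n ≤ q' * dg G v with hMed
  have hnpos : 0 < n := by omega
  have hLc : L.card ≤ 4 * l * q := by
    have a1 : L.card * n ≤ q * ∑ v ∈ L, dg G v := by
      rw [mul_sum, ← smul_eq_mul]
      exact card_nsmul_le_sum _ _ _ fun v hv => (mem_filter.1 hv).2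
    have a2 : ∑ v ∈ L, dg G v ≤ 4 * l * n :=
      le_trans (sum_le_sum_of_subset (subset_univ _)) hsum
    have a3 : L.card * n ≤ (4 * l * q) * n := by
      calc L.card * n ≤ q * (4 * l * n) := a1.trans (Nat.mul_le_mul_left _ a2)
        _ = (4 * l * q) * n := by ring
    exact Nat.le_of_mul_le_mul_right a3 hnpos
  obtain ⟨Z, hZ, hZ1, hZ2⟩ := hit G L M
  have hZ' : Z.card ≤ 2 * 4 ^ (4 * l * q) * M :=
    hZ.trans (Nat.mul_le_mul_right _ (Nat.mul_le_mul_left _ (Nat.pow_le_pow_right (by norm_num) hLc)))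
  set D := n / q' with hD
  have hq'pos : 0 < q' := by positivity
  have hDS : ∀ v ∈ S, dg G v ≤ D := by
    intro v hv
    rw [hD, Nat.le_div_iff_mul_le hq'pos, mul_comm]
    exact (mem_filter.1 hv).2.le
  have hDn : q' * D ≤ n := Nat.mul_div_le n q'
  have hS : ∀ v, v ∉ L → v ∉ Med ∪ (Z ∩ S) → v ∈ S := by
    intro v h1 h2
    simp only [hLdef, hSdef, hMed, mem_filter, mem_univ, true_and, mem_union, not_or] at h1 h2 ⊢
    omega
  have hZX : ∀ v, v ∉ L → v ∉ Med ∪ (Z ∩ S) → v ∉ Z := fun v h1 h2 h3 =>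
    h2 (mem_union_right _ (mem_inter.2 ⟨h3, hS v h1 h2⟩))
  have hb := bad_le h L S (Med ∪ (Z ∩ S)) M (by
      intro v hv
      have a1 : n ≤ q * dg G v := (mem_filter.1 hv).2
      by_contra hc
      have a2 : q * dg G v ≤ Q * (2 * l) := Nat.mul_le_mul hq (by omega)
      have a3 : Q * (2 * l) = 2 * l * Q := by ring
      omega) hS (fun u h1 h2 => hZ1 u h1 (hZX u h1 h2))
    (fun u u' h1 h1' h2 h2' => hZ2 u u' h1 h1' (hZX u h1 h2) (hZX u' h1' h2'))
  refine ⟨L, ?_⟩
  rw [hK, ← hndef] at hb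
  have hX : A * ∑ v ∈ Med ∪ (Z ∩ S), dg G v ≤ 4 * l * n + n := by
    have a1 : ∑ v ∈ Med ∪ (Z ∩ S), dg G v ≤ ∑ v ∈ Med, dg G v + ∑ v ∈ Z ∩ S, dg G v := by
      rw [← sum_union_inter]
      exact Nat.le_add_right _ _
    have a2 : ∑ v ∈ Z ∩ S, dg G v ≤ Z.card * D := by
      calc ∑ v ∈ Z ∩ S, dg G v ≤ (Z ∩ S).card • D :=
            sum_le_card_nsmul _ _ _ fun v hv => hDS v (mem_inter.1 hv).2
        _ ≤ Z.card * D := by
            rw [smul_eq_mul]; exact Nat.mul_le_mul_right _ (card_le_card inter_subset_left)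
    have a3 : A * (Z.card * D) ≤ n := by
      refine le_trans ?_ hDn
      rw [← mul_assoc]
      refine Nat.mul_le_mul_right _ ?_
      have : A * Z.card ≤ A * (2 * 4 ^ (4 * l * q) * M + 1) := Nat.mul_le_mul_left A (by omega)
      omega
    have a4 := Nat.mul_le_mul_left A (a1.trans (Nat.add_le_add_left a2 _))
    rw [mul_add] at a4
    omega
  have hLL : A * (L.card * L.card) ≤ n := by
    have a1 : L.card ≤ 4 * l * Q := hLc.trans (Nat.mul_le_mul_left _ hq)
    have a2 : L.card * L.card ≤ (4 * l * Q) ^ 2 := by rw [sq]; exact Nat.mul_le_mul a1 a1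
    have := Nat.mul_le_mul_left A a2
    omega
  have hB2 : A * (2 * ∑ v ∈ Med ∪ (Z ∩ S), dg G v + L.card * L.card) ≤ (2 * (4 * l) + 3) * n := by
    have : A * (2 * ∑ v ∈ Med ∪ (Z ∩ S), dg G v + L.card * L.card) =
      2 * (A * ∑ v ∈ Med ∪ (Z ∩ S), dg G v) + A * (L.card * L.card) := by ring
    rw [this]
    nlinarith
  have hB4 : A * (B4 G S).card ≤ (4 * l) ^ 2 * n ^ 2 := by
    have a1 := card_B4 h S D hDS
    rw [hK, ← hndef] at a1
    have a2 : A * D ≤ n := by
      refine le_trans (Nat.mul_le_mul_right _ ?_) hDn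
      have : A * 1 ≤ A * (2 * 4 ^ (4 * l * q) * M + 1) := Nat.mul_le_mul_left _ (by omega)
      omega
    calc A * (B4 G S).card ≤ A * (4 * l * (4 * l * n * D)) := Nat.mul_le_mul_left _ a1
      _ = (4 * l) ^ 2 * n * (A * D) := by ring
      _ ≤ (4 * l) ^ 2 * n * n := Nat.mul_le_mul_left _ a2
      _ = (4 * l) ^ 2 * n ^ 2 := by ring
  obtain ⟨k, rfl⟩ : ∃ k, l = k + 2 := ⟨l - 2, by omega⟩
  have e1 : k + 2 - 1 = k + 1 := by omega
  have e2 : k + 2 - 2 = k := by omega
  rw [e1, e2] at hb
  rw [e1]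
  set K := 4 * (k + 2) with hKdef
  set b2 := 2 * ∑ v ∈ Med ∪ (Z ∩ S), dg G v + L.card * L.card
  set b4 := (B4 G S).card
  calc A * ((paths G (2 * (k + 2))).filter fun f => ¬ Good G L M f).card
      ≤ A * ((k + 2) * (b2 * (K * n) ^ (k + 1)) + (k + 2) * (b4 * (K * n) ^ k)) :=
        Nat.mul_le_mul_left _ hb
    _ = (k + 2) * ((A * b2) * (K * n) ^ (k + 1)) + (k + 2) * ((A * b4) * (K * n) ^ k) := by ring
    _ ≤ (k + 2) * (((2 * K + 3) * n) * (K * n) ^ (k + 1)) +
        (k + 2) * ((K ^ 2 * n ^ 2) * (K * n) ^ k) := by gcongr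
    _ = ((k + 2) * ((2 * K + 3) * K ^ (k + 1)) + (k + 2) * K ^ (k + 2)) * n ^ (k + 2) := by ring

end T5

theorem taskT5 (l : ℕ) (h : 4 ≤ l) : TaskT5 l := by
  intro M ε hε
  set C : ℕ := l * ((2 * (4 * l) + 3) * (4 * l) ^ (l - 1)) + l * (4 * l) ^ l with hC
  obtain ⟨A, hA⟩ := exists_nat_gt ((C : ℝ) / ε)
  have hApos : (0 : ℝ) < A := lt_of_le_of_lt (by positivity) hA
  obtain ⟨n0, hn0⟩ := T5.main_nat l (by omega) M A (by exact_mod_cast hApos)
  refine ⟨n0, fun V _ G hn hG => ?_⟩
  obtain ⟨L, hL⟩ := hn0 V G hn hG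
  refine ⟨L, ?_⟩
  rw [← hC] at hL
  have h1 := (Nat.cast_le (α := ℝ)).2 hL
  push_cast at h1
  have h2 : (C : ℝ) ≤ A * ε := by
    rw [div_lt_iff₀ hε] at hA
    exact hA.le
  have h3 : (0 : ℝ) ≤ (Fintype.card V : ℝ) ^ l := by positivity
  refine le_of_mul_le_mul_left (h1.trans ?_) hApos
  rw [← mul_assoc]
  exact mul_le_mul_of_nonneg_right h2 h3

end H345PK
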